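import Mathlib

/-!
The valuation ring of the ramification divisor of a double cover `w² = φ(ξ)`.
-/

set_option autoImplicit false

namespace Pool.Agent.H764QD

open MvPolynomial

noncomputable section

section

variable {m : ℕ} {M : Type} [Field M] [Algebra ℂ M] (φ : MvPolynomial (Fin m) ℂ) (ξ : Fin m → M)
  (w : M)

/-- elements of the valuation ring -/
def IsV (z : M) : Prop :=
  ∃ A B C : MvPolynomial (Fin m) ℂ, ¬ φ ∣ C ∧ z * aeval ξ C = aeval ξ A + aeval ξ B * w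

/-- units of the valuation ring -/
def IsU (z : M) : Prop :=
  ∃ A B C : MvPolynomial (Fin m) ℂ, ¬ φ ∣ A ∧ ¬ φ ∣ C ∧ z * aeval ξ C = aeval ξ A + aeval ξ B * w

/-- the data of the double cover -/
structure Dbl : Prop where
  prime : Prime φ
  ind : AlgebraicIndependent ℂ ξ
  eq : w ^ 2 = aeval ξ φ
  gen : ∀ z : M, ∃ A B C : MvPolynomial (Fin m) ℂ, C ≠ 0 ∧
    z * aeval ξ C = aeval ξ A + aeval ξ B * w

end

variable {m : ℕ} {M : Type} [Field M] [Algebra ℂ M] {φ : MvPolynomial (Fin m) ℂ} {ξ : Fin m → M}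
  {w : M}

namespace Dbl

theorem inj (h : Dbl φ ξ w) {A B : MvPolynomial (Fin m) ℂ} (hAB : aeval ξ A = aeval ξ B) :
    A = B := h.ind hAB

theorem ne (h : Dbl φ ξ w) {A : MvPolynomial (Fin m) ℂ} (hA : A ≠ 0) : aeval ξ A ≠ 0 := by
  intro h0
  exact hA (h.inj (by rw [h0, map_zero]))

theorem ne' (h : Dbl φ ξ w) {A : MvPolynomial (Fin m) ℂ} (hA : ¬ φ ∣ A) : aeval ξ A ≠ 0 :=
  h.ne (by rintro rfl; exact hA (dvd_zero _))

theorem w_ne (h : Dbl φ ξ w) : w ≠ 0 := by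
  intro h0
  have h1 := h.eq
  rw [h0, zero_pow two_ne_zero] at h1
  exact h.ne h.prime.ne_zero h1.symm

/-- factoring out the prime -/
theorem factor (h : Dbl φ ξ w) {A : MvPolynomial (Fin m) ℂ} (hA : A ≠ 0) :
    ∃ (a : ℕ) (A' : MvPolynomial (Fin m) ℂ), ¬ φ ∣ A' ∧ A = φ ^ a * A' := by
  have h1 : FiniteMultiplicity φ A :=
    FiniteMultiplicity.of_prime_left h.prime hA
  obtain ⟨A', h2, h3⟩ := h1.exists_eq_pow_mul_and_not_dvd
  exact ⟨_, A', h3, h2⟩

/-- the field has degree two -/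
theorem rel_zero (h : Dbl φ ξ w) {A B : MvPolynomial (Fin m) ℂ}
    (hAB : aeval ξ A + aeval ξ B * w = 0) : A = 0 ∧ B = 0 := by
  have h1 : A ^ 2 = B ^ 2 * φ := by
    apply h.inj
    rw [map_pow, map_mul, map_pow, ← h.eq]
    linear_combination (aeval ξ A - aeval ξ B * w) * hAB
  have hB : B = 0 := by
    by_contra hB
    have hA : A ≠ 0 := by
      rintro rfl
      rw [zero_pow two_ne_zero] at h1
      rcases mul_eq_zero.1 h1.symm with h2 | h2
      · exact hB (pow_eq_zero_iff two_ne_zero |>.1 h2)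
      · exact h.prime.ne_zero h2
    obtain ⟨a, A', hA', rfl⟩ := h.factor hA
    obtain ⟨b, B', hB', rfl⟩ := h.factor hB
    have h2 : φ ^ (2 * a) * A' ^ 2 = φ ^ (2 * b + 1) * B' ^ 2 := by
      linear_combination h1
    rcases lt_or_ge (2 * a) (2 * b + 1) with hlt | hge
    · obtain ⟨c, hc⟩ := Nat.exists_eq_add_of_lt hlt
      have h3 : A' ^ 2 = φ * (φ ^ c * B' ^ 2) := by
        apply mul_left_cancel₀ (pow_ne_zero (2 * a) h.prime.ne_zero)
        rw [h2, hc]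
        ring
      exact hA' (h.prime.dvd_of_dvd_pow ⟨_, h3⟩)
    · have hgt : 2 * b + 1 < 2 * a := by omega
      obtain ⟨c, hc⟩ := Nat.exists_eq_add_of_lt hgt
      have h3 : B' ^ 2 = φ * (φ ^ c * A' ^ 2) := by
        apply mul_left_cancel₀ (pow_ne_zero (2 * b + 1) h.prime.ne_zero)
        rw [← h2, hc]
        ring
      exact hB' (h.prime.dvd_of_dvd_pow ⟨_, h3⟩)
  subst hB
  refine ⟨?_, rfl⟩
  rw [zero_pow two_ne_zero, zero_mul] at h1
  exact pow_eq_zero_iff two_ne_zero |>.1 h1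

theorem ne_of (h : Dbl φ ξ w) {A : MvPolynomial (Fin m) ℂ} (B : MvPolynomial (Fin m) ℂ)
    (hA : ¬ φ ∣ A) : aeval ξ A + aeval ξ B * w ≠ 0 := by
  intro h0
  exact hA (by rw [(h.rel_zero h0).1]; exact dvd_zero _)

/-- the leading term -/
theorem lead (h : Dbl φ ξ w) {A B : MvPolynomial (Fin m) ℂ} (hAB : ¬ (A = 0 ∧ B = 0)) :
    ∃ (k : ℕ) (A' B' : MvPolynomial (Fin m) ℂ), ¬ φ ∣ A' ∧
      aeval ξ A + aeval ξ B * w = w ^ k * (aeval ξ A' + aeval ξ B' * w) := by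
  by_cases hA : A = 0
  · have hB : B ≠ 0 := fun hB => hAB ⟨hA, hB⟩
    obtain ⟨b, B', hB', rfl⟩ := h.factor hB
    refine ⟨2 * b + 1, B', 0, hB', ?_⟩
    rw [hA, map_zero, map_mul, map_pow, ← h.eq]
    ring
  by_cases hB : B = 0
  · obtain ⟨a, A', hA', rfl⟩ := h.factor hA
    refine ⟨2 * a, A', 0, hA', ?_⟩
    rw [hB, map_zero, map_mul, map_pow, ← h.eq]
    ring
  obtain ⟨a, A', hA', rfl⟩ := h.factor hA
  obtain ⟨b, B', hB', rfl⟩ := h.factor hB
  rcases le_or_gt a b with hab | hab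
  · obtain ⟨c, rfl⟩ := Nat.exists_eq_add_of_le hab
    refine ⟨2 * a, A', φ ^ c * B', hA', ?_⟩
    rw [map_mul, map_mul, map_mul, map_pow, map_pow, map_pow, ← h.eq]
    ring
  · obtain ⟨c, rfl⟩ := Nat.exists_eq_add_of_lt hab
    refine ⟨2 * b + 1, B', φ ^ c * A', hB', ?_⟩
    rw [map_mul, map_mul, map_mul, map_pow, map_pow, map_pow, ← h.eq]
    ring

theorem isV_of_isU {z : M} (hz : IsU φ ξ w z) : IsV φ ξ w z := by
  obtain ⟨A, B, C, _, hC, hz⟩ := hz
  exact ⟨A, B, C, hC, hz⟩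

theorem isU_ne (h : Dbl φ ξ w) {z : M} (hz : IsU φ ξ w z) : z ≠ 0 := by
  rintro rfl
  obtain ⟨A, B, C, hA, hC, hz⟩ := hz
  rw [zero_mul] at hz
  exact h.ne_of B hA hz.symm

theorem isU_inv (h : Dbl φ ξ w) {z : M} (hz : IsU φ ξ w z) : IsU φ ξ w z⁻¹ := by
  have hz0 := h.isU_ne hz
  obtain ⟨A, B, C, hA, hC, hz⟩ := hz
  have hN : ¬ φ ∣ A ^ 2 - B ^ 2 * φ := by
    intro hd
    have h1 : φ ∣ A ^ 2 := by
      have := dvd_add hd (Dvd.intro_left (B ^ 2) rfl : φ ∣ B ^ 2 * φ)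
      rwa [sub_add_cancel] at this
    exact hA (h.prime.dvd_of_dvd_pow h1)
  refine ⟨C * A, - (C * B), A ^ 2 - B ^ 2 * φ, ?_, hN, ?_⟩
  · intro hd
    rcases h.prime.dvd_or_dvd hd with h1 | h1
    · exact hC h1
    · exact hA h1
  · rw [map_sub, map_pow, map_mul, map_pow, ← h.eq, map_mul, map_neg, map_mul]
    have h1 : aeval ξ A ^ 2 - aeval ξ B ^ 2 * w ^ 2 =
        z * (aeval ξ C * (aeval ξ A - aeval ξ B * w)) := by
      linear_combination -(aeval ξ A - aeval ξ B * w) * hz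
    rw [h1, inv_mul_cancel_left₀ hz0]
    ring

theorem isV_poly (h : Dbl φ ξ w) (A : MvPolynomial (Fin m) ℂ) : IsV φ ξ w (aeval ξ A) :=
  ⟨A, 0, 1, h.prime.not_dvd_one, by rw [map_one, map_zero, mul_one, zero_mul, add_zero]⟩

theorem isV_w (h : Dbl φ ξ w) : IsV φ ξ w w :=
  ⟨0, 1, 1, h.prime.not_dvd_one, by rw [map_one, map_zero, mul_one, zero_add, one_mul]⟩

theorem isV_add (h : Dbl φ ξ w) {y z : M} (hy : IsV φ ξ w y) (hz : IsV φ ξ w z) :
    IsV φ ξ w (y + z) := by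
  obtain ⟨A, B, C, hC, hy⟩ := hy
  obtain ⟨A', B', C', hC', hz⟩ := hz
  refine ⟨A * C' + A' * C, B * C' + B' * C, C * C', fun hd => ?_, ?_⟩
  · rcases h.prime.dvd_or_dvd hd with h1 | h1
    · exact hC h1
    · exact hC' h1
  · simp only [map_add, map_mul]
    linear_combination (aeval ξ C') * hy + (aeval ξ C) * hz

theorem isV_mul (h : Dbl φ ξ w) {y z : M} (hy : IsV φ ξ w y) (hz : IsV φ ξ w z) :
    IsV φ ξ w (y * z) := by
  obtain ⟨A, B, C, hC, hy⟩ := hy
  obtain ⟨A', B', C', hC', hz⟩ := hz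
  refine ⟨A * A' + B * B' * φ, A * B' + A' * B, C * C', fun hd => ?_, ?_⟩
  · rcases h.prime.dvd_or_dvd hd with h1 | h1
    · exact hC h1
    · exact hC' h1
  · simp only [map_add, map_mul, ← h.eq]
    linear_combination (z * aeval ξ C') * hy + (aeval ξ A + aeval ξ B * w) * hz

theorem isV_neg {y : M} (hy : IsV φ ξ w y) : IsV φ ξ w (-y) := by
  obtain ⟨A, B, C, hC, hy⟩ := hy
  refine ⟨-A, -B, C, hC, ?_⟩
  simp only [map_neg]
  linear_combination -hy

theorem isV_pow (h : Dbl φ ξ w) {y : M} (hy : IsV φ ξ w y) (k : ℕ) : IsV φ ξ w (y ^ k) := by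
  induction k with
  | zero =>
    rw [pow_zero]
    have := h.isV_poly 1
    rwa [map_one] at this
  | succ k ih =>
    rw [pow_succ]
    exact h.isV_mul ih hy

/-- every element is a power of `w` times a unit -/
theorem normal (h : Dbl φ ξ w) {z : M} (hz : z ≠ 0) :
    ∃ (k l : ℕ) (u : M), IsU φ ξ w u ∧ z * w ^ l = w ^ k * u := by
  obtain ⟨A, B, C, hC, hzC⟩ := h.gen z
  obtain ⟨l, C', hC', rfl⟩ := h.factor hC
  have hAB : ¬ (A = 0 ∧ B = 0) := by
    rintro ⟨rfl, rfl⟩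
    rw [map_zero, zero_mul, add_zero] at hzC
    rcases mul_eq_zero.1 hzC with h1 | h1
    · exact hz h1
    · exact h.ne hC h1
  obtain ⟨k, A', B', hA', hlead⟩ := h.lead hAB
  have hC0 : aeval ξ C' ≠ 0 := h.ne' hC'
  refine ⟨k, 2 * l, (aeval ξ A' + aeval ξ B' * w) / aeval ξ C', ⟨A', B', C', hA', hC', ?_⟩, ?_⟩
  · field_simp
  · rw [hlead, map_mul, map_pow, ← h.eq] at hzC
    field_simp
    linear_combination hzC

theorem valuation_ring (h : Dbl φ ξ w) (z : M) : IsV φ ξ w z ∨ IsV φ ξ w z⁻¹ := by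
  by_cases hz : z = 0
  · left
    rw [hz]
    have := h.isV_poly 0
    rwa [map_zero] at this
  obtain ⟨k, l, u, hu, hkl⟩ := h.normal hz
  have hw := h.w_ne
  rcases le_or_gt l k with hlk | hlk
  · left
    obtain ⟨c, rfl⟩ := Nat.exists_eq_add_of_le hlk
    have h1 : z = w ^ c * u := by
      have : z * w ^ l = (w ^ c * u) * w ^ l := by
        rw [hkl]
        ring
      exact mul_right_cancel₀ (pow_ne_zero l hw) this
    rw [h1]
    exact h.isV_mul (h.isV_pow h.isV_w c) (isV_of_isU hu)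
  · right
    obtain ⟨c, rfl⟩ := Nat.exists_eq_add_of_lt hlk
    have hu0 := h.isU_ne hu
    have h1 : z⁻¹ = w ^ (c + 1) * u⁻¹ := by
      have : z * w ^ (c + 1) = u := by
        have h2 : (z * w ^ (c + 1)) * w ^ k = u * w ^ k := by
          rw [mul_comm u, ← hkl]
          ring
        exact mul_right_cancel₀ (pow_ne_zero k hw) h2
      rw [← this]
      field_simp
    rw [h1]
    exact h.isV_mul (h.isV_pow h.isV_w _) (isV_of_isU (h.isU_inv hu))

/-- the valuation ring -/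
def ring (h : Dbl φ ξ w) : ValuationSubring M where
  carrier := {z | IsV φ ξ w z}
  mul_mem' := fun hy hz => h.isV_mul hy hz
  one_mem' := by
    have := h.isV_poly 1
    rwa [map_one] at this
  add_mem' := fun hy hz => h.isV_add hy hz
  zero_mem' := by
    have := h.isV_poly 0
    rwa [map_zero] at this
  neg_mem' := fun hy => isV_neg hy
  mem_or_inv_mem' := h.valuation_ring

theorem mem_ring (h : Dbl φ ξ w) {z : M} : z ∈ h.ring ↔ IsV φ ξ w z := Iff.rfl

instance algebraRing (h : Dbl φ ξ w) : Algebra ℂ h.ring :=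
  ((algebraMap ℂ M).codRestrict h.ring.toSubring (fun c => by
    have := h.isV_poly (C c)
    rwa [aeval_C] at this)).toAlgebra

instance towerRing (h : Dbl φ ξ w) : IsScalarTower ℂ h.ring M :=
  IsScalarTower.of_algebraMap_eq fun _ => rfl

/-- the residue field -/
abbrev kap (h : Dbl φ ξ w) : Type := IsLocalRing.ResidueField h.ring

/-- the residue -/
def res (h : Dbl φ ξ w) (z : M) (hz : z ∈ h.ring) : h.kap := IsLocalRing.residue h.ring ⟨z, hz⟩

theorem res_zero (h : Dbl φ ξ w) (hz : (0 : M) ∈ h.ring) : h.res 0 hz = 0 := map_zero _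

theorem res_one (h : Dbl φ ξ w) (hz : (1 : M) ∈ h.ring) : h.res 1 hz = 1 := map_one _

theorem res_add (h : Dbl φ ξ w) {y z : M} (hy : y ∈ h.ring) (hz : z ∈ h.ring) :
    h.res (y + z) (add_mem hy hz) = h.res y hy + h.res z hz :=
  (IsLocalRing.residue h.ring).map_add ⟨y, hy⟩ ⟨z, hz⟩

theorem res_sub (h : Dbl φ ξ w) {y z : M} (hy : y ∈ h.ring) (hz : z ∈ h.ring) :
    h.res (y - z) (sub_mem hy hz) = h.res y hy - h.res z hz :=
  (IsLocalRing.residue h.ring).map_sub ⟨y, hy⟩ ⟨z, hz⟩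

theorem res_mul (h : Dbl φ ξ w) {y z : M} (hy : y ∈ h.ring) (hz : z ∈ h.ring) :
    h.res (y * z) (mul_mem hy hz) = h.res y hy * h.res z hz :=
  (IsLocalRing.residue h.ring).map_mul ⟨y, hy⟩ ⟨z, hz⟩

theorem poly_mem (h : Dbl φ ξ w) (A : MvPolynomial (Fin m) ℂ) : aeval ξ A ∈ h.ring := h.isV_poly A

theorem w_mem (h : Dbl φ ξ w) : w ∈ h.ring := h.isV_w

theorem xi_mem (h : Dbl φ ξ w) (i : Fin m) : ξ i ∈ h.ring := by
  have := h.poly_mem (X i)
  rwa [aeval_X] at this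

/-- an element with nonzero residue is a unit -/
theorem res_ne_of_isU (h : Dbl φ ξ w) {z : M} (hz : IsU φ ξ w z) :
    h.res z (isV_of_isU hz) ≠ 0 := by
  intro h0
  change IsLocalRing.residue h.ring ⟨z, isV_of_isU hz⟩ = 0 at h0
  rw [IsLocalRing.residue_eq_zero_iff, IsLocalRing.mem_maximalIdeal, mem_nonunits_iff] at h0
  apply h0
  have h1 := h.isU_ne hz
  refine IsUnit.of_mul_eq_one ⟨z⁻¹, isV_of_isU (h.isU_inv hz)⟩ ?_
  apply Subtype.ext
  exact mul_inv_cancel₀ h1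

theorem res_w (h : Dbl φ ξ w) (hw : w ∈ h.ring) : h.res w hw = 0 := by
  change IsLocalRing.residue h.ring ⟨w, hw⟩ = 0
  rw [IsLocalRing.residue_eq_zero_iff, IsLocalRing.mem_maximalIdeal, mem_nonunits_iff]
  intro hu
  obtain ⟨⟨y, hy⟩, hyw⟩ := hu.exists_right_inv
  have h1 : w * y = 1 := congrArg Subtype.val hyw
  obtain ⟨A, B, C, hC, hyC⟩ := hy
  have h2 : aeval ξ (C - B * φ) + aeval ξ (-A) * w = 0 := by
    rw [map_sub, map_mul, map_neg, ← h.eq]
    linear_combination (-aeval ξ C) * h1 + w * hyC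
  have h3 := (h.rel_zero h2).1
  exact hC ⟨B, by linear_combination h3⟩

theorem res_poly (h : Dbl φ ξ w) (A : MvPolynomial (Fin m) ℂ) :
    h.res (aeval ξ A) (h.poly_mem A) = 0 ↔ φ ∣ A := by
  constructor
  · intro h0
    by_contra hA
    exact h.res_ne_of_isU (z := aeval ξ A) ⟨A, 0, 1, hA, h.prime.not_dvd_one, by
      rw [map_one, map_zero, mul_one, zero_mul, add_zero]⟩ h0
  · rintro ⟨B, rfl⟩
    have h1 : aeval ξ (φ * B) = w * (w * aeval ξ B) := by
      rw [map_mul, ← h.eq]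
      ring
    have h2 : h.res (aeval ξ (φ * B)) (h.poly_mem _) =
        h.res (w * (w * aeval ξ B)) (mul_mem h.w_mem (mul_mem h.w_mem (h.poly_mem B))) := by
      congr 1
    rw [h2, h.res_mul h.w_mem (mul_mem h.w_mem (h.poly_mem B)), h.res_w, zero_mul]

/-- residues are quotients of polynomials -/
theorem res_repr (h : Dbl φ ξ w) {z : M} (hz : z ∈ h.ring) :
    ∃ A B C : MvPolynomial (Fin m) ℂ, ¬ φ ∣ C ∧ z * aeval ξ C = aeval ξ A + aeval ξ B * w ∧
      h.res z hz * h.res (aeval ξ C) (h.poly_mem C) = h.res (aeval ξ A) (h.poly_mem A) := by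
  obtain ⟨A, B, C, hC, hzC⟩ := hz
  refine ⟨A, B, C, hC, hzC, ?_⟩
  have hz' : z ∈ h.ring := ⟨A, B, C, hC, hzC⟩
  rw [← h.res_mul hz' (h.poly_mem C)]
  have h2 : h.res (z * aeval ξ C) (mul_mem hz' (h.poly_mem C)) =
      h.res (aeval ξ A + aeval ξ B * w)
        (add_mem (h.poly_mem A) (mul_mem (h.poly_mem B) h.w_mem)) := by
    congr 1
  rw [h2, h.res_add (h.poly_mem A) (mul_mem (h.poly_mem B) h.w_mem),
    h.res_mul (h.poly_mem B) h.w_mem, h.res_w, mul_zero, add_zero]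

/-- elements with residue zero are multiples of `w` -/
theorem eq_mul_w (h : Dbl φ ξ w) {z : M} (hz : z ∈ h.ring) (h0 : h.res z hz = 0) :
    ∃ y ∈ h.ring, z = w * y := by
  obtain ⟨A, B, C, hC, hzC, hr⟩ := h.res_repr hz
  rw [h0, zero_mul] at hr
  obtain ⟨A', rfl⟩ := (h.res_poly A).1 hr.symm
  have hC0 := h.ne' hC
  refine ⟨(aeval ξ B + aeval ξ A' * w) / aeval ξ C, ⟨B, A', C, hC, ?_⟩, ?_⟩
  · field_simp
  · rw [map_mul, ← h.eq] at hzC
    field_simp
    linear_combination hzC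

/-- nonzero elements of the ring are powers of `w` times units -/
theorem eq_pow_mul (h : Dbl φ ξ w) {z : M} (hz : z ∈ h.ring) (h0 : z ≠ 0) :
    ∃ (a : ℕ) (u : M), IsU φ ξ w u ∧ z = w ^ a * u := by
  obtain ⟨k, l, u, hu, hkl⟩ := h.normal h0
  have hw := h.w_ne
  rcases le_or_gt l k with hlk | hlk
  · obtain ⟨c, rfl⟩ := Nat.exists_eq_add_of_le hlk
    refine ⟨c, u, hu, ?_⟩
    have : z * w ^ l = (w ^ c * u) * w ^ l := by
      rw [hkl]
      ring
    exact mul_right_cancel₀ (pow_ne_zero l hw) this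
  · exfalso
    obtain ⟨c, rfl⟩ := Nat.exists_eq_add_of_lt hlk
    have h1 : w * (w ^ c * z) = u := by
      have h2 : (w * (w ^ c * z)) * w ^ k = u * w ^ k := by
        rw [mul_comm u, ← hkl]
        ring
      exact mul_right_cancel₀ (pow_ne_zero k hw) h2
    apply h.res_ne_of_isU hu
    have h3 : h.res u (isV_of_isU hu) = h.res (w * (w ^ c * z))
        (mul_mem h.w_mem (mul_mem (pow_mem h.w_mem c) hz)) := by
      congr 1
      exact h1.symm
    rw [h3, h.res_mul h.w_mem (mul_mem (pow_mem h.w_mem c) hz), h.res_w, zero_mul]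

end Dbl

end

end Pool.Agent.H764QD
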