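import Mathlib
import Pool.Agent.H764QD.Val
import Pool.Agent.TH314.PD.Core

/-!
Derivations and the residue field of the ramification divisor.
-/

set_option autoImplicit false

namespace Pool.Agent.H764QD

open MvPolynomial

noncomputable section

variable {m : ℕ} {M : Type} [Field M] [Algebra ℂ M] {φ : MvPolynomial (Fin m) ℂ} {ξ : Fin m → M}
  {w : M}

namespace Dbl

theorem aeval_mem (h : Dbl φ ξ w) {k : ℕ} (y : Fin k → M) (hy : ∀ i, y i ∈ h.ring)
    (A : MvPolynomial (Fin k) ℂ) : aeval y A ∈ h.ring := by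
  induction A using MvPolynomial.induction_on with
  | C a =>
    have := h.poly_mem (C a)
    rw [aeval_C] at this ⊢
    exact this
  | add p q hp hq =>
    rw [map_add]
    exact add_mem hp hq
  | mul_X p i hp =>
    rw [map_mul, aeval_X]
    exact mul_mem hp (hy i)

theorem aeval_res (h : Dbl φ ξ w) {k : ℕ} (y : Fin k → M) (hy : ∀ i, y i ∈ h.ring)
    (A : MvPolynomial (Fin k) ℂ) : aeval (fun i => h.res (y i) (hy i)) A =
      h.res (aeval y A) (h.aeval_mem y hy A) := by
  induction A using MvPolynomial.induction_on with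
  | C a =>
    have h1 : h.res (aeval y (C a)) (h.aeval_mem y hy (C a)) =
        IsLocalRing.residue h.ring (algebraMap ℂ h.ring a) := by
      unfold res
      congr 1
      apply Subtype.ext
      exact aeval_C _ _
    rw [h1, aeval_C]
    rfl
  | add p q hp hq =>
    have h1 : h.res (aeval y (p + q)) (h.aeval_mem y hy (p + q)) =
        h.res (aeval y p + aeval y q) (add_mem (h.aeval_mem y hy p) (h.aeval_mem y hy q)) := by
      congr 1
      exact map_add _ _ _
    rw [h1, h.res_add (h.aeval_mem y hy p) (h.aeval_mem y hy q), map_add, hp, hq]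
  | mul_X p i hp =>
    have h1 : h.res (aeval y (p * X i)) (h.aeval_mem y hy (p * X i)) =
        h.res (aeval y p * y i) (mul_mem (h.aeval_mem y hy p) (hy i)) := by
      congr 1
      rw [map_mul, aeval_X]
    rw [h1, h.res_mul (h.aeval_mem y hy p) (hy i), map_mul, aeval_X, hp]

/-- the residues of the coordinates -/
def xib (h : Dbl φ ξ w) (i : Fin m) : h.kap := h.res (ξ i) (h.xi_mem i)

theorem aeval_xib (h : Dbl φ ξ w) (A : MvPolynomial (Fin m) ℂ) :
    aeval h.xib A = h.res (aeval ξ A) (h.poly_mem A) := h.aeval_res ξ h.xi_mem A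

theorem aeval_xib_zero (h : Dbl φ ξ w) (A : MvPolynomial (Fin m) ℂ) :
    aeval h.xib A = 0 ↔ φ ∣ A := by
  rw [h.aeval_xib, h.res_poly]

theorem exists_res (h : Dbl φ ξ w) (y : h.kap) : ∃ (z : M) (hz : z ∈ h.ring), y = h.res z hz := by
  obtain ⟨z, hz⟩ := IsLocalRing.residue_surjective y
  exact ⟨z.1, z.2, hz.symm⟩

/-- the residue field is generated by the residues of the coordinates -/
theorem kap_repr (h : Dbl φ ξ w) (y : h.kap) : ∃ A C : MvPolynomial (Fin m) ℂ,
    aeval h.xib C ≠ 0 ∧ y = aeval h.xib A / aeval h.xib C := by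
  obtain ⟨z, hz, rfl⟩ := h.exists_res y
  obtain ⟨A, B, C, hC, hzC, hr⟩ := h.res_repr hz
  have hC0 : aeval h.xib C ≠ 0 := fun h0 => hC ((h.aeval_xib_zero C).1 h0)
  refine ⟨A, C, hC0, ?_⟩
  rw [eq_div_iff hC0, h.aeval_xib, h.aeval_xib]
  exact hr

theorem kap_top (h : Dbl φ ξ w) : IntermediateField.adjoin ℂ (Set.range h.xib) = ⊤ := by
  rw [eq_top_iff]
  rintro y -
  have hP : ∀ A : MvPolynomial (Fin m) ℂ,
      aeval h.xib A ∈ IntermediateField.adjoin ℂ (Set.range h.xib) := by
    intro A
    induction A using MvPolynomial.induction_on with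
    | C a =>
      rw [aeval_C]
      exact IntermediateField.algebraMap_mem _ _
    | add p q hp hq =>
      rw [map_add]
      exact add_mem hp hq
    | mul_X p i hp =>
      rw [map_mul, aeval_X]
      exact mul_mem hp (IntermediateField.subset_adjoin _ _ ⟨i, rfl⟩)
  obtain ⟨A, C, hC, rfl⟩ := h.kap_repr y
  exact div_mem (hP A) (hP C)

theorem inv_mem_of (h : Dbl φ ξ w) {z : M} (hz : IsU φ ξ w z) : z⁻¹ ∈ h.ring :=
  isV_of_isU (h.isU_inv hz)

theorem isU_poly (h : Dbl φ ξ w) {C : MvPolynomial (Fin m) ℂ} (hC : ¬ φ ∣ C) :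
    IsU φ ξ w (aeval ξ C) :=
  ⟨C, 0, 1, hC, h.prime.not_dvd_one, by rw [map_one, map_zero, mul_one, zero_mul, add_zero]⟩

/-- a derivation which is integral on the coordinates is integral on polynomials -/
theorem der_poly_mem (h : Dbl φ ξ w) (D : Derivation ℂ M M) (hξ : ∀ i, D (ξ i) ∈ h.ring)
    (A : MvPolynomial (Fin m) ℂ) : D (aeval ξ A) ∈ h.ring := by
  classical
  rw [TH314.PD.chain_rule D ξ A]
  exact sum_mem fun i _ => mul_mem (h.poly_mem _) (hξ i)

/-- a derivation which is integral on the coordinates and on `w` is integral -/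
theorem der_mem (h : Dbl φ ξ w) (D : Derivation ℂ M M) (hξ : ∀ i, D (ξ i) ∈ h.ring)
    (hw : D w ∈ h.ring) {z : M} (hz : z ∈ h.ring) : D z ∈ h.ring := by
  have hz' := hz
  obtain ⟨A, B, C, hC, hzC⟩ := hz'
  have h1 := congrArg D hzC
  rw [Derivation.leibniz, map_add, Derivation.leibniz, smul_eq_mul, smul_eq_mul, smul_eq_mul,
    smul_eq_mul] at h1
  have h2 : D z = (D (aeval ξ A) + (aeval ξ B * D w + w * D (aeval ξ B)) - z * D (aeval ξ C)) *
      (aeval ξ C)⁻¹ := by
    rw [← h1]
    have hC0 := h.ne' hC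
    field_simp
    ring
  rw [h2]
  exact mul_mem (sub_mem (add_mem (h.der_poly_mem D hξ A) (add_mem
    (mul_mem (h.poly_mem B) hw) (mul_mem h.w_mem (h.der_poly_mem D hξ B))))
    (mul_mem hz (h.der_poly_mem D hξ C))) (h.inv_mem_of (h.isU_poly hC))

/-- reduction of an integral derivation -/
def resDer (h : Dbl φ ξ w) (D : Derivation ℂ M M) (hD : ∀ z ∈ h.ring, D z ∈ h.ring) :
    Derivation ℂ h.ring h.kap :=
  Derivation.mk' (R := ℂ) (A := h.ring) (M := h.kap)
    { toFun := fun z => h.res (D z) (hD z z.2)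
      map_add' := by
        intro y z
        rw [← h.res_add (hD y y.2) (hD z z.2)]
        congr 1
        exact map_add D _ _
      map_smul' := by
        intro c z
        have h1 : D ((c • z : h.ring) : M) = algebraMap ℂ M c * D z := by
          have h2 : ((c • z : h.ring) : M) = c • (z : M) := by
            rw [Algebra.smul_def, Algebra.smul_def]
            rfl
          rw [h2, D.map_smul, Algebra.smul_def]
        have hc : algebraMap ℂ M c ∈ h.ring := by
          have := h.poly_mem (C c)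
          rwa [aeval_C] at this
        have h3 : h.res (D ((c • z : h.ring) : M)) (hD _ (c • z).2) =
            h.res (algebraMap ℂ M c * D z) (mul_mem hc (hD z z.2)) := by
          congr 1
        rw [h3, h.res_mul hc (hD z z.2), RingHom.id_apply, Algebra.smul_def]
        rfl }
    (by
      intro y z
      change h.res (D ((y * z : h.ring) : M)) _ = y • h.res (D z) (hD z z.2) +
        z • h.res (D y) (hD y y.2)
      have h1 : h.res (D ((y * z : h.ring) : M)) (hD _ (y * z).2) =
          h.res ((y : M) * D z + (z : M) * D y)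
            (add_mem (mul_mem y.2 (hD z z.2)) (mul_mem z.2 (hD y y.2))) := by
        congr 1
        exact D.leibniz _ _
      rw [h1, h.res_add (mul_mem y.2 (hD z z.2)) (mul_mem z.2 (hD y y.2)),
        h.res_mul y.2 (hD z z.2), h.res_mul z.2 (hD y y.2), Algebra.smul_def, Algebra.smul_def]
      rfl)

theorem resDer_apply (h : Dbl φ ξ w) (D : Derivation ℂ M M) (hD : ∀ z ∈ h.ring, D z ∈ h.ring)
    {z : M} (hz : z ∈ h.ring) : h.resDer D hD ⟨z, hz⟩ = h.res (D z) (hD z hz) := rfl

/-- a derivation of the ring which kills `w` descends to the residue field -/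
theorem descend (h : Dbl φ ξ w) (d : Derivation ℂ h.ring h.kap) (hd : d ⟨w, h.w_mem⟩ = 0) :
    ∃ δ : Derivation ℂ h.kap h.kap, ∀ (z : M) (hz : z ∈ h.ring), δ (h.res z hz) = d ⟨z, hz⟩ := by
  have hker : ∀ z : h.ring, IsLocalRing.residue h.ring z = 0 → d z = 0 := by
    intro z hz
    obtain ⟨y, hy, hzy⟩ := h.eq_mul_w z.2 hz
    have h1 : z = ⟨w, h.w_mem⟩ * ⟨y, hy⟩ := Subtype.ext hzy
    rw [h1, d.leibniz, hd, smul_zero, add_zero, Algebra.smul_def]
    have h2 : algebraMap h.ring h.kap ⟨w, h.w_mem⟩ = 0 := h.res_w h.w_mem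
    rw [h2, zero_mul]
  have hwd : ∀ y z : h.ring, IsLocalRing.residue h.ring y = IsLocalRing.residue h.ring z →
      d y = d z := by
    intro y z hyz
    have h1 := hker (y - z) (by rw [map_sub, hyz, sub_self])
    rw [map_sub] at h1
    exact sub_eq_zero.1 h1
  let s : h.kap → h.ring := Function.surjInv (IsLocalRing.residue_surjective (R := h.ring))
  have hs : ∀ y, IsLocalRing.residue h.ring (s y) = y := Function.surjInv_eq _
  have key : ∀ z : h.ring, d (s (IsLocalRing.residue h.ring z)) = d z := fun z =>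
    hwd _ _ (hs _)
  refine ⟨Derivation.mk' (R := ℂ) (A := h.kap) (M := h.kap)
    { toFun := fun y => d (s y)
      map_add' := by
        intro y z
        rw [← map_add]
        apply hwd
        rw [hs, map_add, hs, hs]
      map_smul' := by
        intro c y
        rw [RingHom.id_apply, ← d.map_smul]
        apply hwd
        rw [hs, Algebra.smul_def, Algebra.smul_def, map_mul, hs]
        rfl }
    ?_, ?_⟩
  · intro y z
    change d (s (y * z)) = y • d (s z) + z • d (s y)
    have h1 : d (s (y * z)) = d (s y * s z) := by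
      apply hwd
      rw [hs, map_mul, hs, hs]
    rw [h1, d.leibniz, Algebra.smul_def, Algebra.smul_def, smul_eq_mul, smul_eq_mul]
    have h2 : ∀ y : h.kap, algebraMap h.ring h.kap (s y) = y := hs
    rw [h2, h2]
  · intro z hz
    exact key ⟨z, hz⟩

end Dbl

end

end Pool.Agent.H764QD
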