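import Mathlib
import Pool.Agent.Y201.C3.Glue
import Pool.Agent.H764QD.Der

/-!
Dehomogenisation of forms; derivations and lines.
-/

set_option autoImplicit false

namespace Pool.Agent.H764QD

open MvPolynomial Pool.Agent.TH314.PD Pool.Agent.Y201.C3

noncomputable section

/-- dehomogenisation -/
def deh (m : ℕ) : MvPolynomial (Fin (m + 1)) ℂ →ₐ[ℂ] MvPolynomial (Fin m) ℂ :=
  aeval (Fin.cons 1 X : Fin (m + 1) → MvPolynomial (Fin m) ℂ)

theorem aeval_deh {m : ℕ} {R : Type} [CommRing R] [Algebra ℂ R] (u : Fin m → R)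
    (H : MvPolynomial (Fin (m + 1)) ℂ) :
    aeval u (deh m H) = aeval (Fin.cons 1 u : Fin (m + 1) → R) H := by
  have h1 : (aeval u).comp (deh m) = aeval (Fin.cons 1 u : Fin (m + 1) → R) := by
    apply algHom_ext
    intro i
    rw [AlgHom.comp_apply, deh, aeval_X, aeval_X]
    refine Fin.cases ?_ (fun l => ?_) i
    · rw [Fin.cons_zero, Fin.cons_zero, map_one]
    · rw [Fin.cons_succ, Fin.cons_succ, aeval_X]
  rw [← h1]
  rfl

theorem deh_X_zero {m : ℕ} : deh m (X 0) = 1 := by
  rw [deh, aeval_X, Fin.cons_zero]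

theorem hom_exists {m : ℕ} (A : MvPolynomial (Fin m) ℂ) : ∃ A' : MvPolynomial (Fin (m + 1)) ℂ,
    A'.IsHomogeneous A.totalDegree ∧ deh m A' = A := by
  obtain ⟨A', h1, h2⟩ := homogenize A
  refine ⟨A', h1, ?_⟩
  rw [deh, h2, aeval_X_left_apply]

variable {m d : ℕ} {f : MvPolynomial (Fin (m + 1)) ℂ}

/-- divisibility can be tested on the chart -/
theorem dvd_of_deh (hf : f.IsHomogeneous d) (hd : 1 < d) (hp : Prime f) {e : ℕ}
    {H : MvPolynomial (Fin (m + 1)) ℂ} (hH : H.IsHomogeneous e) (h : deh m f ∣ deh m H) :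
    f ∣ H := by
  obtain ⟨C', hC'⟩ := h
  obtain ⟨C, hC, hCC⟩ := hom_exists C'
  rw [← hCC] at hC'
  set c := C'.totalDegree with hc
  have hX : ¬ f ∣ X 0 := by
    intro h1
    exact X_ne_zero _ (eq_zero_of_dvd hf hp.ne_zero (isHomogeneous_X ℂ (0 : Fin (m + 1))) hd h1)
  have h1 : X 0 ^ (d + c) * H = X 0 ^ e * (f * C) := by
    have h2 : (X 0 ^ (d + c) * H - X 0 ^ e * (f * C)).IsHomogeneous (d + c + e) := by
      refine IsHomogeneous.sub ?_ ?_
      · have := ((isHomogeneous_X ℂ (0 : Fin (m + 1))).pow (d + c)).mul hH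
        rwa [one_mul] at this
      · have := ((isHomogeneous_X ℂ (0 : Fin (m + 1))).pow e).mul (hf.mul hC)
        rwa [one_mul, show e + (d + c) = d + c + e by omega] at this
    refine sub_eq_zero.1 (generic_zero _ h2 ?_)
    change deh m _ = 0
    rw [map_sub, map_mul, map_mul, map_mul, map_pow, map_pow, deh_X_zero, one_pow, one_pow,
      one_mul, one_mul, hC', sub_self]
  have h2 : f ∣ X 0 ^ (d + c) * H := ⟨X 0 ^ e * C, by rw [h1]; ring⟩
  rcases hp.dvd_or_dvd h2 with h3 | h3
  · exact absurd (hp.dvd_of_dvd_pow h3) hX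
  · exact h3

theorem deh_prime (hf : f.IsHomogeneous d) (hd : 1 < d) (hp : Prime f) : Prime (deh m f) := by
  refine ⟨?_, ?_, ?_⟩
  · intro h0
    exact hp.ne_zero (generic_zero f hf h0)
  · intro hu
    have h1 : deh m f ∣ deh m 1 := by
      rw [map_one]
      exact hu.dvd
    exact hp.not_dvd_one (dvd_of_deh hf hd hp (isHomogeneous_one _ _) h1)
  · intro A B hAB
    obtain ⟨A', hA', hA⟩ := hom_exists A
    obtain ⟨B', hB', hB⟩ := hom_exists B
    rw [← hA, ← hB, ← map_mul] at hAB
    rcases hp.dvd_or_dvd (dvd_of_deh hf hd hp (hA'.mul hB') hAB) with h | h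
    · left
      rw [← hA]
      exact map_dvd _ h
    · right
      rw [← hB]
      exact map_dvd _ h

/-- the constants of a derivation -/
def consts {κ : Type} [Field κ] [Algebra ℂ κ] (δ : Derivation ℂ κ κ) : IntermediateField ℂ κ where
  carrier := {z | δ z = 0}
  mul_mem' := by
    intro a b ha hb
    change δ (a * b) = 0
    rw [Derivation.leibniz]
    change δ a = 0 at ha
    change δ b = 0 at hb
    rw [ha, hb, smul_zero, smul_zero, add_zero]
  add_mem' := by
    intro a b ha hb
    change δ (a + b) = 0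
    change δ a = 0 at ha
    change δ b = 0 at hb
    rw [map_add, ha, hb, add_zero]
  algebraMap_mem' := fun c => δ.map_algebraMap c
  inv_mem' := by
    intro a ha
    change δ a⁻¹ = 0
    change δ a = 0 at ha
    rw [Derivation.leibniz_inv, ha, smul_zero]

theorem mem_consts {κ : Type} [Field κ] [Algebra ℂ κ] {δ : Derivation ℂ κ κ} {z : κ} :
    z ∈ consts δ ↔ δ z = 0 := Iff.rfl

/-- an element which is not a constant is transcendental over the constants -/
theorem transcendental_consts {κ : Type} [Field κ] [Algebra ℂ κ] (δ : Derivation ℂ κ κ) {t : κ}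
    (ht : δ t ≠ 0) : Transcendental (consts δ) t := by
  intro halg
  have hchar : CharZero κ := charZero_of_injective_algebraMap (algebraMap ℂ κ).injective
  let L := consts δ
  let δL : Derivation L κ κ := Derivation.mk' (R := L) (A := κ) (M := κ)
    { toFun := fun z => δ z
      map_add' := fun a b => map_add δ a b
      map_smul' := by
        intro c z
        have h1 : δ (c : κ) = 0 := c.2
        have h2 : c • z = (c : κ) * z := Algebra.smul_def c z
        have h3 : c • δ z = (c : κ) * δ z := Algebra.smul_def c (δ z)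
        rw [RingHom.id_apply, h3, h2, Derivation.leibniz, h1, smul_zero, add_zero, smul_eq_mul] }
    (fun a b => δ.leibniz a b)
  have hint : IsIntegral L t := halg.isIntegral
  have h1 := δL.map_aeval (minpoly L t) t
  rw [minpoly.aeval, map_zero, smul_eq_mul] at h1
  rcases mul_eq_zero.1 h1.symm with h2 | h2
  · have h3 : Polynomial.derivative (minpoly L t) ≠ 0 := by
      intro h4
      have h5 := Polynomial.derivative_eq_zero.1 h4
      have h6 := minpoly.natDegree_pos hint
      omega
    have h4 := Polynomial.natDegree_le_natDegree (minpoly.degree_le_of_ne_zero L t h3 h2)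
    have h5 := Polynomial.natDegree_derivative_lt (minpoly.natDegree_pos hint).ne'
    omega
  · exact ht h2

/-- **A derivation which moves a point along a line.** -/
theorem line_of_der {κ : Type} [Field κ] [Algebra ℂ κ] (δ : Derivation ℂ κ κ) {r : ℕ}
    (x c : Fin r → κ) (e : κ) (hx : ∀ i, δ (x i) = c i - e * x i) (hc : ∀ i, δ (c i) = 0)
    (he : δ e = 0) (hne : ∃ i, δ (x i) ≠ 0) :
    ∃ (L : IntermediateField ℂ κ) (t : κ) (u v : Fin r → κ), Transcendental L t ∧
      (∀ i, u i ∈ L) ∧ (∀ i, v i ∈ L) ∧ ∀ i, x i = t * u i + v i := by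
  obtain ⟨i0, hi0⟩ := hne
  by_cases he0 : e = 0
  · have hx' : ∀ i, δ (x i) = c i := fun i => by rw [hx, he0, zero_mul, sub_zero]
    have hc0 : c i0 ≠ 0 := by rwa [← hx']
    have hl : ∀ i, c i / c i0 ∈ consts δ := fun i =>
      div_mem (mem_consts.2 (hc i)) (mem_consts.2 (hc i0))
    refine ⟨consts δ, x i0, fun i => c i / c i0, fun i => x i - c i / c i0 * x i0,
      transcendental_consts δ hi0, hl, fun i => ?_, fun i => by ring⟩
    rw [mem_consts, map_sub, Derivation.leibniz, mem_consts.1 (hl i), smul_zero, add_zero,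
      smul_eq_mul, hx', hx']
    field_simp
    ring
  · have hce : ∀ i, c i / e ∈ consts δ := fun i =>
      div_mem (mem_consts.2 (hc i)) (mem_consts.2 he)
    have hu : ∀ i, δ (x i - c i / e) = -e * (x i - c i / e) := by
      intro i
      rw [map_sub, mem_consts.1 (hce i), sub_zero, hx]
      field_simp
      ring
    have hu0 : x i0 - c i0 / e ≠ 0 := by
      intro h0
      have h1 := hu i0
      rw [map_sub, mem_consts.1 (hce i0), sub_zero, h0, mul_zero] at h1
      exact hi0 h1
    have hδu : δ (x i0 - c i0 / e) ≠ 0 := by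
      rw [hu]
      exact mul_ne_zero (neg_ne_zero.2 he0) hu0
    refine ⟨consts δ, x i0 - c i0 / e, fun i => (x i - c i / e) / (x i0 - c i0 / e),
      fun i => c i / e, transcendental_consts δ hδu, fun i => ?_, hce, fun i => ?_⟩
    · rw [mem_consts, Derivation.leibniz_div, hu, hu]
      simp only [smul_eq_mul]
      ring
    · rw [mul_div_cancel₀ _ hu0]
      ring

end

end Pool.Agent.H764QD
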