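import Mathlib
import Pool.Agent.Y201.LI.Thm3

/-!
Closed points of the polar hypersurface of the generic point of projective space.
-/

set_option autoImplicit false

namespace Pool.Agent.H764QD

open MvPolynomial Pool.Agent.TH314.PD IntermediateField Module Pool.Agent.Y201.LI
  Pool.Agent.Y929.LI

noncomputable section

/-- the degree of the field over the field of the ratios does not change when an algebraically
independent element is adjoined -/
theorem finrank_cone {r : ℕ} {E Ω : Type} [Field E] [Field Ω] [Algebra ℂ E] [Algebra E Ω]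
    [Algebra ℂ Ω] [IsScalarTower ℂ E Ω] (x : Fin r → E) (j : Fin r) (hj : x j = 1)
    (hfin : FiniteDimensional (ratioField x) E) (γ : Ω)
    (hγ : AlgebraicIndependent E (fun _ : Unit => γ))
    (htop : adjoin E (Set.range fun _ : Unit => γ) = ⊤) :
    FiniteDimensional (adjoin ℂ (Set.range fun i => γ * algebraMap E Ω (x i))) Ω ∧
    finrank (adjoin ℂ (Set.range fun i => γ * algebraMap E Ω (x i))) Ω =
      finrank (ratioField x) E := by
  obtain ⟨h1, h2⟩ := Pool.Agent.Y220.LI.ext (ratioField x) E Ω Unit (fun _ => γ) hγ htop
  set a : Fin r → Ω := fun i => γ * algebraMap E Ω (x i) with ha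
  have hγ0 : γ ≠ 0 := hγ.ne_zero ()
  have hg : γ ∈ adjoin ℂ (Set.range a) := by
    have : a j = γ := by rw [ha]; simp only [hj, map_one, mul_one]
    rw [← this]
    exact subset_adjoin _ _ ⟨j, rfl⟩
  have hxi : ∀ i, algebraMap E Ω (x i) ∈ adjoin ℂ (Set.range a) := by
    intro i
    have h1 : algebraMap E Ω (x i) = a i / γ := by
      rw [ha]
      field_simp
    rw [h1]
    exact div_mem (subset_adjoin _ _ ⟨i, rfl⟩) hg
  have hR : ∀ z : ratioField x, algebraMap E Ω (z : E) ∈ adjoin ℂ (Set.range a) := by
    intro z
    have hz : (z : E) ∈ ratioField x := z.2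
    generalize (z : E) = y at hz
    unfold ratioField at hz
    induction hz using IntermediateField.adjoin_induction with
    | mem y hy =>
      obtain ⟨i, k, rfl⟩ := hy
      rw [map_div₀]
      exact div_mem (hxi i) (hxi k)
    | algebraMap c =>
      rw [← IsScalarTower.algebraMap_apply]
      exact IntermediateField.algebraMap_mem _ _
    | add a b _ _ ha hb =>
      rw [map_add]
      exact add_mem ha hb
    | inv a _ ha =>
      rw [map_inv₀]
      exact inv_mem ha
    | mul a b _ _ ha hb =>
      rw [map_mul]
      exact mul_mem ha hb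
  have hmem : ∀ z : Ω, z ∈ (adjoin (ratioField x) (Set.range fun _ : Unit => γ) :
      IntermediateField (ratioField x) Ω) ↔ z ∈ adjoin ℂ (Set.range a) := by
    intro z
    constructor
    · intro hz
      induction hz using IntermediateField.adjoin_induction with
      | mem y hy =>
        obtain ⟨i, rfl⟩ := hy
        exact hg
      | algebraMap c => exact hR c
      | add a b _ _ ha hb => exact add_mem ha hb
      | inv a _ ha => exact inv_mem ha
      | mul a b _ _ ha hb => exact mul_mem ha hb
    · intro hz
      have hγm : γ ∈ (adjoin (ratioField x) (Set.range fun _ : Unit => γ) :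
          IntermediateField (ratioField x) Ω) := subset_adjoin _ _ ⟨(), rfl⟩
      induction hz using IntermediateField.adjoin_induction with
      | mem y hy =>
        obtain ⟨i, rfl⟩ := hy
        have h1 : x i ∈ ratioField x := by
          have : x i = x i / x j := by rw [hj, div_one]
          rw [this]
          exact subset_adjoin _ _ ⟨i, j, rfl⟩
        exact mul_mem hγm (IntermediateField.algebraMap_mem
          (adjoin (ratioField x) (Set.range fun _ : Unit => γ)) (⟨x i, h1⟩ : ratioField x))
      | algebraMap c =>
        have h1 : algebraMap ℂ Ω c =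
            algebraMap (ratioField x) Ω (algebraMap ℂ (ratioField x) c) := by
          rw [← IsScalarTower.algebraMap_apply]
        rw [h1]
        exact IntermediateField.algebraMap_mem _ _
      | add a b _ _ ha hb => exact add_mem ha hb
      | inv a _ ha => exact inv_mem ha
      | mul a b _ _ ha hb => exact mul_mem ha hb
  have hsame := finrank_same (A := (adjoin (ratioField x) (Set.range fun _ : Unit => γ) :
      IntermediateField (ratioField x) Ω)) (B := adjoin ℂ (Set.range a)) (Ω := Ω) (by
      intro z
      constructor
      · rintro ⟨a, rfl⟩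
        exact ⟨⟨(a : Ω), (hmem a).1 a.2⟩, rfl⟩
      · rintro ⟨a, rfl⟩
        exact ⟨⟨(a : Ω), (hmem a).2 a.2⟩, rfl⟩)
  exact ⟨hsame.1.1 h1, by rw [← hsame.2, h2]⟩

/-- **The polar hypersurface of the generic point.** Its points over finite extensions of the field of
the generic point have degrees divisible by `d - 1`. -/
theorem polar_index {r d : ℕ} {F : MvPolynomial (Fin r) ℂ} (hF : F.IsHomogeneous d)
    (hsm : ∀ z : Fin r → ℂ, (∀ i, eval z (pderiv i F) = 0) → z = 0)
    {E : Type} [Field E] [Algebra ℂ E] (x : Fin r → E)
    (hx : ∀ (e : ℕ) (H : MvPolynomial (Fin r) ℂ), H.IsHomogeneous e → aeval x H = 0 → H = 0)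
    (y : Fin r → E) (hy : y ≠ 0) (h : ∑ i, x i * aeval y (pderiv i F) = 0) :
    d - 1 ∣ finrank (ratioField x) E := by
  by_cases hfin : FiniteDimensional (ratioField x) E
  swap
  · rw [Module.finrank_of_not_finite hfin]
    exact dvd_zero _
  obtain ⟨j, -⟩ : ∃ j, y j ≠ 0 := by
    by_contra hcon
    push Not at hcon
    exact hy (funext hcon)
  have hj : x j ≠ 0 := by
    intro h0
    exact X_ne_zero j (hx 1 (X j) (isHomogeneous_X ℂ j) (by rw [aeval_X, h0]))
  let x' : Fin r → E := fun i => x i / x j
  have hrat : ratioField x' = ratioField x := ratioField_div _ hj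
  have hx' : ∀ (e : ℕ) (H : MvPolynomial (Fin r) ℂ), H.IsHomogeneous e → aeval x' H = 0 →
      H = 0 := fun e H hH h3 => hx e H hH ((aeval_div _ hj hH).1 h3)
  have hxj : x' j = 1 := div_self hj
  rw [← hrat] at hfin ⊢
  let Ω := FractionRing (Polynomial E)
  let γ : Ω := algebraMap (Polynomial E) Ω Polynomial.X
  have hγ : AlgebraicIndependent E (fun _ : Unit => γ) := by
    rw [algebraicIndependent_unique_type_iff]
    exact (transcendental_algebraMap_iff (IsFractionRing.injective (Polynomial E) Ω)).2
      (Polynomial.transcendental_X E)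
  have htop : adjoin E (Set.range fun _ : Unit => γ) = ⊤ := by
    rw [eq_top_iff]
    rintro z -
    have hP : ∀ q : Polynomial E, algebraMap (Polynomial E) Ω q ∈
        adjoin E (Set.range fun _ : Unit => γ) := by
      intro q
      induction q using Polynomial.induction_on' with
      | add p q hp hq =>
        rw [map_add]
        exact add_mem hp hq
      | monomial n a =>
        rw [← Polynomial.C_mul_X_pow_eq_monomial, map_mul, map_pow]
        have hγm : γ ∈ adjoin E (Set.range fun _ : Unit => γ) := subset_adjoin _ _ ⟨(), rfl⟩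
        refine mul_mem ?_ (pow_mem hγm _)
        exact IntermediateField.algebraMap_mem _ a
    obtain ⟨a, b, -, hz⟩ := IsFractionRing.div_surjective (A := Polynomial E) z
    rw [← hz]
    exact div_mem (hP a) (hP b)
  obtain ⟨hfd, hrk⟩ := finrank_cone x' j hxj hfin γ hγ htop
  set a : Fin r → Ω := fun i => γ * algebraMap E Ω (x' i) with ha
  have hind : AlgebraicIndependent ℂ a := by
    rw [algebraicIndependent_iff]
    intro p hp
    have h1 : aeval a p = algebraMap (Polynomial E) Ω
        (aeval (fun i => Polynomial.X * Polynomial.C (x' i) : Fin r → Polynomial E) p) := by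
      rw [← aeval_algebraMap_apply]
      congr 1
      congr 1
      funext i
      change a i = algebraMap (Polynomial E) Ω (Polynomial.X * Polynomial.C (x' i))
      rw [map_mul]
      rfl
    rw [hp] at h1
    have h2 : aeval (fun i => Polynomial.X * Polynomial.C (x' i) : Fin r → Polynomial E) p = 0 :=
      IsFractionRing.injective (Polynomial E) Ω (by rw [← h1, map_zero])
    rw [← sum_homogeneousComponent p]
    exact Finset.sum_eq_zero fun k _ =>
      hx' k _ (homogeneousComponent_isHomogeneous k p) (comp_zero x' p h2 k)
  obtain ⟨a', ha', hind', htop'⟩ := Pool.Agent.Y710.LI.lift_family a hind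
  rw [← hrk]
  refine hone ℂ r (d - 1) r ∅ (fun i => pderiv i F) (fun G hG => absurd hG (Set.notMem_empty G))
    (fun i => hF.pderiv) (Pool.Agent.Y394.LI.bpf r F hsm d hF) Empty
    (adjoin ℂ (Set.range a)) Ω a' (fun i => i.elim) ?_ ?_ (fun i => algebraMap E Ω (y i)) ?_
    (fun G hG => absurd hG (Set.notMem_empty G)) ?_
  · have h1 := hind'.comp (fun i : Fin r ⊕ Empty => i.elim id Empty.elim) (by
      rintro (i | i) (j | j) h
      · exact congrArg _ h
      · exact j.elim
      · exact i.elim
      · exact i.elim)
    convert h1 using 1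
    funext i
    rcases i with i | i
    · rfl
    · exact i.elim
  · rw [← htop']
    congr 1
    rw [Set.union_eq_left]
    rintro _ ⟨i, _⟩
    exact i.elim
  · intro h0
    apply hy
    funext i
    exact (algebraMap E Ω).injective ((congrFun h0 i).trans (map_zero _).symm)
  · have hev : ∀ i, eval₂ ((algebraMap (adjoin ℂ (Set.range a)) Ω).comp
        (algebraMap ℂ (adjoin ℂ (Set.range a)))) (fun i => algebraMap E Ω (y i)) (pderiv i F) =
        algebraMap E Ω (aeval y (pderiv i F)) := by
      intro i
      rw [← aeval_algebraMap_apply]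
      rfl
    have hterm : ∀ i, algebraMap (adjoin ℂ (Set.range a)) Ω (a' i) *
        eval₂ ((algebraMap (adjoin ℂ (Set.range a)) Ω).comp
        (algebraMap ℂ (adjoin ℂ (Set.range a)))) (fun i => algebraMap E Ω (y i)) (pderiv i F) =
        γ * algebraMap E Ω ((x j)⁻¹ * (x i * aeval y (pderiv i F))) := by
      intro i
      rw [hev, ha' i, ha]
      simp only [x']
      rw [div_eq_inv_mul, map_mul, map_mul, map_mul]
      ring
    rw [Finset.sum_congr rfl fun i _ => hterm i, ← Finset.mul_sum, ← map_sum, ← Finset.mul_sum, h,
      mul_zero, map_zero, mul_zero]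

end

end Pool.Agent.H764QD
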