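import Mathlib
import Pool.Agent.H764QD.Descent

/-!
A quartic polynomial which takes a square value at a nonconstant rational function has a double
factor.
-/

set_option autoImplicit false

namespace Pool.Agent.H764QD

open Polynomial

theorem coprime_pencil {K : Type*} [Field K] {P Q : K[X]} (hPQ : IsCoprime P Q) {a b : K}
    (hab : a ≠ b) : IsCoprime (P - C a * Q) (P - C b * Q) := by
  obtain ⟨u, v, huv⟩ := hPQ
  have h10 : b - a ≠ 0 := sub_ne_zero.2 (Ne.symm hab)
  refine ⟨C ((b - a)⁻¹) * (C b * u + v), - C ((b - a)⁻¹) * (C a * u + v), ?_⟩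
  have h2 : C ((b - a)⁻¹) * (C b - C a) = 1 := by
    rw [← C_sub, ← C_mul, inv_mul_cancel₀ h10, C_1]
  linear_combination (u * P + v * Q) * h2 + huv

theorem aux_frac {F : Type*} [Field F] (q p c : F) (hq : q ≠ 0) (j k : ℕ) :
    q ^ j * q ^ k * (c * (p ^ j / q ^ j)) = c * p ^ j * q ^ k := by
  field_simp

theorem aux_frac2 {F : Type*} [Field F] (q p r : F) (hq : q ≠ 0) :
    p - r * q = q * (p / q - r) := by
  field_simp

theorem quartic_const_closed {K : Type*} [Field K] [IsAlgClosed K] [CharZero K] (g : K[X])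
    (hg : g.natDegree = 4) (hsep : g.Separable) (P Q H : K[X]) (hPQ : IsCoprime P Q)
    (hN : ∑ j ∈ Finset.range 5, C (g.coeff j) * P ^ j * Q ^ (4 - j) = H ^ 2) :
    P.natDegree = 0 ∧ Q.natDegree = 0 := by
  classical
  by_cases hQ0 : Q = 0
  · subst hQ0
    rw [isCoprime_zero_right] at hPQ
    exact ⟨natDegree_eq_zero_of_isUnit hPQ, natDegree_zero⟩
  have hcard : g.roots.toFinset.card = 4 := by
    rw [Multiset.toFinset_card_of_nodup (nodup_roots hsep), ← hg]
    exact (splits_iff_card_roots.1 (IsAlgClosed.splits g))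
  set e := g.roots.toFinset.equivFinOfCardEq hcard with he
  let ρ : Fin 4 → K := fun i => (e.symm i : K)
  have hρ : Function.Injective ρ := fun i j hij => e.symm.injective (Subtype.ext hij)
  have hprod : g = C g.leadingCoeff * ∏ i, (X - C (ρ i)) := by
    have h1 := (IsAlgClosed.splits g).eq_prod_roots
    conv_lhs => rw [h1]
    congr 1
    have h2 : ∏ i, (X - C (ρ i)) = ∏ a : g.roots.toFinset, (X - C (a : K)) :=
      Equiv.prod_comp e.symm (fun a : g.roots.toFinset => (X - C (a : K)))
    rw [h2, Finset.prod_coe_sort g.roots.toFinset (fun a => X - C a)]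
    unfold Finset.prod
    rw [Multiset.toFinset_val, Multiset.dedup_eq_self.2 (nodup_roots hsep)]
  set c := g.leadingCoeff with hc
  have hc0 : c ≠ 0 := by
    intro h
    rw [hc, leadingCoeff_eq_zero] at h
    rw [h, natDegree_zero] at hg
    omega
  -- the factorisation
  have hfac : C c * ∏ i, (P - C (ρ i) * Q) = H ^ 2 := by
    let F := FractionRing K[X]
    let ι : K[X] →+* F := algebraMap K[X] F
    have hι : Function.Injective ι := IsFractionRing.injective K[X] F
    have hq : ι Q ≠ 0 := fun h => hQ0 (hι (by rw [h, map_zero]))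
    have h1 : ι Q ^ 4 * eval₂ (ι.comp C) (ι P / ι Q) g = ι (H ^ 2) := by
      rw [eval₂_eq_sum_range' (ι.comp C) (show g.natDegree < 5 by omega), ← hN, map_sum,
        Finset.mul_sum]
      refine Finset.sum_congr rfl fun j hj => ?_
      have hj' : j < 5 := Finset.mem_range.1 hj
      rw [map_mul, map_mul, map_pow, map_pow, RingHom.comp_apply, div_pow]
      have h2 : ι Q ^ 4 = ι Q ^ j * ι Q ^ (4 - j) := by
        rw [← pow_add]
        congr 1
        omega
      rw [h2]
      exact aux_frac _ _ _ hq j (4 - j)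
    have h2 : ι Q ^ 4 * eval₂ (ι.comp C) (ι P / ι Q) g =
        ι (C c * ∏ i, (P - C (ρ i) * Q)) := by
      conv_lhs => rw [hprod]
      rw [eval₂_mul, eval₂_C, eval₂_finsetProd, map_mul, map_prod]
      simp only [eval₂_sub, eval₂_X, eval₂_C, RingHom.comp_apply, map_sub, map_mul]
      have h3 : ∏ i, (ι P - ι (C (ρ i)) * ι Q) = ι Q ^ 4 * ∏ i, (ι P / ι Q - ι (C (ρ i))) := by
        rw [show ι Q ^ 4 = ∏ _i : Fin 4, ι Q by simp, ← Finset.prod_mul_distrib]
        refine Finset.prod_congr rfl fun i _ => ?_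
        exact aux_frac2 _ _ _ hq
      rw [h3]
      ring
    exact hι (h2.symm.trans h1)
  refine descent (max P.natDegree Q.natDegree) P Q ρ hρ hPQ (fun i => ?_) (le_max_left _ _)
    (le_max_right _ _)
  refine sq_of_coprime_mul (b := C c * ∏ j ∈ Finset.univ.erase i, (P - C (ρ j) * Q)) (c := H)
    ?_ ?_
  · refine IsCoprime.mul_right ?_ (IsCoprime.prod_right fun j hj => ?_)
    · exact (isCoprime_mul_unit_left_right (isUnit_C.2 (isUnit_iff_ne_zero.2 hc0)) _ 1).2
        isCoprime_one_right |>.of_mul_right_left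
    · exact coprime_pencil hPQ (fun h => (Finset.ne_of_mem_erase hj) (hρ h).symm)
  · rw [← hfac, ← Finset.mul_prod_erase Finset.univ _ (Finset.mem_univ i)]
    ring

theorem quartic_const {L : Type*} [Field L] [CharZero L] (g : L[X])
    (hg : g.natDegree = 4) (hsep : g.Separable) (P Q H : L[X]) (hPQ : IsCoprime P Q)
    (hN : ∑ j ∈ Finset.range 5, C (g.coeff j) * P ^ j * Q ^ (4 - j) = H ^ 2) :
    P.natDegree = 0 ∧ Q.natDegree = 0 := by
  let K := AlgebraicClosure L
  let σ : L →+* K := algebraMap L K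
  have hchar : CharZero K := charZero_of_injective_algebraMap σ.injective
  have h := quartic_const_closed (g.map σ) (by rw [natDegree_map, hg]) (hsep.map)
    (P.map σ) (Q.map σ) (H.map σ) (hPQ.map (mapRingHom σ)) (by
      rw [← Polynomial.map_pow, ← hN, Polynomial.map_sum]
      refine Finset.sum_congr rfl fun j _ => ?_
      rw [Polynomial.map_mul, Polynomial.map_mul, Polynomial.map_pow, Polynomial.map_pow,
        Polynomial.map_C, coeff_map])
  rwa [natDegree_map, natDegree_map] at h

/-- **Double factors.** -/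
theorem exists_double_factor {L M : Type*} [Field L] [Field M] [Algebra L M] [CharZero L] (t : M)
    (ht : Transcendental L t) (htop : IntermediateField.adjoin L {t} = ⊤) (g : L[X])
    (hg : g.natDegree = 4) (τ ω : M) (hτ : τ ∉ Set.range (algebraMap L M))
    (h : aeval τ g = ω ^ 2) : ∃ m : L[X], Irreducible m ∧ m.natDegree ≤ 2 ∧ m * m ∣ g := by
  classical
  have hg0 : g ≠ 0 := by
    rintro rfl
    rw [natDegree_zero] at hg
    omega
  have hinj : ∀ A B : L[X], aeval t A = aeval t B → A = B := by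
    intro A B hAB
    exact (transcendental_iff_injective.1 ht) hAB
  have hne : ∀ A : L[X], A ≠ 0 → aeval t A ≠ 0 := by
    intro A hA h0
    exact hA (hinj A 0 (by rw [h0, map_zero]))
  have hrep : ∀ z : M, ∃ A B : L[X], B ≠ 0 ∧ z = aeval t A / aeval t B := by
    intro z
    have hz : z ∈ IntermediateField.adjoin L {t} := by rw [htop]; exact IntermediateField.mem_top
    obtain ⟨A, B, hAB⟩ := (IntermediateField.mem_adjoin_simple_iff L z).1 hz
    by_cases hB : B = 0
    · refine ⟨0, 1, one_ne_zero, ?_⟩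
      rw [hAB, hB, map_zero, div_zero, zero_div]
    · exact ⟨A, B, hB, hAB⟩
  have hnsep : ¬ g.Separable := by
    intro hsep
    obtain ⟨P0, Q0, hQ0, hτ0⟩ := hrep τ
    obtain ⟨R, S, hS0, hω⟩ := hrep ω
    set D := GCDMonoid.gcd P0 Q0 with hD
    have hD0 : D ≠ 0 := fun h0 => hQ0 ((gcd_eq_zero_iff _ _).1 h0).2
    obtain ⟨P, hP⟩ : D ∣ P0 := gcd_dvd_left _ _
    obtain ⟨Q, hQ⟩ : D ∣ Q0 := gcd_dvd_right _ _
    have hPQ : IsCoprime P Q := by
      have h1 := isCoprime_div_gcd_div_gcd (p := P0) (q := Q0) hQ0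
      have h2 : P0 / GCDMonoid.gcd P0 Q0 = P := by
        rw [← hD, hP, mul_div_cancel_left₀ _ hD0]
      have h3 : Q0 / GCDMonoid.gcd P0 Q0 = Q := by
        rw [← hD, hQ, mul_div_cancel_left₀ _ hD0]
      rwa [h2, h3] at h1
    have hQne : Q ≠ 0 := by
      rintro rfl
      rw [mul_zero] at hQ
      exact hQ0 hQ
    have hτ1 : τ = aeval t P / aeval t Q := by
      rw [hτ0, hP, hQ, map_mul, map_mul, mul_div_mul_left _ _ (hne D hD0)]
    set N := ∑ j ∈ Finset.range 5, C (g.coeff j) * P ^ j * Q ^ (4 - j) with hN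
    have hNS : N * S ^ 2 = (R * Q ^ 2) ^ 2 := by
      apply hinj
      have hq := hne Q hQne
      have hs := hne S hS0
      have h1 : aeval t N = aeval t Q ^ 4 * aeval τ g := by
        rw [aeval_def τ g, eval₂_eq_sum_range' _ (show g.natDegree < 5 by omega), hN, map_sum,
          Finset.mul_sum]
        refine Finset.sum_congr rfl fun j hj => ?_
        have hj' : j < 5 := Finset.mem_range.1 hj
        rw [map_mul, map_mul, map_pow, map_pow, aeval_C, hτ1, div_pow]
        have h2 : aeval t Q ^ 4 = aeval t Q ^ j * aeval t Q ^ (4 - j) := by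
          rw [← pow_add]
          congr 1
          omega
        rw [h2]
        field_simp
      rw [map_mul, h1, h, hω, map_pow, map_pow, map_mul, map_pow]
      field_simp
    have hdvd : S ∣ R * Q ^ 2 := by
      have h1 : S ^ 2 ∣ (R * Q ^ 2) ^ 2 := ⟨N, by rw [← hNS]; ring⟩
      exact (UniqueFactorizationMonoid.pow_dvd_pow_iff_dvd two_ne_zero).1 h1
    obtain ⟨H, hH⟩ := hdvd
    have hNH : N = H ^ 2 := by
      have h1 : S ^ 2 * N = S ^ 2 * H ^ 2 := by
        rw [mul_comm, hNS, hH]
        ring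
      exact mul_left_cancel₀ (pow_ne_zero 2 hS0) h1
    obtain ⟨hP1, hQ1⟩ := quartic_const g hg hsep P Q H hPQ hNH
    apply hτ
    obtain ⟨p, hp⟩ := natDegree_eq_zero.1 hP1
    obtain ⟨q, hq⟩ := natDegree_eq_zero.1 hQ1
    refine ⟨p / q, ?_⟩
    rw [hτ1, ← hp, ← hq, aeval_C, aeval_C, map_div₀]
  rw [PerfectField.separable_iff_squarefree,
    squarefree_iff_irreducible_sq_not_dvd_of_ne_zero hg0] at hnsep
  push Not at hnsep
  obtain ⟨m, hm, hmm⟩ := hnsep
  refine ⟨m, hm, ?_, hmm⟩
  have h1 := natDegree_le_of_dvd hmm hg0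
  rw [natDegree_mul hm.ne_zero hm.ne_zero, hg] at h1
  omega

end Pool.Agent.H764QD
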