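import Mathlib
import Pool.Agent.H764QD.Polar
import Pool.Agent.H764QD.Quartic

/-!
Families of curves on a smooth quartic double cover which lie over lines.
-/

set_option autoImplicit false

namespace Pool.Agent.H764QD

open MvPolynomial Pool.Agent.TH314.PD IntermediateField Module Pool.Agent.Y201.LI
  Pool.Agent.Y929.LI

noncomputable section

/-- the field of the ratios in an extension -/
theorem ratio_ext {r : ℕ} {M E : Type} [Field M] [Field E] [Algebra ℂ M] [Algebra M E]
    [Algebra ℂ E] [IsScalarTower ℂ M E] (x : Fin r → M) :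
    finrank (ratioField fun i => algebraMap M E (x i)) E = finrank (ratioField x) M * finrank M E := by
  have hmap : ratioField (fun i => algebraMap M E (x i)) =
      (ratioField x).map (IsScalarTower.toAlgHom ℂ M E) := by
    unfold ratioField
    rw [adjoin_map]
    congr 1
    ext z
    constructor
    · rintro ⟨i, j, rfl⟩
      exact ⟨x i / x j, ⟨i, j, rfl⟩, map_div₀ _ _ _⟩
    · rintro ⟨_, ⟨i, j, rfl⟩, rfl⟩
      exact ⟨i, j, map_div₀ _ _ _⟩
  have hsame := finrank_same (A := ratioField fun i => algebraMap M E (x i))
    (B := ratioField x) (Ω := E) (by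
      intro z
      constructor
      · rintro ⟨a, rfl⟩
        have h1 : (a : E) ∈ (ratioField x).map (IsScalarTower.toAlgHom ℂ M E) := by
          rw [← hmap]
          exact a.2
        obtain ⟨b, hb, hba⟩ := h1
        exact ⟨⟨b, hb⟩, hba⟩
      · rintro ⟨a, rfl⟩
        have h1 : algebraMap M E (a : M) ∈ ratioField (fun i => algebraMap M E (x i)) := by
          rw [hmap]
          exact ⟨a, a.2, rfl⟩
        exact ⟨⟨_, h1⟩, rfl⟩)
  rw [hsame.2, Module.finrank_mul_finrank]

/-- **Families of curves over lines.** -/
theorem lines_over {r : ℕ} {f : MvPolynomial (Fin r) ℂ} (hf : f.IsHomogeneous 4)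
    (hsm : ∀ z : Fin r → ℂ, (∀ i, eval z (pderiv i f) = 0) → z = 0)
    {M : Type} [Field M] [Algebra ℂ M] (L : IntermediateField ℂ M) (t : M)
    (ht : Transcendental L t) (htop : adjoin L {t} = ⊤) (x : Fin r → M)
    (hx : ∀ (e : ℕ) (H : MvPolynomial (Fin r) ℂ), H.IsHomogeneous e → aeval x H = 0 → H = 0)
    (w : M) (hw : w ^ 2 = aeval x f) (u v : Fin r → M) (hu : ∀ i, u i ∈ L) (hv : ∀ i, v i ∈ L)
    (a b : M) (hab : ∀ i, x i = a * u i + b * v i) : 3 ∣ finrank (ratioField x) M := by
  classical
  by_cases hfin : FiniteDimensional (ratioField x) M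
  swap
  · rw [Module.finrank_of_not_finite hfin]
    exact dvd_zero _
  have hf0 : f ≠ 0 := by
    rintro rfl
    have h1 : r = 0 := by
      by_contra hr
      have h2 := hsm 1 (fun i => by rw [map_zero, map_zero])
      have := congrFun h2 ⟨0, by omega⟩
      exact one_ne_zero this
    subst h1
    -- the generic point cannot exist
    have hnot : ratioField x ≤ L := by
      unfold ratioField
      rw [IntermediateField.adjoin_le_iff]
      rintro _ ⟨i, _, _⟩
      exact i.elim0
    apply ht
    have h1 : IsAlgebraic (ratioField x) t := Algebra.IsAlgebraic.isAlgebraic t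
    let _ : Algebra (ratioField x) L := (IntermediateField.inclusion hnot).toRingHom.toAlgebra
    have : IsScalarTower (ratioField x) L M := IsScalarTower.of_algebraMap_eq fun _ => rfl
    exact h1.extendScalars (IntermediateField.inclusion hnot).toRingHom.injective
  have hfx : aeval x f ≠ 0 := fun h => hf0 (hx 4 f hf h)
  -- the point is not proportional to a point over `L`
  have hprop : ∀ (c : M) (y : Fin r → M), (∀ i, y i ∈ L) → (∀ i, x i = c * y i) → False := by
    intro c y hy hxy
    have hle : ratioField x ≤ L := by
      unfold ratioField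
      rw [IntermediateField.adjoin_le_iff]
      rintro _ ⟨i, j, rfl⟩
      by_cases hc : c = 0
      · rw [hxy i, hc, zero_mul, zero_div]
        exact zero_mem _
      · rw [hxy i, hxy j, mul_div_mul_left _ _ hc]
        exact div_mem (hy i) (hy j)
    apply ht
    have h1 : IsAlgebraic (ratioField x) t := Algebra.IsAlgebraic.isAlgebraic t
    let _ : Algebra (ratioField x) L := (IntermediateField.inclusion hle).toRingHom.toAlgebra
    have : IsScalarTower (ratioField x) L M := IsScalarTower.of_algebraMap_eq fun _ => rfl
    exact h1.extendScalars (IntermediateField.inclusion hle).toRingHom.injective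
  have hb0 : b ≠ 0 := by
    rintro rfl
    exact hprop a u hu (fun i => by rw [hab, zero_mul, add_zero])
  -- a value of the parameter where the form does not vanish
  obtain ⟨c, hc⟩ : ∃ c : ℂ, aeval (fun i => v i + algebraMap ℂ M c * u i) f ≠ 0 := by
    set h : Polynomial M := aeval (fun i => Polynomial.C (v i) + Polynomial.X * Polynomial.C (u i) :
      Fin r → Polynomial M) f with hh
    have hev : ∀ z : M, h.eval z = aeval (fun i => v i + z * u i) f := by
      intro z
      have h1 := MvPolynomial.hom_eval₂ f (algebraMap ℂ (Polynomial M))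
        (Polynomial.evalRingHom z)
        (fun i => Polynomial.C (v i) + Polynomial.X * Polynomial.C (u i))
      refine h1.trans ?_
      rw [aeval_def]
      congr 1
      · ext q
        simp [Polynomial.algebraMap_apply]
      · funext i
        simp
        exact mul_comm _ _
    have hh0 : h ≠ 0 := by
      intro h0
      apply hfx
      have h1 := hev (a / b)
      rw [h0, Polynomial.eval_zero] at h1
      have h2 : x = fun i => b * (v i + a / b * u i) := by
        funext i
        rw [hab]
        field_simp
        ring
      rw [h2, aeval_smul_form hf, ← h1, mul_zero]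
    by_contra hcon
    push Not at hcon
    have hinf : (Set.range (algebraMap ℂ M)).Infinite :=
      Set.infinite_range_of_injective (algebraMap ℂ M).injective
    exact hh0 (Polynomial.eq_zero_of_infinite_isRoot h (hinf.mono (by
      rintro _ ⟨z, rfl⟩
      change h.eval _ = 0
      rw [hev, hcon])))
  set v' : Fin r → M := fun i => v i + algebraMap ℂ M c * u i with hv'
  set a' : M := a - b * algebraMap ℂ M c with ha'
  have hv'L : ∀ i, v' i ∈ L := fun i =>
    add_mem (hv i) (mul_mem (IntermediateField.algebraMap_mem _ _) (hu i))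
  have hx' : ∀ i, x i = a' * u i + b * v' i := by
    intro i
    rw [hab, ha', hv']
    ring
  have ha0 : a' ≠ 0 := by
    intro h0
    exact hprop b v' hv'L (fun i => by rw [hx', h0, zero_mul, zero_add])
  set τ : M := b / a' with hτ
  have hτL : τ ∉ L := by
    intro h0
    refine hprop a' (fun i => u i + τ * v' i) (fun i => add_mem (hu i) (mul_mem h0 (hv'L i)))
      fun i => ?_
    rw [hx', hτ]
    field_simp
  -- the quartic polynomial
  let uL : Fin r → L := fun i => ⟨u i, hu i⟩
  let vL : Fin r → L := fun i => ⟨v' i, hv'L i⟩
  set g : Polynomial L := eval₂ ((Polynomial.C : L →+* Polynomial L).comp (algebraMap ℂ L))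
      (fun j => Polynomial.X * Polynomial.C (vL j) + Polynomial.C (uL j)) f with hg
  obtain ⟨hg1, hg2⟩ := Pool.Agent.Y155.LI.top_eval (algebraMap ℂ L) f hf vL uL
  rw [← hg] at hg1 hg2
  -- evaluation of forms on the line
  have hgev : ∀ {N : Type} [Field N] [Algebra M N] (z : N) (H : MvPolynomial (Fin r) ℂ),
      Polynomial.eval₂ ((algebraMap M N).comp (algebraMap L M)) z
        (eval₂ ((Polynomial.C : L →+* Polynomial L).comp (algebraMap ℂ L))
      (fun j => Polynomial.X * Polynomial.C (vL j) + Polynomial.C (uL j)) H) =
      eval₂ ((algebraMap M N).comp (algebraMap ℂ M))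
        (fun j => z * algebraMap M N (v' j) + algebraMap M N (u j)) H := by
    intro N _ _ z H
    have h1 := MvPolynomial.hom_eval₂ H ((Polynomial.C : L →+* Polynomial L).comp (algebraMap ℂ L))
      (Polynomial.eval₂RingHom ((algebraMap M N).comp (algebraMap L M)) z)
      (fun j => Polynomial.X * Polynomial.C (vL j) + Polynomial.C (uL j))
    refine h1.trans ?_
    congr 1
    · ext q
      simp only [RingHom.comp_apply, Polynomial.coe_eval₂RingHom, Polynomial.eval₂_C]
      rfl
    · funext j
      simp only [Polynomial.coe_eval₂RingHom, Polynomial.eval₂_add,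
        Polynomial.eval₂_mul, Polynomial.eval₂_X, Polynomial.eval₂_C, RingHom.comp_apply]
      rfl
  have hlead : g.coeff 4 ≠ 0 := by
    rw [hg2]
    intro h0
    apply hc
    have h1 := congrArg (algebraMap L M) h0
    rw [map_zero, MvPolynomial.hom_eval₂] at h1
    exact h1
  have hg4 : g.natDegree = 4 := le_antisymm hg1 (Polynomial.le_natDegree_of_ne_zero hlead)
  have hval : Polynomial.aeval τ g = (w / a' ^ 2) ^ 2 := by
    have h1 : Polynomial.aeval τ g = aeval (fun j => τ * v' j + u j) f := by
      have := hgev (N := M) τ f
      rw [Algebra.algebraMap_self, RingHom.id_comp, RingHom.id_comp] at this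
      exact this
    rw [h1]
    have h2 : x = fun j => a' * (τ * v' j + u j) := by
      funext j
      rw [hx', hτ]
      field_simp
      ring
    have h3 : aeval x f = a' ^ 4 * aeval (fun j => τ * v' j + u j) f := by
      conv_lhs => rw [h2]
      exact aeval_smul_form hf _ _
    rw [div_pow, hw, h3]
    field_simp
  obtain ⟨m, hm, hm2, hmm⟩ := exists_double_factor t ht htop g hg4 τ (w / a' ^ 2)
    (by
      rintro ⟨z, hz⟩
      apply hτL
      rw [← hz]
      exact z.2) hval
  -- the extension
  have hmM : (m.map (algebraMap L M)).natDegree ≠ 0 := by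
    rw [Polynomial.natDegree_map]
    exact (Polynomial.natDegree_pos_iff_degree_pos.2
      (Polynomial.degree_pos_of_irreducible hm)).ne'
  obtain ⟨q, hq, hqm⟩ := Polynomial.exists_irreducible_of_natDegree_ne_zero hmM
  have : Fact (Irreducible q) := ⟨hq⟩
  let E := AdjoinRoot q
  have hEfin : FiniteDimensional M E := (AdjoinRoot.powerBasis hq.ne_zero).finite
  have hE : finrank M E = q.natDegree := (AdjoinRoot.powerBasis hq.ne_zero).finrank
  have hm0 : m.map (algebraMap L M) ≠ 0 := by
    intro h0
    rw [h0, Polynomial.natDegree_zero] at hmM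
    exact hmM rfl
  have hE2 : finrank M E ≤ 2 := by
    rw [hE]
    refine (Polynomial.natDegree_le_of_dvd hqm hm0).trans ?_
    rw [Polynomial.natDegree_map]
    exact hm2
  have hE1 : 0 < finrank M E := finrank_pos
  let ρ : E := AdjoinRoot.root q
  let φ : L →+* E := (algebraMap M E).comp (algebraMap L M)
  have hρq : Polynomial.aeval ρ q = 0 := by
    rw [AdjoinRoot.aeval_eq]
    exact AdjoinRoot.mk_self
  have hρm : Polynomial.eval₂ φ ρ m = 0 := by
    obtain ⟨s, hs⟩ := hqm
    have h1 : Polynomial.aeval ρ (m.map (algebraMap L M)) = 0 := by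
      rw [hs, map_mul, hρq, zero_mul]
    rw [Polynomial.aeval_def, Polynomial.eval₂_map] at h1
    exact h1
  obtain ⟨s, hs⟩ := hmm
  have hρg : Polynomial.eval₂ φ ρ g = 0 := by
    rw [hs, Polynomial.eval₂_mul, Polynomial.eval₂_mul, hρm, zero_mul, zero_mul]
  have hρg' : Polynomial.eval₂ φ ρ (Polynomial.derivative g) = 0 := by
    rw [hs, Polynomial.derivative_mul, Polynomial.derivative_mul, Polynomial.eval₂_add,
      Polynomial.eval₂_mul, Polynomial.eval₂_mul, Polynomial.eval₂_add, Polynomial.eval₂_mul,
      Polynomial.eval₂_mul, Polynomial.eval₂_mul, hρm]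
    ring
  -- the point of the polar
  let y : Fin r → E := fun i => ρ * algebraMap M E (v' i) + algebraMap M E (u i)
  have hyev : ∀ H : MvPolynomial (Fin r) ℂ, aeval y H = Polynomial.eval₂ φ ρ
      (eval₂ ((Polynomial.C : L →+* Polynomial L).comp (algebraMap ℂ L))
      (fun j => Polynomial.X * Polynomial.C (vL j) + Polynomial.C (uL j)) H) := by
    intro H
    rw [hgev (N := E) ρ H]
    rfl
  have hfy : aeval y f = 0 := by rw [hyev]; exact hρg
  have hsum1 : ∑ i, algebraMap M E (v' i) * aeval y (pderiv i f) = 0 := by
    have h1 := chain_rule ((Polynomial.derivative' : Derivation L (Polynomial L)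
      (Polynomial L)).restrictScalars ℂ)
      (fun j => Polynomial.X * Polynomial.C (vL j) + Polynomial.C (uL j)) f
    have h2 : ((Polynomial.derivative' : Derivation L (Polynomial L)
        (Polynomial L)).restrictScalars ℂ)
        (aeval (fun j => Polynomial.X * Polynomial.C (vL j) + Polynomial.C (uL j)) f) =
        Polynomial.derivative g := rfl
    rw [h2] at h1
    have h3 := congrArg (Polynomial.eval₂ φ ρ) h1
    rw [hρg', Polynomial.eval₂_finsetSum] at h3
    rw [h3]
    refine Finset.sum_congr rfl fun i _ => ?_
    rw [Polynomial.eval₂_mul, hyev, mul_comm]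
    congr 1
    have h4 : ((Polynomial.derivative' : Derivation L (Polynomial L)
        (Polynomial L)).restrictScalars ℂ) (Polynomial.X * Polynomial.C (vL i) +
          Polynomial.C (uL i)) = Polynomial.C (vL i) := by
      show Polynomial.derivative _ = _
      simp
    rw [h4, Polynomial.eval₂_C]
    rfl
  have hsum0 : ∑ i, y i * aeval y (pderiv i f) = 0 := by
    have h1 := congrArg (aeval y) hf.sum_X_mul_pderiv
    rw [map_sum, map_nsmul, hfy, smul_zero] at h1
    simp only [map_mul, aeval_X] at h1
    exact h1
  have hsum2 : ∑ i, algebraMap M E (u i) * aeval y (pderiv i f) = 0 := by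
    have h1 : ∑ i, y i * aeval y (pderiv i f) =
        ρ * ∑ i, algebraMap M E (v' i) * aeval y (pderiv i f) +
          ∑ i, algebraMap M E (u i) * aeval y (pderiv i f) := by
      rw [Finset.mul_sum, ← Finset.sum_add_distrib]
      refine Finset.sum_congr rfl fun i _ => ?_
      simp only [y]
      ring
    rw [hsum0, hsum1, mul_zero, zero_add] at h1
    exact h1.symm
  have hpol : ∑ i, algebraMap M E (x i) * aeval y (pderiv i f) = 0 := by
    have h1 : ∀ i, algebraMap M E (x i) * aeval y (pderiv i f) =
        algebraMap M E a' * (algebraMap M E (u i) * aeval y (pderiv i f)) +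
          algebraMap M E b * (algebraMap M E (v' i) * aeval y (pderiv i f)) := by
      intro i
      rw [hx', map_add, map_mul, map_mul]
      ring
    rw [Finset.sum_congr rfl fun i _ => h1 i, Finset.sum_add_distrib, ← Finset.mul_sum,
      ← Finset.mul_sum, hsum1, hsum2, mul_zero, mul_zero, add_zero]
  have hy0 : y ≠ 0 := by
    intro h0
    obtain ⟨i0, hi0⟩ : ∃ i, v' i ≠ 0 := by
      by_contra hcon
      push Not at hcon
      apply hc
      have h1 : v' = fun i => (0 : M) * v' i := by
        funext i
        rw [hcon i, mul_zero]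
      rw [h1, aeval_smul_form hf]
      ring
    have h1 : ∀ i, u i = -(u i0 / v' i0) * -v' i := by
      intro i
      have h2 : ρ * algebraMap M E (v' i0) + algebraMap M E (u i0) = 0 := congrFun h0 i0
      have h3 : ρ * algebraMap M E (v' i) + algebraMap M E (u i) = 0 := congrFun h0 i
      have h4 : algebraMap M E (v' i0) * algebraMap M E (u i) =
          algebraMap M E (u i0) * algebraMap M E (v' i) := by
        linear_combination (algebraMap M E (v' i0)) * h3 - (algebraMap M E (v' i)) * h2
      have h5 : v' i0 * u i = u i0 * v' i := by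
        apply (algebraMap M E).injective
        rw [map_mul, map_mul]
        exact h4
      field_simp
      linear_combination h5
    refine hprop (a' * (u i0 / v' i0) + b) v' hv'L fun i => ?_
    rw [hx' i]
    conv_lhs => rw [h1 i]
    ring
  have hxE : ∀ (e : ℕ) (H : MvPolynomial (Fin r) ℂ), H.IsHomogeneous e →
      aeval (fun i => algebraMap M E (x i)) H = 0 → H = 0 := by
    intro e H hH h0
    refine hx e H hH ((algebraMap M E).injective ?_)
    rw [map_zero, ← h0]
    exact (aeval_algebraMap_apply E x H).symm
  have hfinal := polar_index hf hsm (fun i => algebraMap M E (x i)) hxE y hy0 hpol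
  rw [ratio_ext] at hfinal
  have h3 : (4 : ℕ) - 1 = 3 := rfl
  rw [h3] at hfinal
  refine (Nat.Coprime.dvd_of_dvd_mul_right ?_ hfinal)
  have h4 : finrank M E = 1 ∨ finrank M E = 2 := by omega
  rcases h4 with h4 | h4 <;> rw [h4] <;> decide

/-- the field generated by the functions of degree zero of the double cover -/
def coverField {r : ℕ} {M : Type} [Field M] [Algebra ℂ M] (x : Fin r → M) (w : M) :
    IntermediateField ℂ M :=
  adjoin ℂ ({z | ∃ i j, z = x i / x j} ∪ {z | ∃ j, z = w / x j ^ 2})

/-- the function field of the double cover has degree at most two over the field of the ratios -/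
theorem cover_dvd {r n : ℕ} {f : MvPolynomial (Fin r) ℂ} (hf : f.IsHomogeneous 4)
    {M : Type} [Field M] [Algebra ℂ M] (x : Fin r → M) (hx0 : ∃ j, x j ≠ 0)
    (w : M) (hw : w ^ 2 = aeval x f) (hn : Nat.Coprime n 2)
    (h : n ∣ finrank (ratioField x) M) : n ∣ finrank (coverField x w) M := by
  obtain ⟨j, hj⟩ := hx0
  set z : M := w / x j ^ 2 with hz
  have hle : ratioField x ≤ coverField x w := by
    unfold ratioField coverField
    exact adjoin.mono _ _ _ Set.subset_union_left
  have hz2 : z ^ 2 ∈ ratioField x := by
    have h1 : z ^ 2 = aeval x f / aeval x (X j ^ 4 : MvPolynomial (Fin r) ℂ) := by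
      rw [hz, div_pow, hw, map_pow, aeval_X]
      congr 1
      ring
    rw [h1]
    exact ratio_mem x ⟨j, hj⟩ hf (by simpa using (isHomogeneous_X ℂ j).pow 4)
  let R := ratioField x
  let z2 : R := ⟨z ^ 2, hz2⟩
  have hcov : (adjoin R {z}).restrictScalars ℂ = coverField x w := by
    apply le_antisymm
    · have key : ∀ y ∈ adjoin R {z}, y ∈ coverField x w := by
        intro y hy'
        induction hy' using IntermediateField.adjoin_induction with
        | mem y hy =>
          rw [Set.mem_singleton_iff] at hy
          rw [hy]
          exact subset_adjoin _ _ (Or.inr ⟨j, rfl⟩)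
        | algebraMap c => exact hle c.2
        | add a b _ _ ha hb => exact add_mem ha hb
        | inv a _ ha => exact inv_mem ha
        | mul a b _ _ ha hb => exact mul_mem ha hb
      exact fun y hy => key y hy
    · unfold coverField
      rw [IntermediateField.adjoin_le_iff]
      have hR : ∀ i k, x i / x k ∈ (adjoin R {z}).restrictScalars ℂ := fun i k =>
        IntermediateField.algebraMap_mem (adjoin R {z})
          (⟨x i / x k, subset_adjoin _ _ ⟨i, k, rfl⟩⟩ : R)
      rintro y (⟨i, k, rfl⟩ | ⟨k, rfl⟩)
      · exact hR i k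
      · have hzm : z ∈ (adjoin R {z}).restrictScalars ℂ :=
          mem_adjoin_simple_self R z
        by_cases hk : x k = 0
        · rw [hk, zero_pow two_ne_zero, div_zero]
          exact zero_mem _
        · have h1 : w / x k ^ 2 = z * (x j / x k) ^ 2 := by
            rw [hz]
            field_simp
          rw [h1]
          exact mul_mem hzm (pow_mem (hR j k) 2)
  have hint : IsIntegral R z := by
    refine ⟨Polynomial.X ^ 2 - Polynomial.C z2, Polynomial.monic_X_pow_sub_C _ two_ne_zero, ?_⟩
    rw [Polynomial.eval₂_sub, Polynomial.eval₂_pow, Polynomial.eval₂_X, Polynomial.eval₂_C]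
    exact sub_self (z ^ 2)
  have h2 : finrank R (adjoin R {z}) ≤ 2 := by
    rw [IntermediateField.adjoin.finrank hint]
    have h3 : minpoly R z ∣ Polynomial.X ^ 2 - Polynomial.C z2 := by
      apply minpoly.dvd
      rw [map_sub, map_pow, Polynomial.aeval_X, Polynomial.aeval_C]
      exact sub_self (z ^ 2)
    have h4 := Polynomial.natDegree_le_of_dvd h3 (Polynomial.monic_X_pow_sub_C _ two_ne_zero).ne_zero
    rwa [Polynomial.natDegree_X_pow_sub_C] at h4
  have hfd : FiniteDimensional R (adjoin R {z}) := IntermediateField.adjoin.finiteDimensional hint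
  have h1 : 0 < finrank R (adjoin R {z}) := finrank_pos
  have hmul := Module.finrank_mul_finrank R (adjoin R {z}) M
  have hsame : finrank (adjoin R {z}) M = finrank (coverField x w) M := by
    rw [← hcov]
    rfl
  rw [hsame] at hmul
  have h3 : n ∣ finrank R (adjoin R {z}) * finrank (coverField x w) M := by
    rw [hmul]
    exact h
  refine Nat.Coprime.dvd_of_dvd_mul_left ?_ h3
  have h4 : finrank R (adjoin R {z}) = 1 ∨ finrank R (adjoin R {z}) = 2 := by omega
  rcases h4 with h4 | h4 <;> rw [h4]
  · exact Nat.coprime_one_right n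
  · exact hn

end

end Pool.Agent.H764QD
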