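import Mathlib
import Pool.Agent.H450R2.Al.Local
import Pool.Agent.TH314.PD.ND
import Pool.Agent.H764QD.Dehom
import Pool.Agent.H764QD.Lines

/-!
Charts of birational parametrizations.
-/

set_option autoImplicit false

namespace Pool.Agent.H764QD

open MvPolynomial Pool.Agent.TH314.PD

noncomputable section

/-- the elements of the field generated are algebraic over the algebra generated -/
theorem alg_of_gen {k : ℕ} {M : Type} [Field M] [Algebra ℂ M] (y : Fin k → M)
    (hgen : IntermediateField.adjoin ℂ (Set.range y) = ⊤) :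
    Algebra.IsAlgebraic (Algebra.adjoin ℂ (Set.range y)) M := by
  refine ⟨fun z => ?_⟩
  have hz : z ∈ IntermediateField.adjoin ℂ (Set.range y) := by
    rw [hgen]
    exact IntermediateField.mem_top
  rw [← H450Al.mem_cl]
  induction hz using IntermediateField.adjoin_induction with
  | mem y hy => exact H450Al.subset_cl ℂ _ hy
  | algebraMap c => exact (H450Al.clAlg ℂ _).algebraMap_mem c
  | add a b _ _ ha hb => exact (H450Al.clAlg ℂ _).add_mem ha hb
  | inv a _ ha => exact H450Al.inv_mem_cl ℂ ha
  | mul a b _ _ ha hb => exact (H450Al.clAlg ℂ _).mul_mem ha hb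

/-- as many generators as the transcendence degree are algebraically independent -/
theorem indep_of_gen {k : ℕ} {M : Type} [Field M] [Algebra ℂ M] (y : Fin k → M)
    (hgen : IntermediateField.adjoin ℂ (Set.range y) = ⊤) (htr : (k : Cardinal) ≤ Algebra.trdeg ℂ M) :
    IsTranscendenceBasis ℂ y := by
  have := alg_of_gen y hgen
  exact Algebra.IsAlgebraic.isTranscendenceBasis_of_le_trdeg_of_finite ℂ y
    (by rwa [Cardinal.mk_fin])

/-- a chart of a birational parametrization of the double cover by polynomials of degree at most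
`k` -/
structure Chart {m : ℕ} {M : Type} [Field M] [Algebra ℂ M] (ξ : Fin m → M) (w : M) (k : ℕ)
    (al : MvPolynomial (Fin m) ℂ →ₐ[ℂ] M) (G : Fin (m + 1) → MvPolynomial (Fin m) ℂ)
    (W : MvPolynomial (Fin m) ℂ) : Prop where
  inj : Function.Injective al
  frac : ∀ z : M, ∃ a b, z = al a / al b
  deg : ∀ i, (G i).totalDegree ≤ k
  ne : al (G 0) ≠ 0
  ratio : ∀ i : Fin m, al (G i.succ) = ξ i * al (G 0)
  eqW : al W = w * al (G 0) ^ 2

namespace Chart

variable {m : ℕ} {M : Type} [Field M] [Algebra ℂ M] {ξ : Fin m → M} {w : M} {k : ℕ}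
  {al : MvPolynomial (Fin m) ℂ →ₐ[ℂ] M} {G : Fin (m + 1) → MvPolynomial (Fin m) ℂ}
  {W : MvPolynomial (Fin m) ℂ}

theorem al_eq (al : MvPolynomial (Fin m) ℂ →ₐ[ℂ] M) (g : MvPolynomial (Fin m) ℂ) :
    al g = aeval (fun l => al (X l)) g := by
  have h1 : al = aeval (fun l => al (X l)) := by
    apply algHom_ext
    intro l
    rw [aeval_X]
  exact congrArg (fun φ : MvPolynomial (Fin m) ℂ →ₐ[ℂ] M => φ g) h1

theorem gen_of_frac (al : MvPolynomial (Fin m) ℂ →ₐ[ℂ] M) (hfrac : ∀ z : M, ∃ a b, z = al a / al b) :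
    IntermediateField.adjoin ℂ (Set.range fun l => al (X l)) = ⊤ := by
  rw [eq_top_iff]
  rintro z -
  have h1 : ∀ a : MvPolynomial (Fin m) ℂ,
      al a ∈ IntermediateField.adjoin ℂ (Set.range fun l => al (X l)) := by
    intro a
    induction a using MvPolynomial.induction_on with
    | C a =>
      have h2 : al (C a) = algebraMap ℂ M a := al.commutes a
      rw [h2]
      exact IntermediateField.algebraMap_mem _ _
    | add f g hf hg =>
      rw [map_add]
      exact add_mem hf hg
    | mul_X f i hf =>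
      rw [map_mul]
      exact mul_mem hf (IntermediateField.subset_adjoin _ _ ⟨i, rfl⟩)
  obtain ⟨a, b, rfl⟩ := hfrac z
  exact div_mem (h1 a) (h1 b)

theorem basis (c : Chart ξ w k al G W) : IsTranscendenceBasis ℂ (fun l : Fin m => al (X l)) := by
  have h1 : AlgebraicIndependent ℂ (fun l : Fin m => al (X l)) :=
    (MvPolynomial.algebraicIndependent_X (Fin m) ℂ).map' c.inj
  refine indep_of_gen _ (gen_of_frac al c.frac) ?_
  have := h1.cardinalMk_le_trdeg
  rwa [Cardinal.mk_fin] at this

theorem trdeg (c : Chart ξ w k al G W) : Algebra.trdeg ℂ M = m := by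
  rw [← c.basis.cardinalMk_eq_trdeg, Cardinal.mk_fin]

/-- the derivations along the coordinates of the chart -/
theorem der (c : Chart ξ w k al G W) (l : Fin m) (a : M) : ∃ D : Derivation ℂ M M,
    ∀ g, D (al g) = a * al (pderiv l g) := by
  classical
  obtain ⟨D, hD⟩ := exists_der' al c.basis (Pi.single l a)
  refine ⟨D, fun g => ?_⟩
  rw [hD, Finset.sum_eq_single l]
  · rw [Pi.single_eq_same]
  · intro b _ hb
    rw [Pi.single_eq_of_ne hb, zero_mul]
  · intro h
    exact absurd (Finset.mem_univ _) h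

end Chart

/-- common zeros of a proper ideal -/
theorem exists_zero {m : ℕ} (I : Ideal (MvPolynomial (Fin m) ℂ)) (hI : I ≠ ⊤) :
    ∃ z : Fin m → ℂ, ∀ g ∈ I, eval z g = 0 := by
  by_contra hcon
  push Not at hcon
  apply hI
  have h1 : MvPolynomial.zeroLocus ℂ I = ∅ := by
    ext z
    simp only [Set.mem_empty_iff_false, iff_false]
    intro hz
    obtain ⟨g, hg, hg0⟩ := hcon z
    apply hg0
    have := hz g hg
    rwa [aeval_eq_eval] at this
  have h2 := MvPolynomial.vanishingIdeal_zeroLocus_eq_radical (K := ℂ) I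
  rw [h1, MvPolynomial.vanishingIdeal_empty] at h2
  exact (Ideal.radical_eq_top).1 h2.symm

end

end Pool.Agent.H764QD
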