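import Mathlib
import Pool.Agent.H764QD.Chart

/-!
The case in which the ramification divisor is contracted by the inverse of the parametrization.
-/

set_option autoImplicit false

namespace Pool.Agent.H764QD

open MvPolynomial Pool.Agent.TH314.PD Pool.Agent.Y201.LI IntermediateField Module

noncomputable section

namespace Dbl

section

variable {m : ℕ} {M : Type} [Field M] [Algebra ℂ M] {φ : MvPolynomial (Fin m) ℂ} {ξ : Fin m → M}
  {w : M}

theorem inv_mem_of_res (h : Dbl φ ξ w) {z : M} (hz : z ∈ h.ring) (h0 : h.res z hz ≠ 0) :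
    z⁻¹ ∈ h.ring := by
  have hu : IsUnit (⟨z, hz⟩ : h.ring) := by
    by_contra hu
    exact h0 ((IsLocalRing.residue_eq_zero_iff _).2
      ((IsLocalRing.mem_maximalIdeal _).2 (mem_nonunits_iff.2 hu)))
  obtain ⟨⟨y, hy⟩, hyz⟩ := hu.exists_right_inv
  have h1 : z * y = 1 := congrArg Subtype.val hyz
  have h2 : z⁻¹ = y := by
    rw [inv_eq_of_mul_eq_one_right h1]
  rw [h2]
  exact hy

theorem const_mem (h : Dbl φ ξ w) (c : ℂ) : algebraMap ℂ M c ∈ h.ring := by
  have := h.poly_mem (C c)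
  rwa [aeval_C] at this

theorem res_const (h : Dbl φ ξ w) (c : ℂ) :
    h.res (algebraMap ℂ M c) (h.const_mem c) = algebraMap ℂ h.kap c := rfl

/-- **Integrality at an extracted divisor.** A derivation which is integral on the coordinates, and
logarithmically integral on one element of positive value, is logarithmically integral on `w`. -/
theorem ext_der (h : Dbl φ ξ w) (D : Derivation ℂ M M) (hξ : ∀ i, D (ξ i) ∈ h.ring) {x0 e0 : M}
    (hx0 : x0 ∈ h.ring) (hr : h.res x0 hx0 = 0) (hne : x0 ≠ 0) (he0 : e0 ∈ h.ring)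
    (hD : D x0 = x0 * e0) : ∃ y ∈ h.ring, D w = w * y := by
  have hw := h.w_ne
  obtain ⟨a, u, hu, hxu⟩ := h.eq_pow_mul hx0 hne
  have hu0 := h.isU_ne hu
  have huV : u ∈ h.ring := isV_of_isU hu
  obtain ⟨b, rfl⟩ : ∃ b, a = b + 1 := by
    rcases Nat.eq_zero_or_pos a with ha | ha
    · exfalso
      apply h.res_ne_of_isU hu
      rw [← hr]
      congr 1
      rw [hxu, ha, pow_zero, one_mul]
    · exact ⟨a - 1, by omega⟩
  have hu' := hu
  obtain ⟨A, B, C, hA, hC, huC⟩ := hu'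
  have hC0 := h.ne' hC
  have h1 := congrArg D huC
  rw [Derivation.leibniz, map_add, Derivation.leibniz, smul_eq_mul, smul_eq_mul, smul_eq_mul,
    smul_eq_mul] at h1
  set α : M := (D (aeval ξ A) + w * D (aeval ξ B) - u * D (aeval ξ C)) * (aeval ξ C)⁻¹ * u⁻¹
    with hα
  set β : M := aeval ξ B * (aeval ξ C)⁻¹ * u⁻¹ with hβ
  have hCi : (aeval ξ C)⁻¹ ∈ h.ring := h.inv_mem_of (h.isU_poly hC)
  have hui : u⁻¹ ∈ h.ring := h.inv_mem_of hu
  have hαV : α ∈ h.ring := mul_mem (mul_mem (sub_mem (add_mem (h.der_poly_mem D hξ A)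
    (mul_mem h.w_mem (h.der_poly_mem D hξ B))) (mul_mem huV (h.der_poly_mem D hξ C))) hCi) hui
  have hβV : β ∈ h.ring := mul_mem (mul_mem (h.poly_mem B) hCi) hui
  have hDu : D u = u * (α + β * D w) := by
    rw [hα, hβ]
    field_simp
    linear_combination h1
  have h2 : D w * (((b + 1 : ℕ) : M) + w * β) = w * (e0 - α) := by
    have h3 : D x0 = ((b + 1 : ℕ) : M) * w ^ b * D w * u + w ^ (b + 1) * D u := by
      rw [hxu, Derivation.leibniz, Derivation.leibniz_pow, smul_eq_mul, smul_eq_mul, nsmul_eq_mul,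
        smul_eq_mul, Nat.add_sub_cancel]
      ring
    rw [hD, hDu, hxu] at h3
    have h4 : w ^ b * u * (D w * (((b + 1 : ℕ) : M) + w * β)) = w ^ b * u * (w * (e0 - α)) := by
      linear_combination -h3
    exact mul_left_cancel₀ (mul_ne_zero (pow_ne_zero b hw) hu0) h4
  have hg : ((b + 1 : ℕ) : M) + w * β ∈ h.ring := by
    have h3 := h.const_mem ((b + 1 : ℕ) : ℂ)
    rw [map_natCast] at h3
    exact add_mem h3 (mul_mem h.w_mem hβV)
  have hgr : h.res (((b + 1 : ℕ) : M) + w * β) hg ≠ 0 := by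
    have hcm := h.const_mem ((b + 1 : ℕ) : ℂ)
    have h3 : h.res (((b + 1 : ℕ) : M) + w * β) hg =
        h.res (algebraMap ℂ M ((b + 1 : ℕ) : ℂ) + w * β)
          (add_mem hcm (mul_mem h.w_mem hβV)) := by
      congr 1
      rw [map_natCast]
    rw [h3, h.res_add hcm (mul_mem h.w_mem hβV), h.res_mul h.w_mem hβV, h.res_w, zero_mul,
      add_zero, h.res_const]
    intro h4
    have h5 := (algebraMap ℂ h.kap).injective (h4.trans (map_zero _).symm)
    exact Nat.cast_ne_zero.2 (Nat.succ_ne_zero b) h5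
  have hgi := h.inv_mem_of_res hg hgr
  have hg0 : ((b + 1 : ℕ) : M) + w * β ≠ 0 := by
    intro h3
    apply hgr
    rw [← h.res_zero (by rw [← h3]; exact hg)]
    congr 1
  refine ⟨(e0 - α) * (((b + 1 : ℕ) : M) + w * β)⁻¹, mul_mem (sub_mem he0 hαV) hgi, ?_⟩
  rw [← mul_assoc, ← h2]
  field_simp

end

/-! ### the generic point of the branch divisor -/

variable {n d : ℕ} {M : Type} [Field M] [Algebra ℂ M] {f : MvPolynomial (Fin (n + 2)) ℂ}
  {ξ : Fin (n + 1) → M} {w : M}

/-- the generic point of the branch divisor -/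
def xb (h : Dbl (deh (n + 1) f) ξ w) : Fin (n + 2) → h.kap := Fin.cons 1 h.xib

theorem aeval_xb (h : Dbl (deh (n + 1) f) ξ w) (H : MvPolynomial (Fin (n + 2)) ℂ) :
    aeval h.xb H = aeval h.xib (deh (n + 1) H) := (aeval_deh h.xib H).symm

theorem xb_zero (h : Dbl (deh (n + 1) f) ξ w) : aeval h.xb f = 0 := by
  rw [h.aeval_xb, h.aeval_xib_zero]

theorem xb_ker (h : Dbl (deh (n + 1) f) ξ w) (hf : f.IsHomogeneous d) (hd : 1 < d)
    (hp : Prime f) (e : ℕ) (H : MvPolynomial (Fin (n + 2)) ℂ) (hH : H.IsHomogeneous e)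
    (h0 : aeval h.xb H = 0) : f ∣ H := by
  rw [h.aeval_xb, h.aeval_xib_zero] at h0
  exact dvd_of_deh hf hd hp hH h0

theorem xb_top (h : Dbl (deh (n + 1) f) ξ w) : ratioField h.xb = ⊤ := by
  rw [eq_top_iff, ← h.kap_top]
  unfold ratioField
  apply adjoin.mono
  rintro _ ⟨i, rfl⟩
  refine ⟨i.succ, 0, ?_⟩
  rw [xb, Fin.cons_succ, Fin.cons_zero, div_one]

theorem xb_finrank (h : Dbl (deh (n + 1) f) ξ w) : finrank (ratioField h.xb) h.kap = 1 := by
  rw [h.xb_top]
  exact IntermediateField.finrank_top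

/-- the residue field has transcendence degree at least `n` -/
theorem kap_trdeg (h : Dbl (deh (n + 1) f) ξ w) (hf : f.IsHomogeneous d) (hd : 1 < d)
    (hp : Prime f) : (n : Cardinal) ≤ Algebra.trdeg ℂ h.kap := by
  obtain ⟨u, hu, -⟩ := exists_indep (x := h.xb) hf (by omega) hp.ne_zero
    (fun e H hH h0 => h.xb_ker hf hd hp e H hH h0)
  have := hu.cardinalMk_le_trdeg
  rwa [Cardinal.mk_fin] at this


end Dbl

end

end Pool.Agent.H764QD
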