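import Mathlib
import Pool.Agent.H764QD.Ext

/-!
The case in which the ramification divisor is contracted by the inverse of the parametrization.
-/

set_option autoImplicit false

namespace Pool.Agent.H764QD

open MvPolynomial Pool.Agent.TH314.PD Pool.Agent.Y201.LI IntermediateField Module

noncomputable section

namespace Dbl

/-- an irreducible factor which vanishes at a point -/
theorem exists_factor {m : ℕ} {κ : Type} [Field κ] [Algebra ℂ κ] (x : Fin m → κ)
    (P : MvPolynomial (Fin m) ℂ) (hP : P ≠ 0) (h : aeval x P = 0) :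
    ∃ F : MvPolynomial (Fin m) ℂ, Irreducible F ∧ aeval x F = 0 := by
  revert hP h
  induction P using WfDvdMonoid.induction_on_irreducible with
  | zero => intro h; exact absurd rfl h
  | unit u hu =>
    intro _ h
    exfalso
    have := hu.map (aeval x : MvPolynomial (Fin m) ℂ →ₐ[ℂ] κ)
    rw [h] at this
    exact not_isUnit_zero this
  | mul a i ha hi ih =>
    intro _ h
    rw [map_mul, mul_eq_zero] at h
    rcases h with h | h
    · exact ⟨i, hi, h⟩
    · exact ih ha h

variable {n k : ℕ} {M : Type} [Field M] [Algebra ℂ M] {f : MvPolynomial (Fin (n + 1 + 2)) ℂ}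
  {ξ : Fin (n + 1 + 1) → M} {w : M} {al : MvPolynomial (Fin (n + 1 + 1)) ℂ →ₐ[ℂ] M}
  {G : Fin (n + 1 + 1 + 1) → MvPolynomial (Fin (n + 1 + 1)) ℂ}
  {W : MvPolynomial (Fin (n + 1 + 1)) ℂ}

/-- **Extracted ramification divisor.** If all the polynomials of a chart vanish along the
ramification divisor, then they have a common factor or a common double zero. -/
theorem ext_case (h : Dbl (deh (n + 1 + 1) f) ξ w) (hf : f.IsHomogeneous 4)
    (hsm : ∀ z : Fin (n + 1 + 2) → ℂ, (∀ i, eval z (pderiv i f) = 0) → z = 0) (hp : Prime f)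
    (c : Chart ξ w k al G W) (ht : ∀ l, al (X l) ∈ h.ring) (hG0 : al (G 0) ∈ h.ring)
    (hr : h.res (al (G 0)) hG0 = 0) :
    (∃ p, Irreducible p ∧ ∀ i, p ∣ G i) ∨
      ∃ z : Fin (n + 1 + 1) → ℂ, ∀ i, eval z (G i) = 0 ∧ ∀ l, eval z (pderiv l (G i)) = 0 := by
  classical
  have halV : ∀ g, al g ∈ h.ring := by
    intro g
    rw [Chart.al_eq]
    exact h.aeval_mem _ ht g
  -- the residues of the coordinates of the chart
  set tb : Fin (n + 1 + 1) → h.kap := fun l => h.res (al (X l)) (ht l) with htb
  have htbev : ∀ g, aeval tb g = h.res (al g) (halV g) := by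
    intro g
    rw [htb, h.aeval_res (fun l => al (X l)) ht g]
    congr 1
    exact (Chart.al_eq al g).symm
  have hG : ∀ i, aeval tb (G i) = 0 := by
    intro i
    rw [htbev]
    refine Fin.cases hr (fun j => ?_) i
    have h1 : h.res (al (G j.succ)) (halV (G j.succ)) =
        h.res (ξ j * al (G 0)) (mul_mem (h.xi_mem j) hG0) := by
      congr 1
      exact c.ratio j
    rw [h1, h.res_mul (h.xi_mem j) hG0, hr, mul_zero]
  -- the derivations
  have hder : ∀ l, ∃ δ : Derivation ℂ h.kap h.kap, (∀ j, δ (tb j) = 0) ∧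
      ∀ i, δ (h.xb i) = aeval tb (pderiv l (G i)) - aeval tb (pderiv l (G 0)) * h.xb i := by
    intro l
    obtain ⟨D, hD⟩ := c.der l (al (G 0))
    have hDξ : ∀ j, D (ξ j) = al (pderiv l (G j.succ)) - ξ j * al (pderiv l (G 0)) := by
      intro j
      have h1 := hD (G j.succ)
      rw [c.ratio j, Derivation.leibniz, hD (G 0), smul_eq_mul, smul_eq_mul] at h1
      apply mul_left_cancel₀ c.ne
      linear_combination h1
    have hξ : ∀ j, D (ξ j) ∈ h.ring := by
      intro j
      rw [hDξ]
      exact sub_mem (halV _) (mul_mem (h.xi_mem j) (halV _))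
    obtain ⟨y, hy, hDw⟩ := h.ext_der D hξ hG0 hr c.ne (halV (pderiv l (G 0))) (hD (G 0))
    have hwV : D w ∈ h.ring := by
      rw [hDw]
      exact mul_mem h.w_mem hy
    have hDV : ∀ z ∈ h.ring, D z ∈ h.ring := fun z hz => h.der_mem D hξ hwV hz
    obtain ⟨δ, hδ⟩ := h.descend (h.resDer D hDV) (by
      rw [h.resDer_apply D hDV h.w_mem]
      have h1 : h.res (D w) (hDV w h.w_mem) = h.res (w * y) (mul_mem h.w_mem hy) := by
        congr 1
      rw [h1, h.res_mul h.w_mem hy, h.res_w, zero_mul])
    refine ⟨δ, fun j => ?_, fun i => ?_⟩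
    · rw [htb]
      simp only
      rw [hδ (al (X j)) (ht j), h.resDer_apply D hDV (ht j)]
      have h1 : h.res (D (al (X j))) (hDV _ (ht j)) =
          h.res (al (G 0) * al (pderiv l (X j))) (mul_mem hG0 (halV _)) := by
        congr 1
        exact hD (X j)
      rw [h1, h.res_mul hG0 (halV _), hr, zero_mul]
    · refine Fin.cases ?_ (fun j => ?_) i
      · rw [xb, Fin.cons_zero, mul_one, sub_self, Derivation.map_one_eq_zero]
      · have h0 : h.xb j.succ = h.res (ξ j) (h.xi_mem j) := by
          rw [xb, Fin.cons_succ]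
          rfl
        rw [h0, hδ (ξ j) (h.xi_mem j), h.resDer_apply D hDV (h.xi_mem j)]
        have h1 : h.res (D (ξ j)) (hDV _ (h.xi_mem j)) =
            h.res (al (pderiv l (G j.succ)) - ξ j * al (pderiv l (G 0)))
              (sub_mem (halV _) (mul_mem (h.xi_mem j) (halV _))) := by
          congr 1
          exact hDξ j
        rw [h1, h.res_sub (halV _) (mul_mem (h.xi_mem j) (halV _)),
          h.res_mul (h.xi_mem j) (halV _), htbev, htbev]
        ring
  choose δ hδt hδx using hder
  have hδc : ∀ (l : Fin (n + 1 + 1)) (g : MvPolynomial (Fin (n + 1 + 1)) ℂ),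
      δ l (aeval tb g) = 0 := by
    intro l g
    rw [chain_rule (δ l) tb g]
    exact Finset.sum_eq_zero fun j _ => by rw [hδt, mul_zero]
  -- the derivations kill the residue field
  have hzero : ∀ l i, aeval tb (pderiv l (G i)) = aeval tb (pderiv l (G 0)) * h.xb i := by
    intro l
    by_contra hcon
    push Not at hcon
    obtain ⟨L, t, u, v, htr, hu, hv, hx⟩ := line_of_der (δ l) h.xb
      (fun i => aeval tb (pderiv l (G i))) (aeval tb (pderiv l (G 0))) (hδx l)
      (fun i => hδc l _) (hδc l _) (by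
        obtain ⟨i, hi⟩ := hcon
        exact ⟨i, by
          rw [hδx]
          exact sub_ne_zero.2 hi⟩)
    have hxe : h.xb = fun i => t * u i + v i := funext hx
    have h1 := linear_param (M := h.kap) hf (by norm_num) hsm L t htr u v hu hv
      (by rw [← hxe]; exact h.xb_zero)
      (by
        rw [← hxe]
        exact fun e H hH h0 => h.xb_ker hf (by norm_num) hp e H hH h0)
    rw [← hxe, h.xb_finrank] at h1
    omega
  by_cases hc0 : ∃ l, aeval tb (pderiv l (G 0)) ≠ 0
  · -- the chart dominates the ramification divisor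
    left
    obtain ⟨l, hl⟩ := hc0
    have hG00 : G 0 ≠ 0 := by
      intro h0
      apply c.ne
      rw [h0, map_zero]
    obtain ⟨p, hpi, hp0⟩ := exists_factor tb (G 0) hG00 (hG 0)
    refine ⟨p, hpi, fun i => ?_⟩
    have htop : adjoin ℂ (Set.range tb) = ⊤ := by
      rw [eq_top_iff, ← h.kap_top, adjoin_le_iff]
      rintro _ ⟨j, rfl⟩
      have h1 : h.xib j = aeval tb (pderiv l (G j.succ)) / aeval tb (pderiv l (G 0)) := by
        rw [hzero l j.succ, mul_comm, mul_div_cancel_right₀ _ hl, xb, Fin.cons_succ]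
      have hP : ∀ g : MvPolynomial (Fin (n + 1 + 1)) ℂ, aeval tb g ∈ adjoin ℂ (Set.range tb) := by
        intro g
        induction g using MvPolynomial.induction_on with
        | C a =>
          rw [aeval_C]
          exact IntermediateField.algebraMap_mem _ _
        | add p q hp hq =>
          rw [map_add]
          exact add_mem hp hq
        | mul_X p i hp =>
          rw [map_mul, aeval_X]
          exact mul_mem hp (subset_adjoin _ _ ⟨i, rfl⟩)
      rw [h1]
      exact div_mem (hP _) (hP _)
    have halg := alg_of_gen tb htop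
    have hrk : ((n + 1 : ℕ) : ℕ∞) ≤ H450Al.rk ℂ (Set.range tb) := by
      obtain ⟨u, hu, -⟩ := exists_indep (x := h.xb) hf (by omega) hp.ne_zero
        (fun e H hH h0 => h.xb_ker hf (by norm_num) hp e H hH h0)
      have h1 := H450Al.rk_of_indep (k := ℂ) u Set.univ
        (hu.comp (fun j : (Set.univ : Set (Fin (n + 1))) => j.1) Subtype.val_injective)
      have h2 : H450Al.rk ℂ (Set.range u) ≤ H450Al.rk ℂ (Set.range tb) := by
        refine H450Al.rk_mono ℂ ?_
        rintro z -
        rw [H450Al.mem_cl]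
        exact halg.isAlgebraic z
      refine le_trans ?_ (h1.trans h2)
      rw [Set.encard_univ]
      simp
    exact (H450Al.gauss_lemma (m := n) tb hrk p hpi hp0).1 (G i) (hG i)
  · right
    push Not at hc0
    let I : Ideal (MvPolynomial (Fin (n + 1 + 1)) ℂ) :=
      RingHom.ker (aeval tb : MvPolynomial (Fin (n + 1 + 1)) ℂ →ₐ[ℂ] h.kap)
    have hI : I ≠ ⊤ := RingHom.ker_ne_top _
    obtain ⟨z, hz⟩ := exists_zero I hI
    refine ⟨z, fun i => ⟨hz _ ?_, fun l => hz _ ?_⟩⟩
    · exact hG i
    · change aeval tb (pderiv l (G i)) = 0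
      rw [hzero l i, hc0 l, zero_mul]

end Dbl

end

end Pool.Agent.H764QD
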