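import Mathlib
import Pool.Agent.H764QD.Ext2

/-!
Parametrizations of degree at most three have no double base points.
-/

set_option autoImplicit false

namespace Pool.Agent.H764QD

open MvPolynomial Pool.Agent.TH314.PD Pool.Agent.Y201.LI Pool.Agent.Y201.C3 IntermediateField
  Module

noncomputable section

theorem Ph_natDegree {σ L K : Type} [Fintype σ] [Field L] [Field K] [Algebra L K] (p v : σ → K)
    (f : MvPolynomial σ L) : (Ph p v f).natDegree ≤ f.totalDegree := by
  classical
  unfold Ph
  rw [aeval_def, eval₂_eq']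
  refine Polynomial.natDegree_sum_le_of_forall_le _ _ fun m hm => ?_
  rw [IsScalarTower.algebraMap_apply L K (Polynomial K), ← Polynomial.C_eq_algebraMap]
  refine (Polynomial.natDegree_C_mul_le _ _).trans ?_
  refine (Polynomial.natDegree_prod_le _ _).trans ?_
  have h1 : ∀ j ∈ (Finset.univ : Finset σ),
      ((Polynomial.C (p j) + Polynomial.X * Polynomial.C (v j)) ^ m j).natDegree ≤ m j := by
    intro j _
    refine Polynomial.natDegree_pow_le_of_le (m j) (?_ : _ ≤ 1) |>.trans (by rw [mul_one])
    compute_degree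
  refine (Finset.sum_le_sum h1).trans ?_
  have h2 := le_totalDegree hm
  rwa [Finsupp.sum_fintype _ _ (fun _ => rfl)] at h2

variable {n : ℕ} {M : Type} [Field M] [Algebra ℂ M] {f : MvPolynomial (Fin (n + 2)) ℂ}
  {ξ : Fin (n + 1) → M} {w : M} {al : MvPolynomial (Fin (n + 1)) ℂ →ₐ[ℂ] M}
  {G : Fin (n + 1 + 1) → MvPolynomial (Fin (n + 1)) ℂ} {W : MvPolynomial (Fin (n + 1)) ℂ}
  {k : ℕ}

namespace Dbl

/-- values of forms at the point of the chart -/
theorem aeval_chart (_h : Dbl (deh (n + 1) f) ξ w) (c : Chart ξ w k al G W) {e : ℕ}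
    {H : MvPolynomial (Fin (n + 2)) ℂ} (hH : H.IsHomogeneous e) :
    aeval (fun i => al (G i)) H = al (G 0) ^ e * aeval ξ (deh (n + 1) H) := by
  have h1 : (fun i => al (G i)) = fun i => al (G 0) * (Fin.cons 1 ξ : Fin (n + 2) → M) i := by
    funext i
    refine Fin.cases ?_ (fun j => ?_) i
    · rw [Fin.cons_zero, mul_one]
    · rw [Fin.cons_succ, c.ratio, mul_comm]
  rw [h1, aeval_smul_form hH, aeval_deh]

theorem chart_gen (h : Dbl (deh (n + 1) f) ξ w) (c : Chart ξ w k al G W) (e : ℕ)
    (H : MvPolynomial (Fin (n + 2)) ℂ) (hH : H.IsHomogeneous e)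
    (h0 : aeval (fun i => al (G i)) H = 0) : H = 0 := by
  rw [h.aeval_chart c hH] at h0
  rcases mul_eq_zero.1 h0 with h1 | h1
  · exact absurd h1 (pow_ne_zero e c.ne)
  · exact generic_zero H hH (h.inj (by rw [map_zero]; exact h1))

theorem chart_eq (h : Dbl (deh (n + 1) f) ξ w) (hf : f.IsHomogeneous 4)
    (c : Chart ξ w k al G W) : al W ^ 2 = aeval (fun i => al (G i)) f := by
  rw [h.aeval_chart c hf, c.eqW, ← h.eq]
  ring

theorem cover_top (h : Dbl (deh (n + 1) f) ξ w) (c : Chart ξ w k al G W) :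
    coverField (fun i => al (G i)) (al W) = ⊤ := by
  rw [eq_top_iff]
  rintro z -
  have hξ : ∀ j, ξ j ∈ coverField (fun i => al (G i)) (al W) := by
    intro j
    refine subset_adjoin _ _ (Or.inl ⟨j.succ, 0, ?_⟩)
    change ξ j = al (G j.succ) / al (G 0)
    rw [c.ratio, mul_div_cancel_right₀ _ c.ne]
  have hw : w ∈ coverField (fun i => al (G i)) (al W) := by
    refine subset_adjoin _ _ (Or.inr ⟨0, ?_⟩)
    change w = al W / al (G 0) ^ 2
    rw [c.eqW, mul_div_cancel_right₀ _ (pow_ne_zero 2 c.ne)]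
  have hP : ∀ A : MvPolynomial (Fin (n + 1)) ℂ,
      aeval ξ A ∈ coverField (fun i => al (G i)) (al W) := by
    intro A
    induction A using MvPolynomial.induction_on with
    | C a =>
      rw [aeval_C]
      exact IntermediateField.algebraMap_mem _ _
    | add p q hp hq =>
      rw [map_add]
      exact add_mem hp hq
    | mul_X p i hp =>
      rw [map_mul, aeval_X]
      exact mul_mem hp (hξ i)
  obtain ⟨A, B, C, hC, hz⟩ := h.gen z
  have hC0 := h.ne hC
  rw [eq_div_of_mul_eq hC0 hz]
  exact div_mem (add_mem (hP A) (mul_mem (hP B) hw)) (hP C)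

/-- **No double base points.** -/
theorem no_double_point (h : Dbl (deh (n + 1) f) ξ w) (hf : f.IsHomogeneous 4)
    (hsm : ∀ z : Fin (n + 2) → ℂ, (∀ i, eval z (pderiv i f) = 0) → z = 0)
    (c : Chart ξ w 3 al G W) (z : Fin (n + 1) → ℂ)
    (hz : ∀ i, eval z (G i) = 0 ∧ ∀ l, eval z (pderiv l (G i)) = 0) : False := by
  classical
  set s : Fin (n + 1) → M := fun l => al (X l) - algebraMap ℂ M (z l) with hs
  set lam : M := s (Fin.last n) with hlam
  have hlam0 : lam ≠ 0 := by
    intro h0
    have h1 : al (X (Fin.last n) - C (z (Fin.last n))) = 0 := by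
      rw [map_sub, show al (C (z (Fin.last n))) = algebraMap ℂ M (z (Fin.last n)) from
        al.commutes _]
      exact h0
    have h2 := c.inj (h1.trans (map_zero al).symm)
    have h3 := congrArg (MvPolynomial.eval (fun _ => z (Fin.last n) + 1)) h2
    rw [map_sub, eval_X, eval_C, map_zero] at h3
    have : (1 : ℂ) = 0 := by linear_combination h3
    exact one_ne_zero this
  set σ : Fin (n + 1) → M := fun l => s l / lam with hσ
  have hσl : σ (Fin.last n) = 1 := div_self hlam0
  set y : Fin (n + 1) → M := fun l => if l = Fin.last n then lam else σ l with hy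
  have hyl : y (Fin.last n) = lam := if_pos rfl
  have hyo : ∀ l, l ≠ Fin.last n → y l = σ l := fun l hl => if_neg hl
  -- everything is generated by the `y l`
  have hσy : ∀ l, σ l ∈ adjoin ℂ (y '' {Fin.last n}ᶜ) := by
    intro l
    by_cases hl : l = Fin.last n
    · rw [hl, hσl]
      exact one_mem _
    · rw [← hyo l hl]
      exact subset_adjoin _ _ ⟨l, hl, rfl⟩
  have hgen : adjoin ℂ (Set.range y) = ⊤ := by
    rw [eq_top_iff, ← Chart.gen_of_frac al c.frac, adjoin_le_iff]
    rintro _ ⟨l, rfl⟩
    change al (X l) ∈ _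
    have h1 : al (X l) = algebraMap ℂ M (z l) + lam * σ l := by
      rw [hσ]
      simp only
      rw [mul_div_cancel₀ _ hlam0, hs]
      ring
    rw [h1]
    refine add_mem (IntermediateField.algebraMap_mem _ _) (mul_mem ?_ ?_)
    · rw [← hyl]
      exact subset_adjoin _ _ ⟨_, rfl⟩
    · exact adjoin.mono ℂ _ _ (Set.image_subset_range _ _) (hσy l)
  have hyind : AlgebraicIndependent ℂ y :=
    (indep_of_gen y hgen (by rw [c.trdeg])).1
  set L : IntermediateField ℂ M := adjoin ℂ (y '' {Fin.last n}ᶜ) with hL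
  have htr : Transcendental L lam := by
    have := (linear_poly y hyind (Fin.last n)).1
    rwa [hyl] at this
  have htop : adjoin L {lam} = ⊤ := by
    have h1 : (adjoin L {lam}).restrictScalars ℂ = ⊤ := by
      rw [eq_top_iff, ← hgen, adjoin_le_iff]
      rintro _ ⟨l, rfl⟩
      by_cases hl : l = Fin.last n
      · rw [hl, hyl]
        exact mem_adjoin_simple_self L lam
      · exact IntermediateField.algebraMap_mem (adjoin L {lam})
          (⟨y l, subset_adjoin _ _ ⟨l, hl, rfl⟩⟩ : L)
    rw [eq_top_iff]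
    rintro q -
    have h2 : q ∈ (adjoin L {lam}).restrictScalars ℂ := by
      rw [h1]
      exact IntermediateField.mem_top
    exact h2
  let σL : Fin (n + 1) → L := fun l => ⟨σ l, hσy l⟩
  let zL : Fin (n + 1) → L := fun l => algebraMap ℂ L (z l)
  let q : Fin (n + 2) → Polynomial L := fun i => Ph zL σL (G i)
  have hq0 : ∀ i, (q i).coeff 0 = 0 := by
    intro i
    rw [Ph_coeff_zero]
    have h1 : aeval zL (G i) = algebraMap ℂ L (eval z (G i)) := by
      rw [← aeval_eq_eval]
      exact aeval_algebraMap_apply L z (G i)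
    rw [h1, (hz i).1, map_zero]
  have hq1 : ∀ i, (q i).coeff 1 = 0 := by
    intro i
    rw [Ph_coeff_one]
    refine Finset.sum_eq_zero fun l _ => ?_
    have h1 : aeval zL (pderiv l (G i)) = algebraMap ℂ L (eval z (pderiv l (G i))) := by
      rw [← aeval_eq_eval]
      exact aeval_algebraMap_apply L z (pderiv l (G i))
    rw [h1, (hz i).2 l, map_zero, mul_zero]
  have hqd : ∀ i, (q i).natDegree < 4 := fun i =>
    lt_of_le_of_lt ((Ph_natDegree zL σL (G i)).trans (c.deg i)) (by norm_num)
  have hqv : ∀ i, al (G i) = Polynomial.eval₂ (algebraMap L M) lam (q i) := by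
    intro i
    have h1 := MvPolynomial.hom_eval₂ (G i) (algebraMap ℂ (Polynomial L))
      (Polynomial.eval₂RingHom (algebraMap L M) lam)
      (fun j => Polynomial.C (zL j) + Polynomial.X * Polynomial.C (σL j))
    have h2 : Polynomial.eval₂ (algebraMap L M) lam (q i) = _ := h1
    rw [h2, Chart.al_eq, aeval_def]
    congr 1
    · ext a
      rw [RingHom.comp_apply, Polynomial.coe_eval₂RingHom,
        IsScalarTower.algebraMap_apply ℂ L (Polynomial L), ← Polynomial.C_eq_algebraMap,
        Polynomial.eval₂_C, ← IsScalarTower.algebraMap_apply]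
    · funext j
      rw [Polynomial.coe_eval₂RingHom, Polynomial.eval₂_add, Polynomial.eval₂_mul,
        Polynomial.eval₂_X, Polynomial.eval₂_C, Polynomial.eval₂_C]
      change al (X j) = algebraMap ℂ M (z j) + lam * σ j
      rw [hσ]
      simp only
      rw [mul_div_cancel₀ _ hlam0, hs]
      ring
  have hx : ∀ i, al (G i) = lam ^ 2 * ((q i).coeff 2 : M) + lam ^ 3 * ((q i).coeff 3 : M) := by
    intro i
    rw [hqv, Polynomial.eval₂_eq_sum_range' _ (hqd i)]
    simp only [Finset.sum_range_succ, Finset.sum_range_zero, hq0, hq1, map_zero, zero_mul, zero_add]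
    change ((q i).coeff 2 : M) * lam ^ 2 + ((q i).coeff 3 : M) * lam ^ 3 = _
    ring
  have h3 := lines_over hf hsm L lam htr htop (fun i => al (G i)) (h.chart_gen c) (al W)
    (h.chart_eq hf c) (fun i => ((q i).coeff 2 : M)) (fun i => ((q i).coeff 3 : M))
    (fun i => ((q i).coeff 2).2) (fun i => ((q i).coeff 3).2) (lam ^ 2) (lam ^ 3) hx
  have h4 := cover_dvd hf (fun i => al (G i)) ⟨0, c.ne⟩ (al W) (h.chart_eq hf c) (by decide) h3
  rw [h.cover_top c, IntermediateField.finrank_top] at h4
  omega

end Dbl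

end

end Pool.Agent.H764QD
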