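import Mathlib
import Pool.Agent.H764QD.Dpt

/-!
The case in which the ramification divisor is a divisor of the chart: derivations.
-/

set_option autoImplicit false

namespace Pool.Agent.H764QD

open MvPolynomial Pool.Agent.TH314.PD IntermediateField Module

noncomputable section

variable {n : ℕ} {M : Type} [Field M] [Algebra ℂ M] {f : MvPolynomial (Fin (n + 2)) ℂ}
  {ξ : Fin (n + 1) → M} {w : M} {al : MvPolynomial (Fin (n + 1)) ℂ →ₐ[ℂ] M}
  {G : Fin (n + 1 + 1) → MvPolynomial (Fin (n + 1)) ℂ} {W : MvPolynomial (Fin (n + 1)) ℂ}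
  {k : ℕ}

namespace Dbl

theorem al_mem (h : Dbl (deh (n + 1) f) ξ w) (ht : ∀ l, al (X l) ∈ h.ring)
    (g : MvPolynomial (Fin (n + 1)) ℂ) : al g ∈ h.ring := by
  rw [Chart.al_eq]
  exact h.aeval_mem _ ht g

/-- the residues of the coordinates of the chart -/
def tb (h : Dbl (deh (n + 1) f) ξ w) (ht : ∀ l, al (X l) ∈ h.ring) : Fin (n + 1) → h.kap :=
  fun l => h.res (al (X l)) (ht l)

theorem tb_ev (h : Dbl (deh (n + 1) f) ξ w) (ht : ∀ l, al (X l) ∈ h.ring)
    (g : MvPolynomial (Fin (n + 1)) ℂ) : aeval (h.tb ht) g = h.res (al g) (h.al_mem ht g) := by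
  unfold tb
  rw [h.aeval_res (fun l => al (X l)) ht g]
  congr 1
  exact (Chart.al_eq al g).symm

theorem res_inv (h : Dbl (deh (n + 1) f) ξ w) {z : M} (hz : z ∈ h.ring) (h0 : h.res z hz ≠ 0) :
    h.res z⁻¹ (h.inv_mem_of_res hz h0) = (h.res z hz)⁻¹ := by
  have hz0 : z ≠ 0 := by
    rintro rfl
    exact h0 (h.res_zero hz)
  refine eq_inv_of_mul_eq_one_left ?_
  rw [← h.res_mul (h.inv_mem_of_res hz h0) hz]
  rw [← h.res_one (by rw [← inv_mul_cancel₀ hz0]; exact mul_mem (h.inv_mem_of_res hz h0) hz)]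
  congr 1
  exact inv_mul_cancel₀ hz0

/-- the derivations along the coordinates of the chart are integral -/
theorem der_int (h : Dbl (deh (n + 1) f) ξ w) (c : Chart ξ w k al G W)
    (ht : ∀ l, al (X l) ∈ h.ring) (hG0 : al (G 0) ∈ h.ring) (hr : h.res (al (G 0)) hG0 ≠ 0)
    (l : Fin (n + 1)) : ∃ D : Derivation ℂ M M, (∀ g, D (al g) = al (pderiv l g)) ∧
      ∀ z ∈ h.ring, D z ∈ h.ring := by
  obtain ⟨D, hD⟩ := c.der l 1
  have hD' : ∀ g, D (al g) = al (pderiv l g) := fun g => by rw [hD, one_mul]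
  have hi := h.inv_mem_of_res hG0 hr
  refine ⟨D, hD', fun z hz => h.der_mem D (fun j => ?_) ?_ hz⟩
  · have h1 := hD' (G j.succ)
    rw [c.ratio j, Derivation.leibniz, hD' (G 0), smul_eq_mul, smul_eq_mul] at h1
    have h2 : D (ξ j) = (al (pderiv l (G j.succ)) - ξ j * al (pderiv l (G 0))) *
        (al (G 0))⁻¹ := by
      rw [← h1]
      have := c.ne
      field_simp
      ring
    rw [h2]
    exact mul_mem (sub_mem (h.al_mem ht _) (mul_mem (h.xi_mem j) (h.al_mem ht _))) hi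
  · have h1 := hD' W
    rw [c.eqW, Derivation.leibniz, Derivation.leibniz_pow, hD' (G 0), smul_eq_mul, smul_eq_mul,
      nsmul_eq_mul, smul_eq_mul, pow_one] at h1
    have h2 : D w = (al (pderiv l W) - w * (((2 : ℕ) : M) * (al (G 0) * al (pderiv l (G 0))))) *
        (al (G 0))⁻¹ * (al (G 0))⁻¹ := by
      rw [← h1]
      have := c.ne
      field_simp
      ring
    have h3 : ((2 : ℕ) : M) ∈ h.ring := by
      have := h.const_mem ((2 : ℕ) : ℂ)
      rwa [map_natCast] at this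
    rw [h2]
    exact mul_mem (mul_mem (sub_mem (h.al_mem ht _) (mul_mem h.w_mem
      (mul_mem h3 (mul_mem (h.al_mem ht _) (h.al_mem ht _))))) hi) hi

/-- the derivation with given values on the coordinates -/
theorem exists_dv (h : Dbl (deh (n + 1) f) ξ w) (c : Chart ξ w k al G W)
    (ht : ∀ l, al (X l) ∈ h.ring) (hG0 : al (G 0) ∈ h.ring) (hr : h.res (al (G 0)) hG0 ≠ 0)
    (v : Fin (n + 1) → h.kap) : ∃ d : Derivation ℂ h.ring h.kap,
      ∀ g, d ⟨al g, h.al_mem ht g⟩ = ∑ l, v l * aeval (h.tb ht) (pderiv l g) := by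
  choose D hD hDV using h.der_int c ht hG0 hr
  refine ⟨Derivation.mk' (R := ℂ) (A := h.ring) (M := h.kap)
    { toFun := fun z => ∑ l, v l * h.resDer (D l) (hDV l) z
      map_add' := by
        intro y z
        simp only [map_add, mul_add, Finset.sum_add_distrib]
      map_smul' := by
        intro a z
        simp only [Derivation.map_smul, mul_smul_comm, RingHom.id_apply, Finset.smul_sum] }
    (by
      intro y z
      change ∑ l, v l * h.resDer (D l) (hDV l) (y * z) =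
        y • ∑ l, v l * h.resDer (D l) (hDV l) z + z • ∑ l, v l * h.resDer (D l) (hDV l) y
      simp only [Derivation.leibniz, Finset.smul_sum, ← Finset.sum_add_distrib, mul_add,
        mul_smul_comm]), fun g => ?_⟩
  change ∑ l, v l * h.resDer (D l) (hDV l) ⟨al g, h.al_mem ht g⟩ = _
  refine Finset.sum_congr rfl fun l _ => ?_
  rw [h.resDer_apply (D l) (hDV l) (h.al_mem ht g), h.tb_ev]
  congr 2
  exact hD l g

/-- the value on `w` -/
theorem dv_w (h : Dbl (deh (n + 1) f) ξ w) (c : Chart ξ w k al G W)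
    (ht : ∀ l, al (X l) ∈ h.ring) (hG0 : al (G 0) ∈ h.ring) (hr : h.res (al (G 0)) hG0 ≠ 0)
    (d : Derivation ℂ h.ring h.kap) (hd : d ⟨al W, h.al_mem ht W⟩ = 0) :
    d ⟨w, h.w_mem⟩ = 0 := by
  have h1 : (⟨al W, h.al_mem ht W⟩ : h.ring) = ⟨w, h.w_mem⟩ * ⟨al (G 0), hG0⟩ ^ 2 := by
    apply Subtype.ext
    exact c.eqW
  rw [h1, d.leibniz] at hd
  have h2 : (⟨w, h.w_mem⟩ : h.ring) • d (⟨al (G 0), hG0⟩ ^ 2) = 0 := by
    rw [Algebra.smul_def]
    have h3 : algebraMap h.ring h.kap ⟨w, h.w_mem⟩ = 0 := h.res_w h.w_mem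
    rw [h3, zero_mul]
  rw [h2, zero_add, Algebra.smul_def, map_pow] at hd
  rcases mul_eq_zero.1 hd with h3 | h3
  · exact absurd (pow_eq_zero_iff two_ne_zero |>.1 h3) hr
  · exact h3

/-- a derivation which multiplies the point by a scalar vanishes -/
theorem dv_zero (h : Dbl (deh (n + 1) f) ξ w) (c : Chart ξ w k al G W)
    (ht : ∀ l, al (X l) ∈ h.ring) (hG0 : al (G 0) ∈ h.ring) (hr : h.res (al (G 0)) hG0 ≠ 0)
    (v : Fin (n + 1) → h.kap) (a : h.kap)
    (hW : ∑ l, v l * aeval (h.tb ht) (pderiv l W) = 0)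
    (hG : ∀ i, a * aeval (h.tb ht) (G i) + ∑ l, v l * aeval (h.tb ht) (pderiv l (G i)) = 0) :
    a = 0 ∧ v = 0 := by
  classical
  obtain ⟨d, hd⟩ := h.exists_dv c ht hG0 hr v
  have hw := h.dv_w c ht hG0 hr d (by rw [hd]; exact hW)
  obtain ⟨δ, hδ⟩ := h.descend d hw
  have hδg : ∀ g : MvPolynomial (Fin (n + 1)) ℂ,
      δ (aeval (h.tb ht) g) = ∑ l, v l * aeval (h.tb ht) (pderiv l g) := by
    intro g
    rw [h.tb_ev, hδ _ (h.al_mem ht g), hd]
  have hδG : ∀ i, δ (aeval (h.tb ht) (G i)) = -a * aeval (h.tb ht) (G i) := by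
    intro i
    rw [hδg]
    linear_combination hG i
  have hx0 : aeval (h.tb ht) (G 0) ≠ 0 := by
    rw [h.tb_ev]
    exact hr
  have hxib : ∀ j, h.xib j = aeval (h.tb ht) (G j.succ) / aeval (h.tb ht) (G 0) := by
    intro j
    rw [eq_div_iff hx0, h.tb_ev, h.tb_ev]
    unfold xib
    rw [← h.res_mul (h.xi_mem j) (h.al_mem ht _)]
    congr 1
    exact (c.ratio j).symm
  have hδ0 : δ = 0 := by
    have htop : Algebra.IsAlgebraic (IntermediateField.adjoin ℂ (Set.range h.xib)) h.kap := by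
      rw [h.kap_top]
      exact ⟨fun z => isAlgebraic_algebraMap (⟨z, IntermediateField.mem_top⟩ :
        (⊤ : IntermediateField ℂ h.kap))⟩
    refine W602.GT.der_eq_zero δ (Set.range h.xib) htop ?_
    rintro _ ⟨j, rfl⟩
    rw [hxib, Derivation.leibniz_div, hδG, hδG]
    simp only [smul_eq_mul]
    ring
  constructor
  · have h1 := hδG 0
    rw [hδ0, Derivation.zero_apply] at h1
    have h2 : a * aeval (h.tb ht) (G 0) = 0 := by linear_combination h1
    rcases mul_eq_zero.1 h2 with h3 | h3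
    · exact h3
    · exact absurd h3 hx0
  · funext l
    have h1 := hδg (X l)
    rw [hδ0, Derivation.zero_apply, Finset.sum_eq_single l, pderiv_X_self, map_one, mul_one] at h1
    · exact h1.symm
    · intro b _ hb
      rw [pderiv_X_of_ne (Ne.symm hb), map_zero, mul_zero]
    · intro h2
      exact absurd (Finset.mem_univ _) h2

end Dbl

end

end Pool.Agent.H764QD
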