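import Mathlib

/-!
Linear algebra: a singular square matrix.
-/

set_option autoImplicit false

namespace Pool.Agent.H764QD

theorem la {κ : Type} [Field κ] {n : ℕ} (A : Option (Fin (n + 1)) → Fin (n + 2) → κ)
    (ws : Option (Fin (n + 1)) → κ) (Y z : Fin (n + 2) → κ) (hY : Y 0 = 1)
    (hA : ∀ i, ∑ j, A i j * Y j = 0)
    (hK : ∀ g : Option (Fin (n + 1)) → κ, (∀ j, ∑ i, g i * A i j = 0) → ∑ i, g i * ws i = 0 →
      g = 0) (q τ : κ) (hq : q ≠ 0) (hz0 : z 0 = 0)
    (heq : ∀ i, ∑ j, A i j * z j + q * ws i * τ = 0) : τ = 0 ∧ z = 0 := by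
  classical
  let T : (Option (Fin (n + 1)) → κ) →ₗ[κ] (Fin (n + 2) → κ) :=
    { toFun := fun g j => ∑ i, g i * A i j
      map_add' := by
        intro g g'
        funext j
        simp only [Pi.add_apply, add_mul, Finset.sum_add_distrib]
      map_smul' := by
        intro c g
        funext j
        simp only [Pi.smul_apply, smul_eq_mul, RingHom.id_apply, Finset.mul_sum, mul_assoc] }
  have hT : ∀ g j, T g j = ∑ i, g i * A i j := fun g j => rfl
  have hTY : ∀ (u : Fin (n + 2) → κ) (g), (∀ i, ∑ j, A i j * u j = 0) →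
      ∑ j, u j * T g j = 0 := by
    intro u g hu
    have h1 : ∀ j, u j * T g j = ∑ i, g i * (A i j * u j) := by
      intro j
      rw [hT, Finset.mul_sum]
      exact Finset.sum_congr rfl fun i _ => by ring
    rw [Finset.sum_congr rfl fun j _ => h1 j, Finset.sum_comm]
    refine Finset.sum_eq_zero fun i _ => ?_
    rw [← Finset.mul_sum, hu i, mul_zero]
  -- a nonzero kernel vector
  obtain ⟨g, hgker, hg0⟩ : ∃ g, T g = 0 ∧ g ≠ 0 := by
    by_contra hcon
    push Not at hcon
    have hinj : Function.Injective T := by
      rw [← LinearMap.ker_eq_bot, LinearMap.ker_eq_bot']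
      exact hcon
    have hsurj : Function.Surjective T := by
      refine (LinearMap.injective_iff_surjective_of_finrank_eq_finrank ?_).1 hinj
      rw [Module.finrank_fintype_fun_eq_card, Module.finrank_fintype_fun_eq_card,
        Fintype.card_option, Fintype.card_fin, Fintype.card_fin]
    obtain ⟨g, hg⟩ := hsurj (Pi.single 0 1)
    have h1 := hTY Y g hA
    rw [hg, Finset.sum_eq_single 0, Pi.single_eq_same, hY, mul_one] at h1
    · exact one_ne_zero h1
    · intro b _ hb
      rw [Pi.single_eq_of_ne hb, mul_zero]
    · intro h2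
      exact absurd (Finset.mem_univ _) h2
  have hgA : ∀ j, ∑ i, g i * A i j = 0 := fun j => congrFun hgker j
  have hgw : ∑ i, g i * ws i ≠ 0 := fun h0 => hg0 (hK g hgA h0)
  have hτ : τ = 0 := by
    have h1 : ∑ i, g i * (∑ j, A i j * z j + q * ws i * τ) = 0 :=
      Finset.sum_eq_zero fun i _ => by rw [heq i, mul_zero]
    have h2 : ∑ i, g i * (∑ j, A i j * z j + q * ws i * τ) =
        ∑ j, z j * (∑ i, g i * A i j) + q * τ * ∑ i, g i * ws i := by
      simp only [mul_add, Finset.sum_add_distrib, Finset.mul_sum]
      rw [Finset.sum_comm]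
      congr 1
      · exact Finset.sum_congr rfl fun j _ => Finset.sum_congr rfl fun i _ => by ring
      · exact Finset.sum_congr rfl fun i _ => by ring
    rw [h2, Finset.sum_eq_zero fun j _ => by rw [hgA j, mul_zero], zero_add] at h1
    rcases mul_eq_zero.1 h1 with h3 | h3
    · exact (mul_eq_zero.1 h3).resolve_left hq
    · exact absurd h3 hgw
  refine ⟨hτ, ?_⟩
  have hz : ∀ i, ∑ j, A i j * z j = 0 := by
    intro i
    have := heq i
    rwa [hτ, mul_zero, add_zero] at this
  by_contra hzne
  obtain ⟨j1, hj1⟩ : ∃ j, z j ≠ 0 := by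
    by_contra hcon
    push Not at hcon
    exact hzne (funext hcon)
  let S : (Fin (n + 2) → κ) →ₗ[κ] κ × κ :=
    { toFun := fun r => (∑ j, Y j * r j, ∑ j, z j * r j)
      map_add' := by
        intro r r'
        simp only [Pi.add_apply, mul_add, Finset.sum_add_distrib, Prod.mk_add_mk]
      map_smul' := by
        intro c r
        simp only [Pi.smul_apply, smul_eq_mul, RingHom.id_apply, Prod.smul_mk, Finset.mul_sum]
        congr 1
        · exact Finset.sum_congr rfl fun j _ => by ring
        · exact Finset.sum_congr rfl fun j _ => by ring }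
  have hS : ∀ (u : Fin (n + 2) → κ) (j : Fin (n + 2)) (a : κ),
      ∑ l, u l * (Pi.single j a : Fin (n + 2) → κ) l = u j * a := by
    intro u j a
    rw [Finset.sum_eq_single j, Pi.single_eq_same]
    · intro b _ hb
      rw [Pi.single_eq_of_ne hb, mul_zero]
    · intro h2
      exact absurd (Finset.mem_univ _) h2
  have hSsurj : Function.Surjective S := by
    rintro ⟨a, b⟩
    refine ⟨Pi.single 0 (a - Y j1 * (b / z j1)) + Pi.single j1 (b / z j1), ?_⟩
    rw [map_add]
    change (_, _) + (_, _) = _
    rw [hS, hS, hS, hS, hY, hz0, Prod.mk_add_mk]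
    congr 1
    · ring
    · field_simp
      ring
  have h1 := LinearMap.finrank_range_add_finrank_ker S
  have h2 := LinearMap.finrank_range_add_finrank_ker T
  rw [LinearMap.range_eq_top.2 hSsurj, finrank_top, Module.finrank_prod, Module.finrank_self,
    Module.finrank_fintype_fun_eq_card, Fintype.card_fin] at h1
  rw [Module.finrank_fintype_fun_eq_card, Fintype.card_option, Fintype.card_fin] at h2
  have h3 : LinearMap.range T ≤ LinearMap.ker S := by
    rintro _ ⟨g, rfl⟩
    rw [LinearMap.mem_ker]
    change (_, _) = _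
    rw [hTY Y g hA, hTY z g hz]
    rfl
  have h4 := Submodule.finrank_mono h3
  have h5 : Module.finrank κ (LinearMap.ker T) ≤ 1 := by
    let ψ : LinearMap.ker T →ₗ[κ] κ :=
      { toFun := fun g => ∑ i, g.1 i * ws i
        map_add' := by
          intro g g'
          simp only [Submodule.coe_add, Pi.add_apply, add_mul, Finset.sum_add_distrib]
        map_smul' := by
          intro c g
          simp only [Submodule.coe_smul, Pi.smul_apply, smul_eq_mul, RingHom.id_apply,
            Finset.mul_sum, mul_assoc] }
    have hψ : Function.Injective ψ := by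
      rw [← LinearMap.ker_eq_bot, LinearMap.ker_eq_bot']
      intro g hg
      apply Subtype.ext
      exact hK g.1 (fun j => congrFun g.2 j) hg
    have := LinearMap.finrank_le_finrank_of_injective hψ
    rwa [Module.finrank_self] at this
  omega

end Pool.Agent.H764QD
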