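import Mathlib
import Pool.Agent.H764QD.Dom1
import Pool.Agent.H764QD.LA

/-!
The case in which the ramification divisor is a divisor of the chart: nondegeneracy.
-/

set_option autoImplicit false

namespace Pool.Agent.H764QD

open MvPolynomial Pool.Agent.TH314.PD IntermediateField Module

noncomputable section

variable {n : ℕ}

/-- combinations of the partial derivatives -/
def pal (f : MvPolynomial (Fin (n + 2)) ℂ) (Q : Matrix (Fin (n + 2)) (Fin (n + 2)) ℂ)
    (j : Fin (n + 2)) : MvPolynomial (Fin (n + 2)) ℂ := ∑ i, C (Q j i) * pderiv i f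

/-- new coordinates -/
def gam (G : Fin (n + 2) → MvPolynomial (Fin (n + 1)) ℂ)
    (R : Matrix (Fin (n + 2)) (Fin (n + 2)) ℂ) (j : Fin (n + 2)) :
    MvPolynomial (Fin (n + 1)) ℂ := ∑ i, C (R i j) * G i

theorem pal_hom {f : MvPolynomial (Fin (n + 2)) ℂ} (hf : f.IsHomogeneous 4)
    (Q : Matrix (Fin (n + 2)) (Fin (n + 2)) ℂ) (j : Fin (n + 2)) : (pal f Q j).IsHomogeneous 3 :=
  hom_comb _ fun _ => hf.pderiv

variable {M : Type} [Field M] [Algebra ℂ M] {f : MvPolynomial (Fin (n + 2)) ℂ}
  {ξ : Fin (n + 1) → M} {w : M} {al : MvPolynomial (Fin (n + 1)) ℂ →ₐ[ℂ] M}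
  {G : Fin (n + 2) → MvPolynomial (Fin (n + 1)) ℂ} {W : MvPolynomial (Fin (n + 1)) ℂ}
  {k : ℕ} {R Q : Matrix (Fin (n + 2)) (Fin (n + 2)) ℂ}

theorem aeval_pal {A : Type} [CommRing A] [Algebra ℂ A] (x : Fin (n + 2) → A) (j : Fin (n + 2)) :
    aeval x (pal f Q j) = ∑ i, algebraMap ℂ A (Q j i) * aeval x (pderiv i f) := by
  unfold pal
  rw [map_sum]
  refine Finset.sum_congr rfl fun i _ => ?_
  rw [map_mul, aeval_C]

theorem hom_gam {A : Type} [CommRing A] [Algebra ℂ A]
    (φ : MvPolynomial (Fin (n + 1)) ℂ →ₐ[ℂ] A) (j : Fin (n + 2)) :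
    φ (gam G R j) = ∑ l, algebraMap ℂ A (R l j) * φ (G l) := by
  unfold gam
  rw [map_sum]
  refine Finset.sum_congr rfl fun i _ => ?_
  rw [map_mul]
  congr 1
  exact φ.commutes _

theorem hom_pderiv_gam {A : Type} [CommRing A] [Algebra ℂ A]
    (φ : MvPolynomial (Fin (n + 1)) ℂ →ₐ[ℂ] A) (l : Fin (n + 1)) (j : Fin (n + 2)) :
    φ (pderiv l (gam G R j)) = ∑ i, algebraMap ℂ A (R i j) * φ (pderiv l (G i)) := by
  unfold gam
  rw [map_sum, map_sum]
  refine Finset.sum_congr rfl fun i _ => ?_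
  rw [pderiv_C_mul, map_mul]
  congr 1
  exact φ.commutes _

namespace Dbl

/-- the relation between the gradient and the parametrization -/
theorem rel0 (h : Dbl (deh (n + 1) f) ξ w) (hf : f.IsHomogeneous 4) (c : Chart ξ w k al G W)
    (hRQ : R * Q = 1) :
    ∑ j, aeval (fun i => al (G i)) (pal f Q j) * al (gam G R j) = 4 * al W ^ 2 := by
  have h1 : ∀ j, aeval (fun i => al (G i)) (pal f Q j) * al (gam G R j) =
      (∑ i, algebraMap ℂ M (Q j i) * aeval (fun i => al (G i)) (pderiv i f)) *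
        ∑ l, algebraMap ℂ M (R l j) * al (G l) := by
    intro j
    rw [aeval_pal, hom_gam]
  rw [Finset.sum_congr rfl fun j _ => h1 j,
    bilin R Q hRQ (fun i => aeval (fun i => al (G i)) (pderiv i f)) fun l => al (G l)]
  have h2 := congrArg (aeval fun i => al (G i)) hf.sum_X_mul_pderiv
  rw [map_sum, nsmul_eq_mul, map_mul, map_natCast, ← h.chart_eq hf c] at h2
  have h3 : ((4 : ℕ) : M) = 4 := by norm_num
  rw [← h3, ← h2]
  refine Finset.sum_congr rfl fun i _ => ?_
  rw [map_mul, aeval_X, mul_comm]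

theorem rel1 (h : Dbl (deh (n + 1) f) ξ w) (hf : f.IsHomogeneous 4) (c : Chart ξ w k al G W)
    (hRQ : R * Q = 1) (l : Fin (n + 1)) :
    ∑ j, aeval (fun i => al (G i)) (pal f Q j) * al (pderiv l (gam G R j)) =
      2 * al W * al (pderiv l W) := by
  classical
  have h1 : ∀ j, aeval (fun i => al (G i)) (pal f Q j) * al (pderiv l (gam G R j)) =
      (∑ i, algebraMap ℂ M (Q j i) * aeval (fun i => al (G i)) (pderiv i f)) *
        ∑ i, algebraMap ℂ M (R i j) * al (pderiv l (G i)) := by
    intro j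
    rw [aeval_pal, hom_pderiv_gam]
  rw [Finset.sum_congr rfl fun j _ => h1 j,
    bilin R Q hRQ (fun i => aeval (fun i => al (G i)) (pderiv i f)) fun i => al (pderiv l (G i))]
  obtain ⟨D, hD⟩ := c.der l 1
  have h2 : ∀ g, al (pderiv l g) = D (al g) := fun g => by rw [hD, one_mul]
  rw [Finset.sum_congr rfl fun i _ => by rw [h2 (G i)], ← chain_rule D (fun i => al (G i)) f,
    ← h.chart_eq hf c, h2 W, Derivation.leibniz_pow, nsmul_eq_mul, smul_eq_mul, pow_one]
  push_cast
  ring

theorem rel (h : Dbl (deh (n + 1) f) ξ w) (hf : f.IsHomogeneous 4) (c : Chart ξ w k al G W)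
    (hRQ : R * Q = 1) (i : Option (Fin (n + 1))) :
    ∑ j, aeval (fun i => al (G i)) (pal f Q j) * al (Dop k i (gam G R j)) =
      2 * al W * al (Dop (2 * k) i W) := by
  cases i with
  | some l => exact h.rel1 hf c hRQ l
  | none =>
    have h1 : ∀ j, aeval (fun i => al (G i)) (pal f Q j) * al (Dop k none (gam G R j)) =
        (k : M) * (aeval (fun i => al (G i)) (pal f Q j) * al (gam G R j)) -
          ∑ l, al (X l) * (aeval (fun i => al (G i)) (pal f Q j) *
            al (pderiv l (gam G R j))) := by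
      intro j
      rw [Dop_none, map_sub, map_sum, map_smul, Algebra.smul_def, map_natCast, mul_sub,
        Finset.mul_sum]
      congr 1
      · ring
      · refine Finset.sum_congr rfl fun l _ => ?_
        rw [map_mul]
        ring
    rw [Finset.sum_congr rfl fun j _ => h1 j, Finset.sum_sub_distrib, ← Finset.mul_sum,
      h.rel0 hf c hRQ, Finset.sum_comm]
    have h2 : ∑ l, ∑ j, al (X l) * (aeval (fun i => al (G i)) (pal f Q j) *
        al (pderiv l (gam G R j))) = ∑ l, al (X l) * (2 * al W * al (pderiv l W)) := by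
      refine Finset.sum_congr rfl fun l _ => ?_
      rw [← Finset.mul_sum, h.rel1 hf c hRQ l]
    rw [h2, Dop_none, map_sub, map_sum, map_smul, Algebra.smul_def, map_natCast, mul_sub,
      Finset.mul_sum]
    push_cast
    congr 1
    · ring
    · refine Finset.sum_congr rfl fun l _ => ?_
      rw [map_mul]
      ring

end Dbl

end

end Pool.Agent.H764QD
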