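import Mathlib
import Pool.Agent.H764QD.Dom2

/-!
The case in which the ramification divisor is a divisor of the chart: nondegeneracy.
-/

set_option autoImplicit false

namespace Pool.Agent.H764QD

open MvPolynomial Pool.Agent.TH314.PD IntermediateField Module

noncomputable section

variable {n : ℕ}

variable {M : Type} [Field M] [Algebra ℂ M] {f : MvPolynomial (Fin (n + 2)) ℂ}
  {ξ : Fin (n + 1) → M} {w : M} {al : MvPolynomial (Fin (n + 1)) ℂ →ₐ[ℂ] M}
  {G : Fin (n + 2) → MvPolynomial (Fin (n + 1)) ℂ} {W : MvPolynomial (Fin (n + 1)) ℂ}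
  {k : ℕ} {R Q : Matrix (Fin (n + 2)) (Fin (n + 2)) ℂ}

namespace Dbl

/-- the chart as a homomorphism to the valuation ring -/
def alR (h : Dbl (deh (n + 1) f) ξ w) (ht : ∀ l, al (X l) ∈ h.ring) :
    MvPolynomial (Fin (n + 1)) ℂ →ₐ[ℂ] h.ring := aeval fun l => ⟨al (X l), ht l⟩

theorem alR_coe (h : Dbl (deh (n + 1) f) ξ w) (ht : ∀ l, al (X l) ∈ h.ring)
    (g : MvPolynomial (Fin (n + 1)) ℂ) : (h.alR ht g : M) = al g := by
  induction g using MvPolynomial.induction_on with
  | C a =>
    have h1 : al (C a) = algebraMap ℂ M a := al.commutes a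
    rw [h1, alR, aeval_C]
    rfl
  | add p q hp hq =>
    rw [map_add, map_add, ← hp, ← hq]
    rfl
  | mul_X p i hp =>
    rw [map_mul, map_mul, ← hp]
    have h1 : (h.alR ht (X i) : M) = al (X i) := by
      rw [alR, aeval_X]
    rw [← h1]
    rfl

theorem alR_eq (h : Dbl (deh (n + 1) f) ξ w) (ht : ∀ l, al (X l) ∈ h.ring)
    (g : MvPolynomial (Fin (n + 1)) ℂ) : h.alR ht g = ⟨al g, h.al_mem ht g⟩ :=
  Subtype.ext (h.alR_coe ht g)

theorem res_alR (h : Dbl (deh (n + 1) f) ξ w) (ht : ∀ l, al (X l) ∈ h.ring)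
    (g : MvPolynomial (Fin (n + 1)) ℂ) :
    algebraMap h.ring h.kap (h.alR ht g) = aeval (h.tb ht) g := by
  rw [h.tb_ev, h.alR_eq ht g]
  rfl

theorem al_aeval (H : MvPolynomial (Fin (n + 2)) ℂ) :
    aeval (fun i => al (G i)) H = al (aeval G H) := by
  have h1 : (aeval (fun i => al (G i)) : MvPolynomial (Fin (n + 2)) ℂ →ₐ[ℂ] M) =
      al.comp (aeval G) := by
    apply MvPolynomial.algHom_ext
    intro i
    rw [aeval_X, AlgHom.comp_apply, aeval_X]
  rw [h1, AlgHom.comp_apply]

theorem tb_aeval {A : Type} [CommRing A] [Algebra ℂ A] (φ : MvPolynomial (Fin (n + 1)) ℂ →ₐ[ℂ] A)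
    (H : MvPolynomial (Fin (n + 2)) ℂ) :
    aeval (fun i => φ (G i)) H = φ (aeval G H) := by
  have h1 : (aeval (fun i => φ (G i)) : MvPolynomial (Fin (n + 2)) ℂ →ₐ[ℂ] A) =
      φ.comp (aeval G) := by
    apply MvPolynomial.algHom_ext
    intro i
    rw [aeval_X, AlgHom.comp_apply, aeval_X]
  rw [h1, AlgHom.comp_apply]

theorem tb_W (h : Dbl (deh (n + 1) f) ξ w) (c : Chart ξ w k al G W)
    (ht : ∀ l, al (X l) ∈ h.ring) (hG0 : al (G 0) ∈ h.ring) : aeval (h.tb ht) W = 0 := by
  rw [h.tb_ev]
  have h1 : h.res (al W) (h.al_mem ht W) =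
      h.res (w * al (G 0) ^ 2) (mul_mem h.w_mem (pow_mem hG0 2)) := by
    congr 1
    exact c.eqW
  rw [h1, h.res_mul h.w_mem (pow_mem hG0 2), h.res_w, zero_mul]

/-- the values of the operators -/
theorem Dop_none_ev {A : Type} [CommRing A] [Algebra ℂ A] (tb : Fin (n + 1) → A) (q : ℕ)
    (g : MvPolynomial (Fin (n + 1)) ℂ) :
    aeval tb (Dop q none g) = (q : A) * aeval tb g - ∑ l, tb l * aeval tb (pderiv l g) := by
  rw [Dop_none, map_sub, map_sum, map_smul, Algebra.smul_def, map_natCast]
  congr 1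
  refine Finset.sum_congr rfl fun l _ => ?_
  rw [map_mul, aeval_X]

/-- **Nondegeneracy.** -/
theorem nondeg (h : Dbl (deh (n + 1) f) ξ w) (hf : f.IsHomogeneous 4) (hk : 0 < k)
    (c : Chart ξ w k al G W) (ht : ∀ l, al (X l) ∈ h.ring) (hG0 : al (G 0) ∈ h.ring)
    (hr : h.res (al (G 0)) hG0 ≠ 0) (hRQ : R * Q = 1)
    (h0 : aeval (fun i => aeval (h.tb ht) (G i)) (pal f Q 0) ≠ 0)
    (halg : Algebra.IsAlgebraic (IntermediateField.adjoin ℂ (Set.range fun j : Fin (n + 1) =>
      aeval (fun i => aeval (h.tb ht) (G i)) (pal f Q j.castSucc) /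
        aeval (fun i => aeval (h.tb ht) (G i)) (pal f Q 0))) h.kap)
    (μ : h.kap) (v : Fin (n + 1) → h.kap)
    (hyp : ∀ i, μ * aeval (h.tb ht) (Dop k i (gam G R (Fin.last (n + 1)))) +
      ∑ m, v m * ∑ j, (aeval (fun i => aeval (h.tb ht) (G i)) (pal f Q j) /
        aeval (fun i => aeval (h.tb ht) (G i)) (pal f Q 0)) *
          aeval (h.tb ht) (pderiv m (Dop k i (gam G R j))) = 0) : μ = 0 ∧ v = 0 := by
  classical
  set tb := h.tb ht with htb
  set x : Fin (n + 2) → h.kap := fun i => aeval tb (G i) with hx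
  have hPx : ∀ j, aeval tb (aeval G (pal f Q j)) = aeval x (pal f Q j) := fun j =>
    (tb_aeval (aeval tb) (pal f Q j)).symm
  have hPr : h.res (al (aeval G (pal f Q 0))) (h.al_mem ht _) ≠ 0 := by
    rw [← h.tb_ev ht, hPx]
    exact h0
  have hιV := h.inv_mem_of_res (h.al_mem ht _) hPr
  have hPM : al (aeval G (pal f Q 0)) ≠ 0 := by
    intro h1
    apply hPr
    rw [← h.res_zero (by rw [← h1]; exact h.al_mem ht _)]
    congr 1
  let ι : h.ring := ⟨(al (aeval G (pal f Q 0)))⁻¹, hιV⟩
  have hιr : algebraMap h.ring h.kap ι = (aeval x (pal f Q 0))⁻¹ := by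
    rw [← hPx, h.tb_ev]
    exact h.res_inv (h.al_mem ht _) hPr
  let y : Fin (n + 2) → h.ring := fun j => h.alR ht (aeval G (pal f Q j)) * ι
  have hy0 : y 0 = 1 := by
    apply Subtype.ext
    change (h.alR ht (aeval G (pal f Q 0)) : M) * (al (aeval G (pal f Q 0)))⁻¹ = 1
    rw [h.alR_coe, mul_inv_cancel₀ hPM]
  let Y : Fin (n + 2) → h.kap := fun j => aeval x (pal f Q j) / aeval x (pal f Q 0)
  have hyY : ∀ j, algebraMap h.ring h.kap (y j) = Y j := by
    intro j
    change algebraMap h.ring h.kap (h.alR ht (aeval G (pal f Q j)) * ι) = _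
    rw [map_mul, hιr, h.res_alR, hPx]
    exact (div_eq_mul_inv _ _).symm
  have hid : ∀ i, ∑ j, y j * h.alR ht (Dop k i (gam G R j)) =
      h.alR ht W * (2 * ι * h.alR ht (Dop (2 * k) i W)) := by
    intro i
    apply Subtype.ext
    have h1 := h.rel hf c hRQ i
    have h2 : ((∑ j, y j * h.alR ht (Dop k i (gam G R j)) : h.ring) : M) =
        (al (aeval G (pal f Q 0)))⁻¹ *
          ∑ j, aeval (fun i => al (G i)) (pal f Q j) * al (Dop k i (gam G R j)) := by
      have h3 : ((∑ j, y j * h.alR ht (Dop k i (gam G R j)) : h.ring) : M) =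
          ∑ j, ((y j * h.alR ht (Dop k i (gam G R j)) : h.ring) : M) :=
        map_sum h.ring.subtype _ _
      rw [h3, Finset.mul_sum]
      refine Finset.sum_congr rfl fun j _ => ?_
      change (h.alR ht (aeval G (pal f Q j)) : M) * (al (aeval G (pal f Q 0)))⁻¹ *
        (h.alR ht (Dop k i (gam G R j)) : M) = _
      rw [h.alR_coe, h.alR_coe, al_aeval]
      ring
    rw [h2, h1]
    change _ = (h.alR ht W : M) * (2 * (al (aeval G (pal f Q 0)))⁻¹ *
      (h.alR ht (Dop (2 * k) i W) : M))
    rw [h.alR_coe, h.alR_coe]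
    ring
  obtain ⟨d, hd⟩ := h.exists_dv c ht hG0 hr v
  have hd' : ∀ g, d (h.alR ht g) = ∑ l, v l * aeval tb (pderiv l g) := by
    intro g
    rw [h.alR_eq]
    exact hd g
  have hW0 := h.tb_W c ht hG0
  -- the singular matrix
  have hA : ∀ i, ∑ j, aeval tb (Dop k i (gam G R j)) * Y j = 0 := by
    intro i
    have h1 := congrArg (algebraMap h.ring h.kap) (hid i)
    rw [map_sum, map_mul, h.res_alR, hW0, zero_mul] at h1
    rw [← h1]
    refine Finset.sum_congr rfl fun j _ => ?_
    rw [map_mul, hyY, h.res_alR, mul_comm]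
  have hK : ∀ g : Option (Fin (n + 1)) → h.kap,
      (∀ j, ∑ i, g i * aeval tb (Dop k i (gam G R j)) = 0) →
        ∑ i, g i * aeval tb (Dop (2 * k) i W) = 0 → g = 0 := by
    intro g hg hgW
    have hsum : ∀ (q : ℕ) (P : MvPolynomial (Fin (n + 1)) ℂ),
        ∑ i, g i * aeval tb (Dop q i P) = (q : h.kap) * g none * aeval tb P +
          ∑ l, (g (some l) - g none * tb l) * aeval tb (pderiv l P) := by
      intro q P
      rw [Fintype.sum_option, Dop_none_ev]
      have h1 : ∀ l, (g (some l) - g none * tb l) * aeval tb (pderiv l P) =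
          g (some l) * aeval tb (Dop q (some l) P) -
            g none * (tb l * aeval tb (pderiv l P)) := by
        intro l
        rw [Dop_some]
        ring
      rw [Finset.sum_congr rfl fun l _ => h1 l, Finset.sum_sub_distrib, ← Finset.mul_sum]
      ring
    have h1 : ∀ i, ((k : h.kap) * g none) * aeval tb (G i) +
        ∑ l, (g (some l) - g none * tb l) * aeval tb (pderiv l (G i)) = 0 := by
      intro i
      have h2 : ∑ j, algebraMap ℂ h.kap (Q j i) *
          ((k : h.kap) * g none * aeval tb (gam G R j) +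
            ∑ l, (g (some l) - g none * tb l) * aeval tb (pderiv l (gam G R j))) = 0 :=
        Finset.sum_eq_zero fun j _ => by rw [← hsum, hg j, mul_zero]
      have h3 : ∀ j, (k : h.kap) * g none * aeval tb (gam G R j) +
          ∑ l, (g (some l) - g none * tb l) * aeval tb (pderiv l (gam G R j)) =
          ∑ i, algebraMap ℂ h.kap (R i j) * (((k : h.kap) * g none) * aeval tb (G i) +
            ∑ l, (g (some l) - g none * tb l) * aeval tb (pderiv l (G i))) := by
        intro j
        rw [hom_gam (aeval tb)]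
        simp only [mul_add, Finset.sum_add_distrib, Finset.mul_sum]
        congr 1
        · exact Finset.sum_congr rfl fun i _ => by ring
        · rw [Finset.sum_comm]
          refine Finset.sum_congr rfl fun l _ => ?_
          rw [hom_pderiv_gam (aeval tb), Finset.mul_sum]
          exact Finset.sum_congr rfl fun i _ => by ring
      rw [Finset.sum_congr rfl fun j _ => by rw [h3 j],
        invert R Q hRQ (fun i => ((k : h.kap) * g none) * aeval tb (G i) +
            ∑ l, (g (some l) - g none * tb l) * aeval tb (pderiv l (G i))) i] at h2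
      exact h2
    have h2 : ∑ l, (g (some l) - g none * tb l) * aeval tb (pderiv l W) = 0 := by
      rw [hsum, hW0, mul_zero, zero_add] at hgW
      exact hgW
    obtain ⟨h3, h4⟩ := h.dv_zero c ht hG0 hr _ _ h2 h1
    have h5 : g none = 0 := by
      rcases mul_eq_zero.1 h3 with h6 | h6
      · exfalso
        have h7 : (algebraMap ℂ h.kap) (k : ℂ) = 0 := by rw [map_natCast, h6]
        rw [map_eq_zero] at h7
        exact Nat.cast_ne_zero.2 (by omega) h7
      · exact h6
    funext i
    cases i with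
    | none => exact h5
    | some l =>
      have h6 := congrFun h4 l
      simp only [h5, zero_mul, sub_zero, Pi.zero_apply] at h6
      exact h6
  have h2ne : (2 : h.kap) ≠ 0 := by
    intro h1
    have h7 : (algebraMap ℂ h.kap) (2 : ℂ) = 0 := by
      rw [← h1]
      exact map_ofNat _ 2
    rw [map_eq_zero] at h7
    exact two_ne_zero h7
  obtain ⟨hτ, hz⟩ := la (fun i j => aeval tb (Dop k i (gam G R j)))
    (fun i => aeval tb (Dop (2 * k) i W)) Y
    (fun j => (Pi.single (Fin.last (n + 1)) μ : Fin (n + 2) → h.kap) j - d (y j))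
    (div_self h0) hA hK (2 * (aeval x (pal f Q 0))⁻¹) (d (h.alR ht W))
    (mul_ne_zero h2ne (inv_ne_zero h0))
    (by
      rw [hy0, Derivation.map_one_eq_zero, Pi.single_eq_of_ne, sub_zero]
      exact (Fin.last_pos).ne)
    (by
      intro i
      have h1 := congrArg d (hid i)
      rw [map_sum, Derivation.leibniz] at h1
      have h3 : ∀ j, d (y j * h.alR ht (Dop k i (gam G R j))) =
          (∑ m, v m * (Y j * aeval tb (pderiv m (Dop k i (gam G R j))))) +
            aeval tb (Dop k i (gam G R j)) * d (y j) := by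
        intro j
        rw [Derivation.leibniz, Algebra.smul_def, Algebra.smul_def, hyY, h.res_alR, hd',
          Finset.mul_sum]
        congr 1
        exact Finset.sum_congr rfl fun m _ => by ring
      rw [Finset.sum_congr rfl fun j _ => h3 j, Finset.sum_add_distrib, Finset.sum_comm,
        Algebra.smul_def, Algebra.smul_def, h.res_alR, hW0, zero_mul, zero_add, map_mul, map_mul,
        map_ofNat, hιr, h.res_alR] at h1
      have h4 := hyp i
      have h5 : ∑ m, v m * ∑ j, (aeval x (pal f Q j) / aeval x (pal f Q 0)) *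
          aeval tb (pderiv m (Dop k i (gam G R j))) =
          ∑ m, ∑ j, v m * (Y j * aeval tb (pderiv m (Dop k i (gam G R j)))) := by
        refine Finset.sum_congr rfl fun m _ => ?_
        rw [Finset.mul_sum]
      rw [h5] at h4
      have h6 : ∑ j, aeval tb (Dop k i (gam G R j)) *
          ((Pi.single (Fin.last (n + 1)) μ : Fin (n + 2) → h.kap) j - d (y j)) =
          aeval tb (Dop k i (gam G R (Fin.last (n + 1)))) * μ -
            ∑ j, aeval tb (Dop k i (gam G R j)) * d (y j) := by
        simp only [mul_sub, Finset.sum_sub_distrib]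
        congr 1
        rw [Finset.sum_eq_single (Fin.last (n + 1)), Pi.single_eq_same]
        · intro b _ hb
          rw [Pi.single_eq_of_ne hb, mul_zero]
        · intro h2
          exact absurd (Finset.mem_univ _) h2
      rw [h6]
      linear_combination h4 - h1)
  have hdw := h.dv_w c ht hG0 hr d (by rw [← h.alR_eq ht W]; exact hτ)
  obtain ⟨δ, hδ⟩ := h.descend d hdw
  have hδY : ∀ j, δ (Y j) = (Pi.single (Fin.last (n + 1)) μ : Fin (n + 2) → h.kap) j := by
    intro j
    have h1 := hδ (y j : M) (y j).2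
    have h2 : h.res (y j : M) (y j).2 = Y j := hyY j
    rw [h2] at h1
    rw [h1]
    have h3 := congrFun hz j
    exact (sub_eq_zero.1 h3).symm
  have hδ0 : δ = 0 := by
    refine W602.GT.der_eq_zero δ _ halg ?_
    rintro _ ⟨j, rfl⟩
    change δ (Y j.castSucc) = 0
    rw [hδY, Pi.single_eq_of_ne]
    exact (Fin.castSucc_lt_last j).ne
  constructor
  · have h1 := hδY (Fin.last (n + 1))
    rw [hδ0, Derivation.zero_apply, Pi.single_eq_same] at h1
    exact h1.symm
  · funext l
    have h1 := hδ (al (X l)) (ht l)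
    rw [hδ0, Derivation.zero_apply] at h1
    have h2 := hd (X l)
    rw [Finset.sum_eq_single l, pderiv_X_self, map_one, mul_one] at h2
    · rw [← h2, Pi.zero_apply]
      exact h1.symm
    · intro b _ hb
      rw [pderiv_X_of_ne (Ne.symm hb), map_zero, mul_zero]
    · intro h3
      exact absurd (Finset.mem_univ _) h3

end Dbl

end

end Pool.Agent.H764QD
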