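import Mathlib
import Pool.Agent.TH314.PD.Main
import Pool.Agent.H764QD.Dom3

/-!
The case in which the ramification divisor is a divisor of the chart: the bound.
-/

set_option autoImplicit false

namespace Pool.Agent.H764QD

open MvPolynomial Pool.Agent.TH314.PD IntermediateField Module

noncomputable section

variable {n : ℕ}

/-- a nonzero form vanishing at given `n + 2` elements of a field of transcendence degree at most
`n` -/
theorem exists_form' {K : Type} [Field K] [Algebra ℂ K] (htr : Algebra.trdeg ℂ K ≤ n)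
    (ξ : Fin (n + 2) → K) :
    ∃ (m : ℕ) (Δ : MvPolynomial (Fin (n + 2)) ℂ), Δ.IsHomogeneous m ∧ Δ ≠ 0 ∧ aeval ξ Δ = 0 := by
  let v : Fin (n + 2) → Polynomial K := fun i => Polynomial.X * Polynomial.C (ξ i)
  have hv : ¬ AlgebraicIndependent ℂ v := by
    intro h
    have h1 := h.cardinalMk_le_trdeg
    have h2 : Algebra.trdeg ℂ (Polynomial K) ≤ ((n + 1 : ℕ) : Cardinal) := by
      rw [← trdeg_add_eq ℂ K, Polynomial.trdeg_of_isDomain, Nat.cast_add, Nat.cast_one]
      exact add_le_add htr le_rfl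
    have h3 := h1.trans h2
    rw [Cardinal.mk_fin, Nat.cast_le] at h3
    omega
  rw [algebraicIndependent_iff] at hv
  push Not at hv
  obtain ⟨A, hA, hA0⟩ := hv
  -- some component is nonzero
  have h1 : ∃ m, homogeneousComponent m A ≠ 0 := by
    by_contra h
    push Not at h
    apply hA0
    rw [← sum_homogeneousComponent A]
    exact Finset.sum_eq_zero fun i _ => h i
  obtain ⟨m, hm⟩ := h1
  refine ⟨m, homogeneousComponent m A, homogeneousComponent_isHomogeneous _ _, hm, ?_⟩
  have h2 : ∀ i, aeval v (homogeneousComponent i A) =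
      Polynomial.X ^ i * Polynomial.C (aeval ξ (homogeneousComponent i A)) := by
    intro i
    rw [aeval_smul_form (homogeneousComponent_isHomogeneous i A)]
    congr 1
    generalize homogeneousComponent i A = q
    induction q using MvPolynomial.induction_on with
    | C a =>
      rw [aeval_C, aeval_C]
      rfl
    | add f g hf hg => rw [map_add, map_add, map_add, hf, hg]
    | mul_X f l hf => rw [map_mul, map_mul, map_mul, hf, aeval_X, aeval_X]
  have h3 : ∑ i ∈ Finset.range (A.totalDegree + 1),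
      (Polynomial.X ^ i * Polynomial.C (aeval ξ (homogeneousComponent i A)) :
        Polynomial K) = 0 := by
    rw [← Finset.sum_congr rfl fun i _ => h2 i, ← map_sum, sum_homogeneousComponent, hA]
  have h4 := congrArg (fun q : Polynomial K => q.coeff m) h3
  simp only [Polynomial.finsetSum_coeff, Polynomial.coeff_zero] at h4
  have h5 : ∀ i, (Polynomial.X ^ i * Polynomial.C (aeval ξ (homogeneousComponent i A)) :
      Polynomial K).coeff m =
      if i = m then aeval ξ (homogeneousComponent i A) else 0 := by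
    intro i
    rw [Polynomial.coeff_mul_C, Polynomial.coeff_X_pow]
    by_cases h : i = m
    · rw [if_pos h, if_pos h.symm, one_mul]
    · rw [if_neg h, if_neg (Ne.symm h), zero_mul]
  rw [Finset.sum_congr rfl fun i _ => h5 i, Finset.sum_ite_eq'] at h4
  by_cases hmem : m ∈ Finset.range (A.totalDegree + 1)
  · rwa [if_pos hmem] at h4
  · exfalso
    apply hm
    apply homogeneousComponent_eq_zero
    rw [Finset.mem_range] at hmem
    omega

/-- the upper bound for the degree -/
theorem upper_gen {κ : Type} [Field κ] [Algebra ℂ κ] [CharZero κ] (tb : Fin (n + 1) → κ) {k : ℕ}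
    (hfrac : ∀ z : κ, ∃ a b : MvPolynomial (Fin (n + 1)) ℂ, z = aeval tb a / aeval tb b)
    (Γ : Fin (n + 2) → MvPolynomial (Fin (n + 1)) ℂ) (hΓ : ∀ j, (Γ j).totalDegree ≤ k)
    (x : Fin (n + 2) → κ) (p : Fin (n + 1) → MvPolynomial (Fin (n + 2)) ℂ)
    [Algebra.IsAlgebraic (LL x p) κ] (Y : Fin (n + 2) → κ)
    (hYc : ∀ j : Fin (n + 1), Y j.castSucc = yy x p j)
    (hE : ∀ i, ∑ j, Y j * aeval tb (Dop k i (Γ j)) = 0)
    (hnd : ∀ (μ : κ) (v : Fin (n + 1) → κ),
      (∀ i, μ * aeval tb (Dop k i (Γ (Fin.last (n + 1)))) +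
        ∑ m, v m * ∑ j, Y j * aeval tb (pderiv m (Dop k i (Γ j))) = 0) → μ = 0 ∧ v = 0) :
    Module.finrank (LL x p) κ ≤ (n + 1 + 1) * (k - 1) ^ (n + 1) := by
  classical
  have hfd : FiniteDimensional (LL x p) κ := finite_dim (aeval tb) hfrac (LL x p)
  set L := LL x p with hL
  let yL : Fin (n + 1) → L := fun j => ⟨yy x p j, IntermediateField.subset_adjoin _ _ ⟨j, rfl⟩⟩
  let E : Option (Fin (n + 1)) → MvPolynomial (Option (Fin (n + 1))) L := fun i =>
    (∑ j : Fin (n + 1), C (yL j) * io L (Dop k i (Γ j.castSucc))) +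
      X none * io L (Dop k i (Γ (Fin.last (n + 1))))
  let pt : Option (Fin (n + 1)) → κ := fun i => match i with
    | none => Y (Fin.last (n + 1))
    | some l => tb l
  have hio : ∀ g : MvPolynomial (Fin (n + 1)) ℂ, aeval pt (io L g) = aeval tb g := by
    intro g
    rw [aeval_io]
  have hsum : ∀ f' : Fin (n + 2) → MvPolynomial (Fin (n + 1)) ℂ,
      aeval pt ((∑ j : Fin (n + 1), C (yL j) * io L (f' j.castSucc)) +
        X none * io L (f' (Fin.last (n + 1)))) = ∑ j, Y j * aeval tb (f' j) := by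
    intro f'
    have h2 : ∀ j : Fin (n + 1), aeval pt (C (yL j) * io L (f' j.castSucc)) =
        Y j.castSucc * aeval tb (f' j.castSucc) := by
      intro j
      rw [map_mul, aeval_C, hio, hYc]
      rfl
    rw [map_add, map_sum, map_mul, aeval_X, hio, Finset.sum_congr rfl fun j _ => h2 j]
    exact (Fin.sum_univ_castSucc (fun j => Y j * aeval tb (f' j))).symm
  have hE0 : ∀ i, aeval pt (E i) = 0 := by
    intro i
    have h0' : aeval pt (E i) = ∑ j, Y j * aeval tb (Dop k i (Γ j)) :=
      hsum (fun j => Dop k i (Γ j))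
    rw [h0', hE]
  have hdn : ∀ i, pderiv none (E i) = io L (Dop k i (Γ (Fin.last (n + 1)))) := by
    intro i
    change pderiv none ((∑ j : Fin (n + 1), C (yL j) * io L (Dop k i (Γ j.castSucc))) +
      X none * io L (Dop k i (Γ (Fin.last (n + 1))))) = _
    rw [map_add, map_sum, pderiv_mul, pderiv_X_self, pderiv_none_io, mul_zero, add_zero, one_mul]
    rw [Finset.sum_eq_zero, zero_add]
    intro j _
    rw [pderiv_C_mul, pderiv_none_io, mul_zero]
  have hds : ∀ i m, pderiv (some m) (E i) =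
      (∑ j : Fin (n + 1), C (yL j) * io L (pderiv m (Dop k i (Γ j.castSucc)))) +
        X none * io L (pderiv m (Dop k i (Γ (Fin.last (n + 1))))) := by
    intro i m
    change pderiv (some m) ((∑ j : Fin (n + 1), C (yL j) * io L (Dop k i (Γ j.castSucc))) +
      X none * io L (Dop k i (Γ (Fin.last (n + 1))))) = _
    rw [map_add, map_sum, pderiv_mul, pderiv_X_of_ne (by simp), zero_mul, zero_add, pderiv_some_io]
    congr 1
    refine Finset.sum_congr rfl fun j _ => ?_
    rw [pderiv_C_mul, pderiv_some_io]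
  refine ub (q := k - 1) E pt ?_ hE0 ?_ ?_
  · intro i
    refine Bd.add (Bd.sum _ fun j _ => ?_) ?_
    · exact ((Bd.C (yL j)).mul (io_Bd L (Dop_deg (hΓ _) i))).mono (by omega) (by omega)
    · exact (Bd.X.mul (io_Bd L (Dop_deg (hΓ _) i))).mono (by omega) (by omega)
  · intro v hv
    have h1 := hnd (v none) (fun l => v (some l)) (fun i => by
        have h2 := hv i
        rw [Fintype.sum_option, hdn, hio] at h2
        rw [← h2]
        congr 1
        refine Finset.sum_congr rfl fun m _ => ?_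
        rw [hds, hsum (fun j => pderiv m (Dop k i (Γ j)))])
    funext i
    cases i with
    | none => exact h1.1
    | some l => exact congrFun h1.2 l
  · refine surj (aeval tb) hfrac L pt fun l => ?_
    rw [aeval_X]

variable {M : Type} [Field M] [Algebra ℂ M] {f : MvPolynomial (Fin (n + 2)) ℂ}
  {ξ : Fin (n + 1) → M} {w : M} {al : MvPolynomial (Fin (n + 1)) ℂ →ₐ[ℂ] M}
  {G : Fin (n + 2) → MvPolynomial (Fin (n + 1)) ℂ} {W : MvPolynomial (Fin (n + 1)) ℂ}
  {k : ℕ} {R Q : Matrix (Fin (n + 2)) (Fin (n + 2)) ℂ}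

namespace Dbl

/-- the residue field has transcendence degree at most `n` -/
theorem kap_trdeg_le (h : Dbl (deh (n + 1) f) ξ w) : Algebra.trdeg ℂ h.kap ≤ n := by
  by_contra hcon
  push Not at hcon
  have h1 : ((n + 1 : ℕ) : Cardinal) ≤ Algebra.trdeg ℂ h.kap := by
    rw [Nat.cast_add, Nat.cast_one]
    exact Cardinal.add_one_le_of_lt hcon
  have h2 := (indep_of_gen h.xib h.kap_top h1).1
  have h3 : deh (n + 1) f = 0 := h2 (by rw [(h.aeval_xib_zero _).2 dvd_rfl, map_zero])
  exact h.prime.ne_zero h3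

/-- the coordinates of the generic point of the branch divisor -/
theorem xib_eq (h : Dbl (deh (n + 1) f) ξ w) (c : Chart ξ w k al G W)
    (ht : ∀ l, al (X l) ∈ h.ring) (hx0 : aeval (h.tb ht) (G 0) ≠ 0) (j : Fin (n + 1)) :
    h.xib j = aeval (h.tb ht) (G j.succ) / aeval (h.tb ht) (G 0) := by
  rw [eq_div_iff hx0, h.tb_ev, h.tb_ev]
  unfold xib
  rw [← h.res_mul (h.xi_mem j) (h.al_mem ht _)]
  congr 1
  exact (c.ratio j).symm

theorem aeval_x (h : Dbl (deh (n + 1) f) ξ w) (c : Chart ξ w k al G W)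
    (ht : ∀ l, al (X l) ∈ h.ring) (hx0 : aeval (h.tb ht) (G 0) ≠ 0) {e : ℕ}
    {H : MvPolynomial (Fin (n + 2)) ℂ} (hH : H.IsHomogeneous e) :
    aeval (fun i => aeval (h.tb ht) (G i)) H = aeval (h.tb ht) (G 0) ^ e * aeval h.xb H := by
  have h1 : (fun i => aeval (h.tb ht) (G i)) =
      fun i => aeval (h.tb ht) (G 0) * h.xb i := by
    funext i
    refine Fin.cases ?_ (fun j => ?_) i
    · rw [xb, Fin.cons_zero, mul_one]
    · rw [xb, Fin.cons_succ, h.xib_eq c ht hx0]
      field_simp
  rw [h1, aeval_smul_form hH]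

theorem tb_top (h : Dbl (deh (n + 1) f) ξ w) (c : Chart ξ w k al G W)
    (ht : ∀ l, al (X l) ∈ h.ring) (hx0 : aeval (h.tb ht) (G 0) ≠ 0) :
    IntermediateField.adjoin ℂ (Set.range (h.tb ht)) = ⊤ := by
  rw [eq_top_iff, ← h.kap_top, adjoin_le_iff]
  rintro _ ⟨j, rfl⟩
  have hP : ∀ g : MvPolynomial (Fin (n + 1)) ℂ, aeval (h.tb ht) g ∈
      adjoin ℂ (Set.range (h.tb ht)) := by
    intro g
    induction g using MvPolynomial.induction_on with
    | C a =>
      rw [aeval_C]
      exact IntermediateField.algebraMap_mem _ _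
    | add p q hp hq =>
      rw [map_add]
      exact add_mem hp hq
    | mul_X p i hp =>
      rw [map_mul, aeval_X]
      exact mul_mem hp (subset_adjoin _ _ ⟨i, rfl⟩)
  rw [h.xib_eq c ht hx0]
  exact div_mem (hP _) (hP _)

theorem tb_frac (h : Dbl (deh (n + 1) f) ξ w) (c : Chart ξ w k al G W)
    (ht : ∀ l, al (X l) ∈ h.ring) (hx0 : aeval (h.tb ht) (G 0) ≠ 0) (z : h.kap) :
    ∃ a b : MvPolynomial (Fin (n + 1)) ℂ, z = aeval (h.tb ht) a / aeval (h.tb ht) b := by
  have h1 : z ∈ IntermediateField.adjoin ℂ (Set.range (h.tb ht)) := by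
    rw [h.tb_top c ht hx0]
    exact IntermediateField.mem_top
  exact (IntermediateField.mem_adjoin_range_iff ℂ (h.tb ht) z).1 h1

/-- **Upper bound.** -/
theorem upper' (h : Dbl (deh (n + 1) f) ξ w) (hf : f.IsHomogeneous 4) (hk : 0 < k)
    (c : Chart ξ w k al G W) (ht : ∀ l, al (X l) ∈ h.ring) (hG0 : al (G 0) ∈ h.ring)
    (hr : h.res (al (G 0)) hG0 ≠ 0) (hRQ : R * Q = 1)
    (h0 : PP (fun i => aeval (h.tb ht) (G i)) (fun j : Fin (n + 1) => pal f Q j.castSucc) 0 ≠ 0)
    (halg : Algebra.IsAlgebraic (LL (fun i => aeval (h.tb ht) (G i))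
      (fun j : Fin (n + 1) => pal f Q j.castSucc)) h.kap) :
    Module.finrank (LL (fun i => aeval (h.tb ht) (G i))
      (fun j : Fin (n + 1) => pal f Q j.castSucc)) h.kap ≤ (n + 1 + 1) * (k - 1) ^ (n + 1) := by
  have hx0 : aeval (h.tb ht) (G 0) ≠ 0 := by
    rw [h.tb_ev ht]
    exact hr
  have : CharZero h.kap :=
    charZero_of_injective_algebraMap (algebraMap ℂ h.kap).injective
  have hW0 := h.tb_W c ht hG0
  refine upper_gen (h.tb ht) (h.tb_frac c ht hx0) (gam G R) (fun j => comb_deg _ c.deg) _ _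
    (fun j => aeval (fun i => aeval (h.tb ht) (G i)) (pal f Q j) /
      aeval (fun i => aeval (h.tb ht) (G i)) (pal f Q 0)) (fun j => rfl) ?_ ?_
  · intro i
    have h1 := h.rel hf c hRQ i
    have h2 : h.alR ht (∑ j, aeval G (pal f Q j) * Dop k i (gam G R j)) =
        h.alR ht (2 * W * Dop (2 * k) i W) := by
      apply Subtype.ext
      rw [h.alR_coe, h.alR_coe, map_sum, map_mul, map_mul, map_ofNat, ← h1]
      refine Finset.sum_congr rfl fun j _ => ?_
      rw [map_mul, al_aeval]
    have h3 := congrArg (algebraMap h.ring h.kap) h2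
    rw [h.res_alR, h.res_alR, map_sum, map_mul, map_mul, hW0, mul_zero, zero_mul] at h3
    have h4 : ∀ j, aeval (fun i => aeval (h.tb ht) (G i)) (pal f Q j) /
        aeval (fun i => aeval (h.tb ht) (G i)) (pal f Q 0) *
          aeval (h.tb ht) (Dop k i (gam G R j)) =
        (aeval (fun i => aeval (h.tb ht) (G i)) (pal f Q 0))⁻¹ *
        aeval (h.tb ht) (aeval G (pal f Q j) * Dop k i (gam G R j)) := by
      intro j
      rw [map_mul, ← tb_aeval (aeval (h.tb ht)) (pal f Q j), div_eq_mul_inv]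
      ring
    rw [Finset.sum_congr rfl fun j _ => h4 j, ← Finset.mul_sum, h3, mul_zero]
  · exact h.nondeg hf hk c ht hG0 hr hRQ h0 halg

/-- **The bound.** -/
theorem bound (h : Dbl (deh (n + 1) f) ξ w) (hf : f.IsHomogeneous 4)
    (hsm : ∀ z : Fin (n + 2) → ℂ, (∀ i, eval z (pderiv i f) = 0) → z = 0) (hpf : Prime f)
    (hk : 0 < k)
    (c : Chart ξ w k al G W) (ht : ∀ l, al (X l) ∈ h.ring) (hG0 : al (G 0) ∈ h.ring)
    (hr : h.res (al (G 0)) hG0 ≠ 0) : 4 * 3 ^ n ≤ (n + 2) * (k - 1) ^ (n + 1) := by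
  classical
  have hx0 : aeval (h.tb ht) (G 0) ≠ 0 := by
    rw [h.tb_ev ht]
    exact hr
  have htr : Algebra.trdeg ℂ h.kap = n :=
    le_antisymm h.kap_trdeg_le (h.kap_trdeg hf (by norm_num) hpf)
  have hF0 : f ≠ 0 := hpf.ne_zero
  set x : Fin (n + 2) → h.kap := fun i => aeval (h.tb ht) (G i) with hx
  have hFx : aeval x f = 0 := by
    rw [h.aeval_x c ht hx0 hf, h.xb_zero, mul_zero]
  have hker : ∀ e (H : MvPolynomial (Fin (n + 2)) ℂ), H.IsHomogeneous e → aeval x H = 0 →
      f ∣ H := by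
    intro e H hH h1
    rw [h.aeval_x c ht hx0 hH] at h1
    rcases mul_eq_zero.1 h1 with h2 | h2
    · exact absurd h2 (pow_ne_zero e hx0)
    · exact h.xb_ker hf (by norm_num) hpf e H hH h2
  -- the form vanishing on the dual variety
  obtain ⟨m, Δ, hΔ, hΔ0, hΔξ⟩ := exists_form' htr.le fun i => aeval x (pderiv i f)
  obtain ⟨c', hc⟩ : ∃ c' : Fin (n + 2) → ℂ, eval c' (Δ * X 0) ≠ 0 := by
    by_contra hcon
    push Not at hcon
    have : Δ * X 0 = 0 := MvPolynomial.funext fun z => by rw [hcon, map_zero]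
    rcases mul_eq_zero.1 this with h1 | h1
    · exact hΔ0 h1
    · exact X_ne_zero _ h1
  rw [map_mul, eval_X] at hc
  have hcΔ : eval c' Δ ≠ 0 := left_ne_zero_of_mul hc
  have hc0 : c' ≠ 0 := by
    rintro rfl
    exact hc (by simp)
  obtain ⟨R, Q, hRQ, hQR, hRc⟩ := exists_matrix c' hc0
  set p : Fin (n + 1) → MvPolynomial (Fin (n + 2)) ℂ := fun j => pal f Q j.castSucc with hp
  have hph : ∀ j, (p j).IsHomogeneous 3 := fun j => pal_hom hf Q _
  -- their zero locus
  have hz : ∀ z : Fin (n + 2) → ℂ, (∀ i, eval z (p i) = 0) → eval z f = 0 → z = 0 := by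
    intro z hz1 hz2
    let v : Fin (n + 2) → ℂ := fun i => eval z (pderiv i f)
    let s : ℂ := eval z (pal f Q (Fin.last (n + 1)))
    have hev : ∀ j, eval z (pal f Q j) = ∑ i, Q j i * v i := by
      intro j
      change eval z (∑ i, C (Q j i) * pderiv i f) = _
      rw [map_sum]
      refine Finset.sum_congr rfl fun i _ => ?_
      rw [map_mul, eval_C]
    have hv : ∀ i, v i = s * c' i := by
      intro i
      have h1 : ∑ j, R i j * (∑ l, Q j l * v l) = v i := by
        have h2 : ∑ j, R i j * (∑ l, Q j l * v l) = ∑ l, (R * Q) i l * v l := by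
          simp only [Matrix.mul_apply, Finset.sum_mul, Finset.mul_sum]
          rw [Finset.sum_comm]
          refine Finset.sum_congr rfl fun l _ => Finset.sum_congr rfl fun j _ => ?_
          ring
        rw [h2, hRQ]
        simp [Matrix.one_apply]
      rw [← h1, Fin.sum_univ_castSucc, Finset.sum_eq_zero, zero_add, ← hev, hRc]
      · ring
      · intro j _
        rw [← hev]
        have : eval z (pal f Q j.castSucc) = 0 := hz1 j
        rw [this, mul_zero]
    have hdiv : f ∣ aeval (fun i => pderiv i f) Δ := by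
      refine hker (3 * m) _ (hΔ.aeval _ fun i => hf.pderiv) ?_
      rw [← hΔξ]
      have : (aeval (fun i => aeval x (pderiv i f)) :
          MvPolynomial (Fin (n + 2)) ℂ →ₐ[ℂ] h.kap) =
          (aeval x).comp (aeval (fun i => pderiv i f)) := by
        apply MvPolynomial.algHom_ext
        intro i
        rw [aeval_X, AlgHom.comp_apply, aeval_X]
      rw [this, AlgHom.comp_apply]
    obtain ⟨B, hB⟩ := hdiv
    have h3 : eval z (aeval (fun i => pderiv i f) Δ) = 0 := by
      rw [hB, map_mul, hz2, zero_mul]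
    have h4 : eval z (aeval (fun i => pderiv i f) Δ) = aeval v Δ := by
      have : (aeval v : MvPolynomial (Fin (n + 2)) ℂ →ₐ[ℂ] ℂ) =
          (aeval z).comp (aeval (fun i => pderiv i f)) := by
        apply MvPolynomial.algHom_ext
        intro i
        rw [aeval_X, AlgHom.comp_apply, aeval_X]
        rfl
      rw [this, AlgHom.comp_apply]
      rfl
    have h5 : v = fun i => s * c' i := funext hv
    rw [h4, h5, aeval_smul_form hΔ] at h3
    have h6 : s = 0 := by
      rcases mul_eq_zero.1 h3 with h1 | h1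
      · exact eq_zero_of_pow_eq_zero h1
      · exact absurd h1 hcΔ
    apply hsm z
    intro i
    have := hv i
    rw [h6, zero_mul] at this
    exact this
  obtain ⟨e0, hg1, hg2⟩ := Pool.Agent.TH314.PD.gen f hf p hph hz
  have hg : Gen f p 3 e0 := ⟨hg1, hg2⟩
  have h0 : PP x p 0 ≠ 0 := by
    intro h1
    have h2 : f ∣ p 0 := hker 3 _ (hph 0) h1
    have h3 : p 0 = 0 := eq_zero_of_dvd hf hF0 (hph 0) (by omega) h2
    refine comb_ne_zero (by norm_num) hf hsm (fun i => Q 0 i) ?_ h3
    intro h4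
    have h5 : (Q * R) 0 0 = 1 := by rw [hQR, Matrix.one_apply_eq]
    rw [Matrix.mul_apply, Finset.sum_eq_zero] at h5
    · exact zero_ne_one h5
    · intro i _
      rw [congrFun h4 i, Pi.zero_apply, zero_mul]
  have halg : Algebra.IsAlgebraic (LL x p) h.kap :=
    algebraic_LL htr hf (by norm_num) hF0 hker (by norm_num) hg hFx h0
  have hfd : FiniteDimensional (LL x p) h.kap :=
    finite_dim (aeval (h.tb ht)) (h.tb_frac c ht hx0) (LL x p)
  have hup := h.upper' hf hk c ht hG0 hr hRQ h0 halg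
  have hlow : 4 * 3 ^ n ≤ Module.finrank (LL x p) (⊤ : IntermediateField (LL x p) h.kap) :=
    lower (by norm_num) hg hFx h0 hf hker ⊤ (fun β _ => IntermediateField.mem_top)
  rw [IntermediateField.finrank_top'] at hlow
  exact hlow.trans hup

end Dbl

end

end Pool.Agent.H764QD
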