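import Mathlib
import Pool.Agent.H764QD.Dom4
import Pool.Agent.H764QD.Ext2

/-!
Changing and simplifying charts.
-/

set_option autoImplicit false

namespace Pool.Agent.H764QD

open MvPolynomial Pool.Agent.TH314.PD Pool.Agent.Y201.C3 IntermediateField Module

noncomputable section

theorem totalDegree_aeval_le {σ τ : Type} [Fintype σ] (q : ℕ) (v : σ → MvPolynomial τ ℂ)
    (hv : ∀ i, (v i).totalDegree ≤ q) (P : MvPolynomial σ ℂ) :
    (aeval v P).totalDegree ≤ P.totalDegree * q := by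
  classical
  rw [aeval_def, eval₂_eq']
  refine totalDegree_finsetSum_le fun m hm => ?_
  refine (totalDegree_mul _ _).trans ?_
  rw [algebraMap_eq, totalDegree_C, zero_add]
  refine (totalDegree_finsetProd _ _).trans ?_
  refine (Finset.sum_le_sum fun i _ =>
    (totalDegree_pow _ _).trans (Nat.mul_le_mul_left _ (hv i))).trans ?_
  rw [← Finset.sum_mul]
  have := le_totalDegree hm
  rw [Finsupp.sum_fintype _ _ (fun _ => rfl)] at this
  exact Nat.mul_le_mul_right _ this

/-- homogenisation to a given degree -/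
theorem hom_exists' {m : ℕ} (A : MvPolynomial (Fin m) ℂ) {k : ℕ} (hk : A.totalDegree ≤ k) :
    ∃ A' : MvPolynomial (Fin (m + 1)) ℂ, A'.IsHomogeneous k ∧ deh m A' = A := by
  obtain ⟨A', h1, h2⟩ := hom_exists A
  refine ⟨A' * X 0 ^ (k - A.totalDegree), ?_, ?_⟩
  · have := h1.mul ((isHomogeneous_X ℂ (0 : Fin (m + 1))).pow (k - A.totalDegree))
    rwa [one_mul, Nat.add_sub_cancel' hk] at this
  · rw [map_mul, map_pow, deh_X_zero, one_pow, mul_one, h2]

section

variable {m : ℕ} {M : Type} [Field M] [Algebra ℂ M] {ξ : Fin m → M} {w : M} {k : ℕ}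
  {al : MvPolynomial (Fin m) ℂ →ₐ[ℂ] M} {G : Fin (m + 1) → MvPolynomial (Fin m) ℂ}
  {W : MvPolynomial (Fin m) ℂ}

theorem Chart.mono (c : Chart ξ w k al G W) {k' : ℕ} (hk : k ≤ k') : Chart ξ w k' al G W :=
  { c with deg := fun i => (c.deg i).trans hk }

end

variable {n : ℕ} {M : Type} [Field M] [Algebra ℂ M] {f : MvPolynomial (Fin (n + 2)) ℂ}
  {ξ : Fin (n + 1) → M} {w : M} {al : MvPolynomial (Fin (n + 1)) ℂ →ₐ[ℂ] M}
  {G : Fin (n + 2) → MvPolynomial (Fin (n + 1)) ℂ} {W : MvPolynomial (Fin (n + 1)) ℂ}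
  {k : ℕ}

namespace Dbl

theorem W_sq (h : Dbl (deh (n + 1) f) ξ w) (hf : f.IsHomogeneous 4)
    (c : Chart ξ w k al G W) : W ^ 2 = aeval G f := by
  apply c.inj
  rw [map_pow, h.chart_eq hf c, al_aeval]

theorem W_deg (h : Dbl (deh (n + 1) f) ξ w) (hf : f.IsHomogeneous 4)
    (c : Chart ξ w k al G W) : W.totalDegree ≤ 2 * k := by
  by_cases hW : W = 0
  · rw [hW, totalDegree_zero]
    omega
  have h1 := h.W_sq hf c
  have h2 : (W ^ 2).totalDegree = 2 * W.totalDegree := by
    rw [pow_two, totalDegree_mul_of_isDomain hW hW]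
    ring
  have h3 := totalDegree_aeval_le k G c.deg f
  rw [← h1, h2] at h3
  have h4 : f.totalDegree ≤ 4 := hf.totalDegree_le
  have h5 : f.totalDegree * k ≤ 4 * k := Nat.mul_le_mul_right _ h4
  omega

/-- **Integral charts.** -/
theorem exists_integral_chart (h : Dbl (deh (n + 1) f) ξ w) (hf : f.IsHomogeneous 4)
    (c : Chart ξ w k al G W) :
    ∃ (al' : MvPolynomial (Fin (n + 1)) ℂ →ₐ[ℂ] M)
      (G' : Fin (n + 2) → MvPolynomial (Fin (n + 1)) ℂ) (W' : MvPolynomial (Fin (n + 1)) ℂ),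
      Chart ξ w k al' G' W' ∧ ∀ l, al' (X l) ∈ h.ring := by
  classical
  let u : Fin (n + 2) → M := Fin.cons 1 (fun l => al (X l))
  obtain ⟨m, hm⟩ := Finite.exists_max fun i => h.ring.valuation (u i)
  have hum : u m ≠ 0 := by
    intro h0
    have h1 := hm 0
    have h2 : u 0 = 1 := Fin.cons_zero _ _
    rw [h0, h2, map_one, map_zero] at h1
    exact not_lt_of_ge h1 zero_lt_one
  have huV : ∀ i, u i / u m ∈ h.ring := by
    intro i
    rw [← h.ring.valuation_le_one_iff, map_div₀]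
    exact div_le_one_of_le₀ (hm i) zero_le
  let t : Fin (n + 1) → M := fun l => u (m.succAbove l) / u m
  -- the new coordinates generate
  have hgen : IntermediateField.adjoin ℂ (Set.range t) = ⊤ := by
    rw [eq_top_iff, ← Chart.gen_of_frac al c.frac, adjoin_le_iff]
    have h1 : ∀ i, u i / u m ∈ IntermediateField.adjoin ℂ (Set.range t) := by
      intro i
      rcases Fin.eq_self_or_eq_succAbove m i with h2 | ⟨l, h2⟩
      · rw [h2, div_self hum]
        exact one_mem _
      · rw [h2]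
        exact subset_adjoin _ _ ⟨l, rfl⟩
    rintro _ ⟨l, rfl⟩
    have h2 : al (X l) = (u l.succ / u m) / (u 0 / u m) := by
      have h3 : u 0 = 1 := Fin.cons_zero _ _
      have h4 : u l.succ = al (X l) := Fin.cons_succ _ _ _
      rw [h3, h4]
      field_simp
    change al (X l) ∈ _
    rw [h2]
    exact div_mem (h1 _) (h1 _)
  have hbas : IsTranscendenceBasis ℂ t := indep_of_gen t hgen (by rw [c.trdeg])
  let Xm : Fin (n + 2) → MvPolynomial (Fin (n + 1)) ℂ := fun i =>
    if hi : i = m then 1 else X ((finSuccAboveEquiv m).symm ⟨i, hi⟩)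
  have hXm : ∀ i, aeval t (Xm i) = u i / u m := by
    intro i
    by_cases hi : i = m
    · simp only [Xm, dif_pos hi]
      rw [map_one, hi, div_self hum]
    · simp only [Xm, dif_neg hi]
      rw [aeval_X]
      have h1 := (finSuccAboveEquiv m).apply_symm_apply ⟨i, hi⟩
      have h2 : m.succAbove ((finSuccAboveEquiv m).symm ⟨i, hi⟩) = i := congrArg Subtype.val h1
      change u (m.succAbove ((finSuccAboveEquiv m).symm ⟨i, hi⟩)) / u m = _
      rw [h2]
  have hXd : ∀ i, (Xm i).totalDegree ≤ 1 := by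
    intro i
    by_cases hi : i = m
    · simp only [Xm, dif_pos hi]
      rw [totalDegree_one]
      exact zero_le_one
    · simp only [Xm, dif_neg hi]
      rw [totalDegree_X]
  have hev : ∀ (e : ℕ) (H : MvPolynomial (Fin (n + 2)) ℂ), H.IsHomogeneous e →
      aeval t (aeval Xm H) = ((u m)⁻¹) ^ e * al (deh (n + 1) H) := by
    intro e H hH
    rw [← tb_aeval (G := Xm) (aeval t) H]
    have h1 : (fun i => aeval t (Xm i)) = fun i => (u m)⁻¹ * u i := by
      funext i
      rw [hXm, div_eq_mul_inv, mul_comm]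
    rw [h1, aeval_smul_form hH, Chart.al_eq al (deh (n + 1) H), aeval_deh]
  choose Gh hGh1 hGh2 using fun i => hom_exists' (G i) (c.deg i)
  obtain ⟨Wh, hWh1, hWh2⟩ := hom_exists' W (h.W_deg hf c)
  refine ⟨aeval t, fun i => aeval Xm (Gh i), aeval Xm Wh, ⟨hbas.1, ?_, ?_, ?_, ?_, ?_⟩, ?_⟩
  · intro z
    have h1 : z ∈ IntermediateField.adjoin ℂ (Set.range t) := by
      rw [hgen]
      exact IntermediateField.mem_top
    exact (IntermediateField.mem_adjoin_range_iff ℂ t z).1 h1
  · intro i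
    refine (totalDegree_aeval_le 1 Xm hXd (Gh i)).trans ?_
    rw [mul_one]
    exact (hGh1 i).totalDegree_le
  · rw [hev k _ (hGh1 0), hGh2]
    exact mul_ne_zero (pow_ne_zero _ (inv_ne_zero hum)) c.ne
  · intro i
    rw [hev k _ (hGh1 i.succ), hGh2, hev k _ (hGh1 0), hGh2, c.ratio]
    ring
  · rw [hev (2 * k) _ hWh1, hWh2, hev k _ (hGh1 0), hGh2, c.eqW]
    ring
  · intro l
    rw [aeval_X]
    exact huV _

/-- **Common factors.** -/
theorem lower_chart (h : Dbl (deh (n + 1) f) ξ w) (hf : f.IsHomogeneous 4)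
    (c : Chart ξ w k al G W) (p : MvPolynomial (Fin (n + 1)) ℂ) (hp : Irreducible p)
    (hd : ∀ i, p ∣ G i) : ∃ k', k = k' + 1 ∧ ∃ G' W', Chart ξ w k' al G' W' := by
  choose G' hG' using hd
  have hp0 := hp.ne_zero
  have hap : al p ≠ 0 := by
    intro h0
    exact hp0 (c.inj (by rw [h0, map_zero]))
  have hpd : 1 ≤ p.totalDegree := by
    by_contra hcon
    have h1 : p.totalDegree = 0 := by omega
    have h2 := totalDegree_eq_zero_iff_eq_C.1 h1
    apply hp.not_isUnit
    rw [h2]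
    have h3 : coeff 0 p ≠ 0 := by
      intro h4
      rw [h4, C_0] at h2
      exact hp0 h2
    exact (isUnit_iff_ne_zero.2 h3).map C
  have hdeg : ∀ i, G' i ≠ 0 → (G' i).totalDegree + 1 ≤ k := by
    intro i hi
    have h1 := totalDegree_mul_of_isDomain hp0 hi
    rw [← hG' i] at h1
    have h2 := c.deg i
    omega
  have hG0 : G' 0 ≠ 0 := by
    intro h0
    apply c.ne
    rw [hG' 0, h0, mul_zero, map_zero]
  have hk := hdeg 0 hG0
  obtain ⟨k', hk'⟩ : ∃ k', k = k' + 1 := ⟨k - 1, by omega⟩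
  have hpW : p ^ 2 ∣ W := by
    have h1 : (p ^ 2) ^ 2 ∣ W ^ 2 := by
      rw [h.W_sq hf c]
      have h2 : G = fun i => p * G' i := funext hG'
      rw [h2, aeval_smul_form hf]
      exact ⟨aeval G' f, by ring⟩
    exact (IsIntegrallyClosed.pow_dvd_pow_iff two_ne_zero).1 h1
  obtain ⟨W', hW'⟩ := hpW
  refine ⟨k', hk', G', W', c.inj, c.frac, ?_, ?_, ?_, ?_⟩
  · intro i
    by_cases hi : G' i = 0
    · rw [hi, totalDegree_zero]
      exact Nat.zero_le _
    · have := hdeg i hi
      omega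
  · intro h0
    exact hG0 (c.inj (by rw [h0, map_zero]))
  · intro i
    have h1 := c.ratio i
    rw [hG' i.succ, hG' 0, map_mul, map_mul] at h1
    apply mul_left_cancel₀ hap
    rw [h1]
    ring
  · have h1 := c.eqW
    rw [hW', hG' 0, map_mul, map_mul, map_pow] at h1
    apply mul_left_cancel₀ (pow_ne_zero 2 hap)
    rw [h1]
    ring

end Dbl

end

end Pool.Agent.H764QD
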