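import Mathlib
import Pool.Agent.H764QD.Glue

/-!
There are no charts of degree at most three.
-/

set_option autoImplicit false

namespace Pool.Agent.H764QD

open MvPolynomial Pool.Agent.TH314.PD Pool.Agent.Y201.C3 IntermediateField Module

noncomputable section

theorem arith (n : ℕ) : (n + 1 + 1 + 2) * 2 ^ (n + 1 + 1 + 1) < 4 * 3 ^ (n + 1 + 1) := by
  induction n with
  | zero => norm_num
  | succ n ih =>
    have h1 : (n + 1 + 1 + 1 + 2) * 2 ^ (n + 1 + 1 + 1 + 1) =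
        2 * ((n + 1 + 1 + 2) * 2 ^ (n + 1 + 1 + 1)) + 2 * 2 ^ (n + 1 + 1 + 1) := by ring
    have h2 : 2 * 2 ^ (n + 1 + 1 + 1) ≤ (n + 1 + 1 + 2) * 2 ^ (n + 1 + 1 + 1) :=
      Nat.mul_le_mul_right _ (by omega)
    have h3 : 4 * 3 ^ (n + 1 + 1 + 1) = 3 * (4 * 3 ^ (n + 1 + 1)) := by ring
    rw [h1, h3]
    omega

variable {n : ℕ} {M : Type} [Field M] [Algebra ℂ M] {f : MvPolynomial (Fin (n + 1 + 1 + 2)) ℂ}
  {ξ : Fin (n + 1 + 1 + 1) → M} {w : M}

/-- **No charts of degree at most three.** -/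
theorem no_chart (h : Dbl (deh (n + 1 + 1 + 1) f) ξ w) (hf : f.IsHomogeneous 4)
    (hsm : ∀ z : Fin (n + 1 + 1 + 2) → ℂ, (∀ i, eval z (pderiv i f) = 0) → z = 0) (hp : Prime f)
    (k : ℕ) (hk : k ≤ 3) (al : MvPolynomial (Fin (n + 1 + 1 + 1)) ℂ →ₐ[ℂ] M)
    (G : Fin (n + 1 + 1 + 2) → MvPolynomial (Fin (n + 1 + 1 + 1)) ℂ)
    (W : MvPolynomial (Fin (n + 1 + 1 + 1)) ℂ) : ¬ Chart ξ w k al G W := by
  induction k generalizing al G W with
  | zero =>
    intro c0
    obtain ⟨al', G', W', c, ht⟩ := h.exists_integral_chart hf c0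
    have hG0 := h.al_mem ht (G' 0)
    by_cases hr : h.res (al' (G' 0)) hG0 = 0
    · rcases h.ext_case hf hsm hp c ht hG0 hr with ⟨p, hpi, hpd⟩ | ⟨z, hz⟩
      · obtain ⟨k', hk', _⟩ := h.lower_chart hf c p hpi hpd
        omega
      · exact h.no_double_point hf hsm (c.mono hk) z hz
    · exact absurd (h.bound hf hsm hp (by norm_num) (c.mono hk) ht hG0 hr)
        (not_le.2 (arith n))
  | succ k ih =>
    intro c0
    obtain ⟨al', G', W', c, ht⟩ := h.exists_integral_chart hf c0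
    have hG0 := h.al_mem ht (G' 0)
    by_cases hr : h.res (al' (G' 0)) hG0 = 0
    · rcases h.ext_case hf hsm hp c ht hG0 hr with ⟨p, hpi, hpd⟩ | ⟨z, hz⟩
      · obtain ⟨k', hk', G'', W'', c''⟩ := h.lower_chart hf c p hpi hpd
        have h3 : k' = k := by omega
        subst h3
        exact ih (by omega) _ _ _ c''
      · exact h.no_double_point hf hsm (c.mono hk) z hz
    · exact absurd (h.bound hf hsm hp (by norm_num) (c.mono hk) ht hG0 hr)
        (not_le.2 (arith n))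

end

end Pool.Agent.H764QD
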