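import Mathlib
import Pool.Agent.R845.Irr
import Pool.Agent.H764QD.NoChart

/-!
Birational parametrizations have degree at least four.
-/

set_option autoImplicit false

namespace Pool.Agent.H764QD

open MvPolynomial Pool.Agent.TH314.PD Pool.Agent.Y201.C3 IntermediateField Module

noncomputable section

section

variable {n : ℕ} {M : Type} [Field M] [Algebra ℂ M] {f : MvPolynomial (Fin (n + 2)) ℂ}

theorem cover_mem_cl (hf : f.IsHomogeneous 4) (x : Fin (n + 2) → M) (y : M)
    (hy : y ^ 2 = aeval x f) (S : Set M) (hS : ∀ i j, x i / x j ∈ H450Al.cl ℂ S) (z : M)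
    (hz : z ∈ coverField x y) : z ∈ H450Al.cl ℂ S := by
  unfold coverField at hz
  induction hz using IntermediateField.adjoin_induction with
  | mem z hz =>
    rcases hz with ⟨i, j, rfl⟩ | ⟨j, rfl⟩
    · exact hS i j
    · by_cases hj : x j = 0
      · rw [hj, zero_pow two_ne_zero, div_zero]
        exact (H450Al.clAlg ℂ _).zero_mem
      · rw [H450Al.mem_cl]
        refine IsAlgebraic.of_pow two_pos ?_
        rw [← H450Al.mem_cl]
        have h1 : (y / x j ^ 2) ^ 2 = aeval (fun i => x i / x j) f := by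
          have h2 : x = fun i => x j * (x i / x j) := by
            funext i
            field_simp
          have h3 : aeval x f = x j ^ 4 * aeval (fun i => x i / x j) f := by
            conv_lhs => rw [h2]
            exact aeval_smul_form hf _ _
          rw [div_pow, hy, h3]
          field_simp
        rw [h1]
        exact H450Al.aeval_mem_cl ℂ (fun i => hS i j) f
  | algebraMap c => exact (H450Al.clAlg ℂ _).algebraMap_mem c
  | add a b _ _ ha hb => exact (H450Al.clAlg ℂ _).add_mem ha hb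
  | inv a _ ha => exact H450Al.inv_mem_cl ℂ ha
  | mul a b _ _ ha hb => exact (H450Al.clAlg ℂ _).mul_mem ha hb

theorem indep_ratio (hf : f.IsHomogeneous 4) (x : Fin (n + 2) → M) (y : M)
    (hy : y ^ 2 = aeval x f) (htop : coverField x y = ⊤)
    (htr : ((n + 1 : ℕ) : Cardinal) ≤ Algebra.trdeg ℂ M) (b : Fin (n + 2)) (hb : x b ≠ 0) :
    AlgebraicIndependent ℂ (fun l : Fin (n + 1) => x (b.succAbove l) / x b) := by
  set t : Fin (n + 1) → M := fun l => x (b.succAbove l) / x b with ht
  have h1 : ∀ i, x i / x b ∈ H450Al.cl ℂ (Set.range t) := by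
    intro i
    rcases Fin.eq_self_or_eq_succAbove b i with h2 | ⟨l, h2⟩
    · rw [h2, div_self hb]
      exact (H450Al.clAlg ℂ _).one_mem
    · rw [h2]
      exact H450Al.subset_cl ℂ _ ⟨l, rfl⟩
  have h2 : ∀ i j, x i / x j ∈ H450Al.cl ℂ (Set.range t) := by
    intro i j
    have h3 : x i / x j = (x i / x b) * (x j / x b)⁻¹ := by
      rw [← div_eq_mul_inv, div_div_div_cancel_right₀ hb]
    rw [h3]
    exact (H450Al.clAlg ℂ _).mul_mem (h1 i) (H450Al.inv_mem_cl ℂ (h1 j))
  have h3 : Algebra.IsAlgebraic (Algebra.adjoin ℂ (Set.range t)) M := by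
    refine ⟨fun z => ?_⟩
    rw [← H450Al.mem_cl]
    refine cover_mem_cl hf x y hy _ h2 z ?_
    rw [htop]
    exact IntermediateField.mem_top
  exact (Algebra.IsAlgebraic.isTranscendenceBasis_of_le_trdeg_of_finite ℂ t
    (by rwa [Cardinal.mk_fin])).1

theorem exists_ne (hf : f.IsHomogeneous 4) (x : Fin (n + 2) → M) (y : M)
    (hy : y ^ 2 = aeval x f) (htop : coverField x y = ⊤)
    (htr : ((n + 1 : ℕ) : Cardinal) ≤ Algebra.trdeg ℂ M) : ∃ b, x b ≠ 0 := by
  by_contra hcon
  push Not at hcon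
  have h1 : Algebra.IsAlgebraic ℂ M := by
    refine ⟨fun z => ?_⟩
    have h2 := cover_mem_cl hf x y hy ∅ (fun i j => by
      rw [hcon i, zero_div]
      exact (H450Al.clAlg ℂ _).zero_mem) z (by
        rw [htop]
        exact IntermediateField.mem_top)
    rw [H450Al.mem_cl] at h2
    have h3 : Algebra.adjoin ℂ (∅ : Set M) = ⊥ := Algebra.adjoin_empty ℂ M
    rw [h3] at h2
    have h4 : Algebra.IsAlgebraic ℂ (⊥ : Subalgebra ℂ M) := by
      refine ⟨fun z => ?_⟩
      obtain ⟨c, hc⟩ := Algebra.mem_bot.1 z.2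
      have h5 : z = algebraMap ℂ (⊥ : Subalgebra ℂ M) c := Subtype.ext hc.symm
      rw [h5]
      exact isAlgebraic_algebraMap c
    exact h2.restrictScalars ℂ
  rw [trdeg_eq_zero_iff.2 h1] at htr
  have h2 : ((n + 1 : ℕ) : Cardinal) ≤ ((0 : ℕ) : Cardinal) := by
    rwa [Nat.cast_zero]
  rw [Nat.cast_le] at h2
  omega

theorem all_ne (hf : f.IsHomogeneous 4) (x : Fin (n + 2) → M) (y : M)
    (hy : y ^ 2 = aeval x f) (htop : coverField x y = ⊤)
    (htr : ((n + 1 : ℕ) : Cardinal) ≤ Algebra.trdeg ℂ M) (i : Fin (n + 2)) : x i ≠ 0 := by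
  obtain ⟨b, hb⟩ := exists_ne hf x y hy htop htr
  rcases Fin.eq_self_or_eq_succAbove b i with h2 | ⟨l, h2⟩
  · rw [h2]
    exact hb
  · intro h0
    have h3 := (indep_ratio hf x y hy htop htr b hb).ne_zero l
    apply h3
    change x (b.succAbove l) / x b = 0
    rw [← h2, h0, zero_div]

/-- the data of the double cover attached to a birational parametrization -/
theorem dbl_of_cover (hf : f.IsHomogeneous 4) (hp : Prime f) (x : Fin (n + 2) → M) (y : M)
    (hy : y ^ 2 = aeval x f) (htop : coverField x y = ⊤)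
    (htr : ((n + 1 : ℕ) : Cardinal) ≤ Algebra.trdeg ℂ M) :
    Dbl (deh (n + 1) f) (fun l : Fin (n + 1) => x l.succ / x 0) (y / x 0 ^ 2) := by
  have hne := all_ne hf x y hy htop htr
  set ξ : Fin (n + 1) → M := fun l => x l.succ / x 0 with hξ
  set w : M := y / x 0 ^ 2 with hw
  have hind : AlgebraicIndependent ℂ ξ := by
    have h1 := indep_ratio hf x y hy htop htr 0 (hne 0)
    simpa only [Fin.zero_succAbove] using h1
  have hcons : (Fin.cons 1 ξ : Fin (n + 2) → M) = fun i => (x 0)⁻¹ * x i := by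
    funext i
    refine Fin.cases ?_ (fun j => ?_) i
    · rw [Fin.cons_zero, inv_mul_cancel₀ (hne 0)]
    · rw [Fin.cons_succ]
      exact div_eq_inv_mul _ _
  have heq : w ^ 2 = aeval ξ (deh (n + 1) f) := by
    rw [aeval_deh, hcons, aeval_smul_form hf, ← hy, hw]
    field_simp
  let E : Fin (n + 2) → MvPolynomial (Fin (n + 1)) ℂ := fun i => deh (n + 1) (X i)
  have hE : ∀ i, aeval ξ (E i) = (x 0)⁻¹ * x i := by
    intro i
    change aeval ξ (deh (n + 1) (X i)) = _
    rw [aeval_deh, aeval_X, hcons]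
  have hE0 : ∀ i, E i ≠ 0 := by
    intro i h0
    have h1 := hE i
    rw [h0, map_zero] at h1
    exact mul_ne_zero (inv_ne_zero (hne 0)) (hne i) h1.symm
  have hinj : ∀ {A : MvPolynomial (Fin (n + 1)) ℂ}, A ≠ 0 → aeval ξ A ≠ 0 := by
    intro A hA h0
    exact hA (hind (by rw [h0, map_zero]))
  refine ⟨deh_prime hf (by norm_num) hp, hind, heq, fun z => ?_⟩
  have hz : z ∈ coverField x y := by
    rw [htop]
    exact IntermediateField.mem_top
  unfold coverField at hz
  induction hz using IntermediateField.adjoin_induction with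
  | mem z hz =>
    rcases hz with ⟨i, j, rfl⟩ | ⟨j, rfl⟩
    · refine ⟨E i, 0, E j, hE0 j, ?_⟩
      rw [hE, hE, map_zero]
      have := hne j
      field_simp
      ring
    · refine ⟨0, 1, E j ^ 2, pow_ne_zero 2 (hE0 j), ?_⟩
      rw [map_pow, hE, map_zero, map_one, hw]
      have := hne j
      field_simp
      ring
  | algebraMap c =>
    refine ⟨C c, 0, 1, one_ne_zero, ?_⟩
    rw [map_one, map_zero, aeval_C]
    ring
  | add a b _ _ ha hb =>
    obtain ⟨A, B, D, hD, h1⟩ := ha
    obtain ⟨A', B', D', hD', h2⟩ := hb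
    refine ⟨A * D' + A' * D, B * D' + B' * D, D * D', mul_ne_zero hD hD', ?_⟩
    simp only [map_add, map_mul]
    linear_combination (aeval ξ D') * h1 + (aeval ξ D) * h2
  | inv a _ ha =>
    obtain ⟨A, B, D, hD, h1⟩ := ha
    by_cases ha0 : a = 0
    · refine ⟨0, 0, 1, one_ne_zero, ?_⟩
      rw [ha0, inv_zero, map_zero, map_one]
      ring
    by_cases hN : A ^ 2 - B ^ 2 * deh (n + 1) f = 0
    · -- the conjugate vanishes
      have h2 : (aeval ξ A + aeval ξ B * w) * (aeval ξ A - aeval ξ B * w) = 0 := by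
        have h3 := congrArg (aeval ξ) hN
        rw [map_sub, map_pow, map_mul, map_pow, ← heq, map_zero] at h3
        linear_combination h3
      have h4 : aeval ξ A + aeval ξ B * w ≠ 0 := by
        rw [← h1]
        exact mul_ne_zero ha0 (hinj hD)
      have h5 : aeval ξ A = aeval ξ B * w := by
        have := (mul_eq_zero.1 h2).resolve_left h4
        linear_combination this
      have hB : B ≠ 0 := by
        rintro rfl
        apply h4
        rw [h5, map_zero]
        ring
      have hφ : deh (n + 1) f ≠ 0 := (deh_prime hf (by norm_num) hp).ne_zero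
      refine ⟨0, D, 2 * B * deh (n + 1) f,
        mul_ne_zero (mul_ne_zero two_ne_zero hB) hφ, ?_⟩
      rw [map_mul, map_mul, map_ofNat, ← heq, map_zero, zero_add]
      have h6 : a * aeval ξ D = 2 * aeval ξ B * w := by
        rw [h1, h5]
        ring
      have h7 : a⁻¹ * (2 * aeval ξ B * w ^ 2) = a⁻¹ * (a * aeval ξ D) * w := by
        rw [h6]
        ring
      rw [h7, inv_mul_cancel_left₀ ha0]
    · refine ⟨D * A, -(D * B), A ^ 2 - B ^ 2 * deh (n + 1) f, hN, ?_⟩
      rw [map_sub, map_pow, map_mul, map_pow, ← heq, map_mul, map_neg, map_mul]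
      have h2 : aeval ξ A ^ 2 - aeval ξ B ^ 2 * w ^ 2 =
          a * (aeval ξ D * (aeval ξ A - aeval ξ B * w)) := by
        linear_combination -(aeval ξ A - aeval ξ B * w) * h1
      rw [h2, inv_mul_cancel_left₀ ha0]
      ring
  | mul a b _ _ ha hb =>
    obtain ⟨A, B, D, hD, h1⟩ := ha
    obtain ⟨A', B', D', hD', h2⟩ := hb
    refine ⟨A * A' + B * B' * deh (n + 1) f, A * B' + A' * B, D * D', mul_ne_zero hD hD', ?_⟩
    simp only [map_add, map_mul, ← heq]
    linear_combination (b * aeval ξ D') * h1 + (aeval ξ A + aeval ξ B * w) * h2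

end

/-- **Birational parametrizations have degree at least four.** -/
theorem no_param' {n : ℕ} {M : Type} [Field M] [Algebra ℂ M]
    (f : MvPolynomial (Fin (n + 1 + 1 + 2)) ℂ) (hf : f.IsHomogeneous 4)
    (hsm : ∀ z : Fin (n + 1 + 1 + 2) → ℂ, (∀ i, eval z (pderiv i f) = 0) → z = 0)
    (G : Fin (n + 1 + 1 + 2) → MvPolynomial (Fin (n + 1 + 1 + 1)) ℂ)
    (W : MvPolynomial (Fin (n + 1 + 1 + 1)) ℂ) (hG : ∀ i, (G i).totalDegree ≤ 3)
    (hW : W ^ 2 = aeval G f) (al : MvPolynomial (Fin (n + 1 + 1 + 1)) ℂ →ₐ[ℂ] M)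
    (hinj : Function.Injective al) (hfrac : ∀ z : M, ∃ a b, z = al a / al b)
    (htop : coverField (fun i => al (G i)) (al W) = ⊤) : False := by
  have hF0 : f ≠ 0 := by
    rintro rfl
    have := hsm 1 (fun i => by rw [map_zero, map_zero])
    exact one_ne_zero this
  have hp : Prime f :=
    (R845.irreducible_of_smooth (by omega) (by norm_num) hf hF0 hsm).prime
  have hy : (al W) ^ 2 = aeval (fun i => al (G i)) f := by
    rw [Dbl.tb_aeval al f, ← hW, map_pow]
  have htr : ((n + 1 + 1 + 1 : ℕ) : Cardinal) ≤ Algebra.trdeg ℂ M := by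
    have h1 : AlgebraicIndependent ℂ (fun l : Fin (n + 1 + 1 + 1) => al (X l)) :=
      (MvPolynomial.algebraicIndependent_X (Fin (n + 1 + 1 + 1)) ℂ).map' hinj
    have := h1.cardinalMk_le_trdeg
    rwa [Cardinal.mk_fin] at this
  have h := dbl_of_cover hf hp (fun i => al (G i)) (al W) hy htop htr
  have hne := all_ne hf (fun i => al (G i)) (al W) hy htop htr 0
  refine no_chart h hf hsm hp 3 le_rfl al G W ⟨hinj, hfrac, hG, hne, ?_, ?_⟩
  · intro i
    exact (div_mul_cancel₀ _ hne).symm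
  · exact (div_mul_cancel₀ _ (pow_ne_zero 2 hne)).symm

theorem no_param {r : ℕ} (hr : 3 ≤ r) (f : MvPolynomial (Fin (r + 1)) ℂ) (hf : f.IsHomogeneous 4)
    (hsm : ∀ z : Fin (r + 1) → ℂ, (∀ i, eval z (pderiv i f) = 0) → z = 0)
    (G : Fin (r + 1) → MvPolynomial (Fin r) ℂ)
    (W : MvPolynomial (Fin r) ℂ) (hG : ∀ i, (G i).totalDegree ≤ 3)
    (hW : W ^ 2 = aeval G f)
    (htop : coverField (fun i => algebraMap _ (FractionRing (MvPolynomial (Fin r) ℂ)) (G i))
      (algebraMap _ _ W) = ⊤) : False := by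
  obtain ⟨n, rfl⟩ := Nat.exists_eq_add_of_le' hr
  refine no_param' (n := n) f hf hsm G W hG hW
    (IsScalarTower.toAlgHom ℂ (MvPolynomial (Fin (n + 3)) ℂ)
      (FractionRing (MvPolynomial (Fin (n + 3)) ℂ))) (IsFractionRing.injective _ _) ?_ htop
  intro z
  obtain ⟨a, b, _, h1⟩ := IsFractionRing.div_surjective (A := MvPolynomial (Fin (n + 3)) ℂ) z
  exact ⟨a, b, h1.symm⟩

end

end Pool.Agent.H764QD
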